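import Mathlib
set_option autoImplicit false

/-! An interpolation theorem between `L²` and `L⁴`. -/

open MeasureTheory Set
open scoped ENNReal

namespace Pool.Agent.H243.RP

theorem sum_geom (r : ℝ) (hr : 0 < r) (hr1 : r < 1) : ∃ D : ℝ, 0 < D ∧ ∀ (F : Finset ℤ) (m : ℤ),
    ∑ k ∈ F, r ^ (k - m).natAbs ≤ D := by
  set f : ℤ → ℝ := fun k => r ^ k.natAbs with hf
  have hs : Summable f := by
    apply Summable.of_nat_of_neg
    · simp only [hf, Int.natAbs_natCast]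
      exact summable_geometric_of_lt_one hr.le hr1
    · simp only [hf, Int.natAbs_neg, Int.natAbs_natCast]
      exact summable_geometric_of_lt_one hr.le hr1
  have hf0 : ∀ k, 0 ≤ f k := fun k => by simp only [hf]; positivity
  have htn : 0 ≤ ∑' k, f k := tsum_nonneg hf0
  refine ⟨∑' k, f k + 1, by linarith, ?_⟩
  intro F m
  have e : ∑' k, f (k - m) = ∑' k, f k := (Equiv.subRight m).tsum_eq f
  have hs' : Summable fun k => f (k - m) := (Equiv.subRight m).summable_iff.2 hs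
  have h1 := hs'.sum_le_tsum F (fun k _ => hf0 _)
  rw [e] at h1
  linarith

theorem interp_real (q : ℝ) (hq2 : 2 < q) (hq4 : q < 4) : ∃ C : ℝ, 0 < C ∧
    ∀ (F : Finset ℤ) (a : ℤ → ℝ), (∀ k, 0 ≤ a k) →
    (∑ k ∈ F, a k) ^ q ≤ C * ∑ k ∈ F, (a k ^ 4 * (2 : ℝ) ^ ((k : ℝ) * (q - 4)) +
      a k ^ 2 * (2 : ℝ) ^ ((k : ℝ) * (q - 2))) := by
  set δ : ℝ := min ((4 - q) / 4) ((q - 2) / 2) with hδ
  have hδ0 : 0 < δ := lt_min (by linarith) (by linarith)
  have hδ1 : δ ≤ (4 - q) / 4 := min_le_left _ _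
  have hδ2 : δ ≤ (q - 2) / 2 := min_le_right _ _
  set r : ℝ := (2 : ℝ) ^ (-δ) with hr
  have hr0 : 0 < r := by positivity
  have hr1 : r < 1 := Real.rpow_lt_one_of_one_lt_of_neg (by norm_num) (by linarith)
  obtain ⟨D, hD0, hD⟩ := sum_geom r hr0 hr1
  refine ⟨((2 : ℝ) ^ δ * D) ^ q, by positivity, ?_⟩
  intro F a ha
  set X : ℝ := ∑ k ∈ F, (a k ^ 4 * (2 : ℝ) ^ ((k : ℝ) * (q - 4)) +
      a k ^ 2 * (2 : ℝ) ^ ((k : ℝ) * (q - 2))) with hX
  have hterm : ∀ k, 0 ≤ a k ^ 4 * (2 : ℝ) ^ ((k : ℝ) * (q - 4)) +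
      a k ^ 2 * (2 : ℝ) ^ ((k : ℝ) * (q - 2)) := fun k => by
    have := ha k
    positivity
  have hX0 : 0 ≤ X := Finset.sum_nonneg fun k _ => hterm k
  rcases eq_or_lt_of_le hX0 with h0 | h0
  · have hz : ∀ k ∈ F, a k = 0 := by
      intro k hk
      have h1 := (Finset.sum_eq_zero_iff_of_nonneg (fun k _ => hterm k)).1 h0.symm k hk
      have h2 : 0 ≤ a k ^ 2 * (2 : ℝ) ^ ((k : ℝ) * (q - 2)) := by positivity
      have h3 : a k ^ 4 * (2 : ℝ) ^ ((k : ℝ) * (q - 4)) = 0 := by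
        have h4 : 0 ≤ a k ^ 4 * (2 : ℝ) ^ ((k : ℝ) * (q - 4)) := by positivity
        linarith
      rcases mul_eq_zero.1 h3 with h4 | h4
      · exact pow_eq_zero_iff (by norm_num) |>.1 h4
      · exact absurd h4 (by positivity)
    rw [Finset.sum_eq_zero hz, Real.zero_rpow (by linarith), ← h0, mul_zero]
  · set L : ℝ := Real.logb 2 X / q with hL
    have hLX : (2 : ℝ) ^ (L * q) = X := by
      rw [hL, div_mul_cancel₀ _ (by linarith)]
      exact Real.rpow_logb (by norm_num) (by norm_num) h0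
    have hk : ∀ k ∈ F, a k ≤ (2 : ℝ) ^ L * (2 : ℝ) ^ (-δ * |(k : ℝ) - L|) := by
      intro k hk
      have hle : a k ^ 4 * (2 : ℝ) ^ ((k : ℝ) * (q - 4)) +
          a k ^ 2 * (2 : ℝ) ^ ((k : ℝ) * (q - 2)) ≤ X :=
        Finset.single_le_sum (f := fun k => a k ^ 4 * (2 : ℝ) ^ ((k : ℝ) * (q - 4)) +
          a k ^ 2 * (2 : ℝ) ^ ((k : ℝ) * (q - 2))) (fun k _ => hterm k) hk
      have hak := ha k
      have p4 : 0 ≤ a k ^ 4 * (2 : ℝ) ^ ((k : ℝ) * (q - 4)) := by positivity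
      have p2 : 0 ≤ a k ^ 2 * (2 : ℝ) ^ ((k : ℝ) * (q - 2)) := by positivity
      rw [← Real.rpow_add (by norm_num)]
      have c2 : (2 : ℝ) ^ L ≤ (2 : ℝ) ^ L := le_rfl
      rcases le_total (k : ℝ) L with hkL | hkL
      · -- use the fourth power
        have h1 : a k ^ 4 ≤ X * (2 : ℝ) ^ (-((k : ℝ) * (q - 4))) := by
          rw [Real.rpow_neg (by norm_num), ← div_eq_mul_inv, le_div_iff₀ (by positivity)]
          linarith
        have h2 : a k ^ 4 ≤ ((2 : ℝ) ^ (L + -δ * |(k : ℝ) - L|)) ^ 4 := by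
          refine h1.trans ?_
          rw [← hLX, ← Real.rpow_add (by norm_num), ← Real.rpow_natCast ((2 : ℝ) ^ _) 4,
            ← Real.rpow_mul (by norm_num)]
          apply Real.rpow_le_rpow_of_exponent_le (by norm_num)
          rw [abs_of_nonpos (by linarith)]
          push_cast
          nlinarith
        exact (pow_le_pow_iff_left₀ hak (by positivity) (by norm_num)).1 h2
      · have h1 : a k ^ 2 ≤ X * (2 : ℝ) ^ (-((k : ℝ) * (q - 2))) := by
          rw [Real.rpow_neg (by norm_num), ← div_eq_mul_inv, le_div_iff₀ (by positivity)]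
          linarith
        have h2 : a k ^ 2 ≤ ((2 : ℝ) ^ (L + -δ * |(k : ℝ) - L|)) ^ 2 := by
          refine h1.trans ?_
          rw [← hLX, ← Real.rpow_add (by norm_num), ← Real.rpow_natCast ((2 : ℝ) ^ _) 2,
            ← Real.rpow_mul (by norm_num)]
          apply Real.rpow_le_rpow_of_exponent_le (by norm_num)
          rw [abs_of_nonneg (by linarith)]
          push_cast
          nlinarith
        exact (pow_le_pow_iff_left₀ hak (by positivity) (by norm_num)).1 h2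
    have hk2 : ∀ k ∈ F, a k ≤ (2 : ℝ) ^ L * ((2 : ℝ) ^ δ * r ^ (k - ⌊L⌋).natAbs) := by
      intro k hkF
      refine (hk k hkF).trans ?_
      apply mul_le_mul_of_nonneg_left _ (by positivity)
      rw [hr, ← Real.rpow_natCast, ← Real.rpow_mul (by norm_num), ← Real.rpow_add (by norm_num)]
      apply Real.rpow_le_rpow_of_exponent_le (by norm_num)
      have e1 : (((k - ⌊L⌋).natAbs : ℕ) : ℝ) = |(k : ℝ) - ⌊L⌋| := by
        rw [Nat.cast_natAbs]
        push_cast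
        rfl
      rw [e1]
      have h1 := Int.floor_le L
      have h2 := Int.lt_floor_add_one L
      have h3 : |(k : ℝ) - ⌊L⌋| ≤ |(k : ℝ) - L| + 1 := by
        have h4 : (k : ℝ) - ⌊L⌋ = ((k : ℝ) - L) + (L - ⌊L⌋) := by ring
        rw [h4]
        refine (abs_add_le _ _).trans ?_
        have : |L - ⌊L⌋| ≤ 1 := by rw [abs_of_nonneg (by linarith)]; linarith
        linarith
      nlinarith
    have hsum : ∑ k ∈ F, a k ≤ (2 : ℝ) ^ L * ((2 : ℝ) ^ δ * D) := by
      calc ∑ k ∈ F, a k ≤ ∑ k ∈ F, (2 : ℝ) ^ L * ((2 : ℝ) ^ δ * r ^ (k - ⌊L⌋).natAbs) :=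
            Finset.sum_le_sum hk2
        _ = (2 : ℝ) ^ L * ((2 : ℝ) ^ δ * ∑ k ∈ F, r ^ (k - ⌊L⌋).natAbs) := by
            rw [← Finset.mul_sum, ← Finset.mul_sum]
        _ ≤ _ := by
            have := hD F ⌊L⌋
            gcongr
    calc (∑ k ∈ F, a k) ^ q ≤ ((2 : ℝ) ^ L * ((2 : ℝ) ^ δ * D)) ^ q :=
          Real.rpow_le_rpow (Finset.sum_nonneg fun k _ => ha k) hsum (by linarith)
      _ = ((2 : ℝ) ^ δ * D) ^ q * X := by
          rw [Real.mul_rpow (by positivity) (by positivity), ← Real.rpow_mul (by norm_num), hLX]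
          ring

/-- the weights -/
noncomputable def w4 (q : ℝ) (k : ℤ) : ℝ≥0∞ := ENNReal.ofReal ((2 : ℝ) ^ ((k : ℝ) * (q - 4)))
noncomputable def w2 (q : ℝ) (k : ℤ) : ℝ≥0∞ := ENNReal.ofReal ((2 : ℝ) ^ ((k : ℝ) * (q - 2)))

theorem interp_enn (q : ℝ) (hq2 : 2 < q) (hq4 : q < 4) : ∃ C : ℝ, 0 < C ∧
    ∀ (a : ℤ → ℝ≥0∞), (∑' k, a k) ^ q ≤ ENNReal.ofReal C * ∑' k, (a k ^ 4 * w4 q k +
      a k ^ 2 * w2 q k) := by
  obtain ⟨C, hC0, hC⟩ := interp_real q hq2 hq4
  refine ⟨C, hC0, ?_⟩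
  intro a
  have hw4 : ∀ k, w4 q k ≠ 0 := fun k => by
    unfold w4
    rw [Ne, ENNReal.ofReal_eq_zero, not_le]
    positivity
  by_cases ht : ∑' k, (a k ^ 4 * w4 q k + a k ^ 2 * w2 q k) = ∞
  · rw [ht, ENNReal.mul_top (by simpa using hC0)]
    exact le_top
  have hfin : ∀ k, a k ≠ ∞ := by
    intro k hk
    apply ht
    rw [eq_top_iff]
    refine le_trans ?_ (ENNReal.le_tsum k)
    rw [hk]
    refine le_trans ?_ le_self_add
    rw [ENNReal.top_pow (by norm_num), ENNReal.top_mul (hw4 k)]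
  have hF : ∀ F : Finset ℤ, (∑ k ∈ F, a k) ^ q ≤ ENNReal.ofReal C * ∑' k, (a k ^ 4 * w4 q k +
      a k ^ 2 * w2 q k) := by
    intro F
    set b : ℤ → ℝ := fun k => (a k).toReal with hb
    have hab : ∀ k, a k = ENNReal.ofReal (b k) := fun k => (ENNReal.ofReal_toReal (hfin k)).symm
    have hb0 : ∀ k, 0 ≤ b k := fun k => ENNReal.toReal_nonneg
    have h1 := hC F b hb0
    calc (∑ k ∈ F, a k) ^ q = ENNReal.ofReal ((∑ k ∈ F, b k) ^ q) := by
          rw [← ENNReal.ofReal_rpow_of_nonneg (Finset.sum_nonneg fun k _ => hb0 k) (by linarith),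
            ENNReal.ofReal_sum_of_nonneg (fun k _ => hb0 k)]
          congr 1
          exact Finset.sum_congr rfl fun k _ => hab k
      _ ≤ ENNReal.ofReal (C * ∑ k ∈ F, (b k ^ 4 * (2 : ℝ) ^ ((k : ℝ) * (q - 4)) +
            b k ^ 2 * (2 : ℝ) ^ ((k : ℝ) * (q - 2)))) := ENNReal.ofReal_le_ofReal h1
      _ = ENNReal.ofReal C * ∑ k ∈ F, (a k ^ 4 * w4 q k + a k ^ 2 * w2 q k) := by
          rw [ENNReal.ofReal_mul hC0.le, ENNReal.ofReal_sum_of_nonneg (fun k _ => by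
            have := hb0 k
            positivity)]
          congr 1
          refine Finset.sum_congr rfl fun k _ => ?_
          have := hb0 k
          rw [ENNReal.ofReal_add (by positivity) (by positivity), ENNReal.ofReal_mul (by positivity),
            ENNReal.ofReal_mul (by positivity), ENNReal.ofReal_pow this, ENNReal.ofReal_pow this,
            ← hab]
          rfl
      _ ≤ _ := mul_le_mul' le_rfl (ENNReal.sum_le_tsum F)
  have h2 : ∑' k, a k ≤ (ENNReal.ofReal C * ∑' k, (a k ^ 4 * w4 q k + a k ^ 2 * w2 q k)) ^ (1 / q) := by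
    rw [ENNReal.tsum_eq_iSup_sum]
    refine iSup_le fun F => ?_
    have h3 := ENNReal.rpow_le_rpow (hF F) (z := 1 / q) (by positivity)
    rwa [← ENNReal.rpow_mul, mul_one_div_cancel (by linarith), ENNReal.rpow_one] at h3
  have h4 := ENNReal.rpow_le_rpow h2 (z := q) (by linarith)
  rwa [← ENNReal.rpow_mul, one_div_mul_cancel (by linarith), ENNReal.rpow_one] at h4

end Pool.Agent.H243.RP
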