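import Mathlib
import Pool.Agent.H243.RP.Q9
set_option autoImplicit false

/-! Interpolation of sublinear operators between `L²` and `L⁴`. -/

open MeasureTheory Set
open scoped ENNReal

namespace Pool.Agent.H243.RP

/-- the set where `2^k < ‖g‖ ≤ 2^(k+1)` -/
def lset {X : Type*} (g : X → ℂ) (k : ℤ) : Set X := {x | (2 : ℝ) ^ k < ‖g x‖ ∧ ‖g x‖ ≤ (2 : ℝ) ^ (k + 1)}

/-- the part of `g` of size between `2^k` and `2^(k+1)` -/
noncomputable def lev {X : Type*} (g : X → ℂ) (k : ℤ) : X → ℂ := (lset g k).indicator g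

theorem lset_meas {X : Type*} [MeasurableSpace X] {g : X → ℂ} (hg : Measurable g) (k : ℤ) :
    MeasurableSet (lset g k) :=
  (measurableSet_lt measurable_const hg.norm).inter (measurableSet_le hg.norm measurable_const)

theorem lev_meas {X : Type*} [MeasurableSpace X] {g : X → ℂ} (hg : Measurable g) (k : ℤ) :
    Measurable (lev g k) := hg.indicator (lset_meas hg k)

theorem lset_disj {X : Type*} (g : X → ℂ) : Pairwise (Function.onFun Disjoint (lset g)) := by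
  have key : ∀ k l : ℤ, k < l → Disjoint (lset g k) (lset g l) := by
    intro k l hkl
    rw [Set.disjoint_left]
    rintro x ⟨_, h1⟩ ⟨h2, _⟩
    have h3 : (2 : ℝ) ^ (k + 1) ≤ (2 : ℝ) ^ l := zpow_le_zpow_right₀ (by norm_num) (by omega)
    linarith
  intro k l hkl
  rcases lt_or_gt_of_ne hkl with h | h
  · exact key k l h
  · exact (key l k h).symm

theorem lev_bdd {X : Type*} (g : X → ℂ) (k : ℤ) (x : X) : ‖lev g k x‖ ≤ (2 : ℝ) ^ (k + 1) := by
  unfold lev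
  by_cases hx : x ∈ lset g k
  · rw [indicator_of_mem hx]
    exact hx.2
  · rw [indicator_of_notMem hx, norm_zero]
    positivity

theorem lset_union {X : Type*} (g : X → ℂ) (x : X) (hx : x ∉ ⋃ k, lset g k) : g x = 0 := by
  by_contra h
  apply hx
  have h0 : 0 < ‖g x‖ := norm_pos_iff.2 h
  obtain ⟨n, hn⟩ := exists_mem_Ioc_zpow h0 (by norm_num : (1 : ℝ) < 2)
  exact mem_iUnion.2 ⟨n, hn.1, hn.2⟩

/-- subadditivity of linear integral operators -/
theorem split_le {X : Type*} [MeasurableSpace X] (μ : Measure X) {g : X → ℂ} (hg : Measurable g)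
    (e : X → ℂ) : ‖∫ x, e x * g x ∂μ‖ₑ ≤ ∑' k, ‖∫ x, e x * lev g k x ∂μ‖ₑ := by
  by_cases hi : Integrable (fun x => e x * g x) μ
  swap
  · rw [integral_undef hi, enorm_zero]
    exact bot_le
  have hm : ∀ k, MeasurableSet (lset g k) := lset_meas hg
  have hU : MeasurableSet (⋃ k, lset g k) := MeasurableSet.iUnion hm
  have h1 : ∫ x, e x * g x ∂μ = ∫ x in ⋃ k, lset g k, e x * g x ∂μ := by
    rw [← integral_indicator hU]
    congr 1
    funext x
    by_cases hx : x ∈ ⋃ k, lset g k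
    · rw [indicator_of_mem hx]
    · rw [indicator_of_notMem hx, lset_union g x hx, mul_zero]
  have h2 := hasSum_integral_iUnion hm (lset_disj g) hi.integrableOn
  have h3 : ∀ k, ∫ x in lset g k, e x * g x ∂μ = ∫ x, e x * lev g k x ∂μ := by
    intro k
    rw [← integral_indicator (hm k)]
    congr 1
    funext x
    unfold lev
    by_cases hx : x ∈ lset g k
    · rw [indicator_of_mem hx, indicator_of_mem hx]
    · rw [indicator_of_notMem hx, indicator_of_notMem hx, mul_zero]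
  rw [h1, ← h2.tsum_eq]
  refine (enorm_tsum_le_tsum_enorm).trans (le_of_eq ?_)
  simp_rw [h3]

theorem lev_four (q : ℝ) (hq2 : 2 < q) (hq4 : q < 4) {X : Type*} (g : X → ℂ) (k : ℤ) (x : X) :
    w4 q k * ‖lev g k x‖ₑ ^ 4 ≤ 16 * (lset g k).indicator (fun x => ‖g x‖ₑ ^ q) x := by
  unfold lev
  by_cases hx : x ∈ lset g k
  · rw [indicator_of_mem hx, indicator_of_mem hx]
    obtain ⟨h1, h2⟩ := hx
    have h0 : 0 < ‖g x‖ := lt_trans (by positivity) h1
    unfold w4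
    rw [← ofReal_norm, ENNReal.ofReal_rpow_of_pos h0, ← ENNReal.ofReal_pow h0.le,
      ← ENNReal.ofReal_mul (by positivity)]
    have e4 : (16 : ℝ≥0∞) = ENNReal.ofReal 16 := by simp
    rw [e4, ← ENNReal.ofReal_mul (by norm_num)]
    apply ENNReal.ofReal_le_ofReal
    have h3 : ‖g x‖ ^ (4 : ℕ) = ‖g x‖ ^ q * ‖g x‖ ^ (4 - q) := by
      rw [← Real.rpow_add h0, ← Real.rpow_natCast]
      congr 1
      push_cast
      ring
    have h4 : ‖g x‖ ^ (4 - q) ≤ (2 : ℝ) ^ (((k : ℝ) + 1) * (4 - q)) := by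
      have h5 : ‖g x‖ ≤ (2 : ℝ) ^ ((k : ℝ) + 1) := by
        have : (2 : ℝ) ^ ((k : ℝ) + 1) = (2 : ℝ) ^ (k + 1) := by
          rw [← Real.rpow_intCast]
          push_cast
          rfl
        rw [this]
        exact h2
      calc ‖g x‖ ^ (4 - q) ≤ ((2 : ℝ) ^ ((k : ℝ) + 1)) ^ (4 - q) :=
            Real.rpow_le_rpow h0.le h5 (by linarith)
        _ = _ := by rw [← Real.rpow_mul (by norm_num)]
    rw [h3]
    have h6 : (2 : ℝ) ^ ((k : ℝ) * (q - 4)) * (2 : ℝ) ^ (((k : ℝ) + 1) * (4 - q)) = (2 : ℝ) ^ (4 - q) := by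
      rw [← Real.rpow_add (by norm_num)]
      congr 1
      ring
    have h7 : (2 : ℝ) ^ (4 - q) ≤ 16 := by
      calc (2 : ℝ) ^ (4 - q) ≤ (2 : ℝ) ^ (4 : ℝ) :=
            Real.rpow_le_rpow_of_exponent_le (by norm_num) (by linarith)
        _ = 16 := by norm_num
    calc (2 : ℝ) ^ ((k : ℝ) * (q - 4)) * (‖g x‖ ^ q * ‖g x‖ ^ (4 - q))
        = ‖g x‖ ^ q * ((2 : ℝ) ^ ((k : ℝ) * (q - 4)) * ‖g x‖ ^ (4 - q)) := by ring
      _ ≤ ‖g x‖ ^ q * ((2 : ℝ) ^ ((k : ℝ) * (q - 4)) * (2 : ℝ) ^ (((k : ℝ) + 1) * (4 - q))) := by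
          gcongr
      _ = ‖g x‖ ^ q * (2 : ℝ) ^ (4 - q) := by rw [h6]
      _ ≤ ‖g x‖ ^ q * 16 := by gcongr
      _ = _ := by ring
  · rw [indicator_of_notMem hx, enorm_zero]
    simp

theorem lev_two (q : ℝ) (hq2 : 2 < q) {X : Type*} (g : X → ℂ) (k : ℤ) (x : X) :
    w2 q k * ‖lev g k x‖ₑ ^ 2 ≤ (lset g k).indicator (fun x => ‖g x‖ₑ ^ q) x := by
  unfold lev
  by_cases hx : x ∈ lset g k
  · rw [indicator_of_mem hx, indicator_of_mem hx]
    obtain ⟨h1, h2⟩ := hx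
    have h0 : 0 < ‖g x‖ := lt_trans (by positivity) h1
    unfold w2
    rw [← ofReal_norm, ENNReal.ofReal_rpow_of_pos h0, ← ENNReal.ofReal_pow h0.le,
      ← ENNReal.ofReal_mul (by positivity)]
    apply ENNReal.ofReal_le_ofReal
    have h3 : ‖g x‖ ^ q = ‖g x‖ ^ (2 : ℕ) * ‖g x‖ ^ (q - 2) := by
      rw [← Real.rpow_natCast, ← Real.rpow_add h0]
      congr 1
      push_cast
      ring
    have h4 : (2 : ℝ) ^ ((k : ℝ) * (q - 2)) ≤ ‖g x‖ ^ (q - 2) := by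
      have h5 : (2 : ℝ) ^ (k : ℝ) ≤ ‖g x‖ := by
        rw [Real.rpow_intCast]
        exact h1.le
      calc (2 : ℝ) ^ ((k : ℝ) * (q - 2)) = ((2 : ℝ) ^ (k : ℝ)) ^ (q - 2) := by
            rw [← Real.rpow_mul (by norm_num)]
        _ ≤ _ := Real.rpow_le_rpow (by positivity) h5 (by linarith)
    rw [h3, mul_comm]
    gcongr
  · rw [indicator_of_notMem hx, enorm_zero]
    simp

theorem lset_tsum_le {X : Type*} [MeasurableSpace X] (μ : Measure X) {g : X → ℂ} (hg : Measurable g)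
    (q : ℝ) : ∑' k, ∫⁻ x, (lset g k).indicator (fun x => ‖g x‖ₑ ^ q) x ∂μ ≤ ∫⁻ x, ‖g x‖ₑ ^ q ∂μ := by
  have h1 : ∀ k, ∫⁻ x, (lset g k).indicator (fun x => ‖g x‖ₑ ^ q) x ∂μ =
      ∫⁻ x in lset g k, ‖g x‖ₑ ^ q ∂μ := fun k => lintegral_indicator (lset_meas hg k) _
  simp_rw [h1]
  rw [← lintegral_iUnion (lset_meas hg) (lset_disj g)]
  exact setLIntegral_le_lintegral _ _

/-- **Interpolation between `L²` and `L⁴`.** -/
theorem interp_op (q : ℝ) (hq2 : 2 < q) (hq4 : q < 4) : ∃ C : ℝ, 0 < C ∧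
    ∀ (X Y : Type) [MeasurableSpace X] [MeasurableSpace Y] (μ : Measure X) (τ : Measure Y)
    (T : (X → ℂ) → Y → ℝ≥0∞) (A2 A4 lam : ℝ), 0 ≤ A2 → 0 ≤ A4 → 0 < lam →
    (∀ g, Measurable g → Measurable (T g)) →
    (∀ g, Measurable g → ∀ y, T g y ≤ ∑' k, T (lev g k) y) →
    (∀ g, Measurable g → (∃ B : ℝ, ∀ x, ‖g x‖ ≤ B) →
      ∫⁻ y, T g y ^ 2 ∂τ ≤ ENNReal.ofReal A2 * ∫⁻ x, ‖g x‖ₑ ^ 2 ∂μ) →
    (∀ g, Measurable g → (∃ B : ℝ, ∀ x, ‖g x‖ ≤ B) →
      ∫⁻ y, T g y ^ 4 ∂τ ≤ ENNReal.ofReal A4 * ∫⁻ x, ‖g x‖ₑ ^ 4 ∂μ) →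
    ∀ g, Measurable g → ∫⁻ y, T g y ^ q ∂τ ≤
      ENNReal.ofReal (C * (lam ^ (q - 4) * A4 + lam ^ (q - 2) * A2)) * ∫⁻ x, ‖g x‖ₑ ^ q ∂μ := by
  obtain ⟨C, hC0, hC⟩ := interp_enn q hq2 hq4
  refine ⟨16 * C, by positivity, ?_⟩
  intro X Y _ _ μ τ T A2 A4 lam hA2 hA4 hlam hTm hsub h2 h4 g hg
  set l : ℝ≥0∞ := ENNReal.ofReal lam⁻¹ with hl
  have hl0 : l ≠ 0 := by
    rw [hl, Ne, ENNReal.ofReal_eq_zero, not_le]
    positivity
  have hlt : l ≠ ∞ := ENNReal.ofReal_ne_top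
  set S : ℝ≥0∞ := ∫⁻ x, ‖g x‖ₑ ^ q ∂μ with hS
  set a : ℤ → Y → ℝ≥0∞ := fun k y => T (lev g k) y with ha
  have ham : ∀ k, Measurable (a k) := fun k => hTm _ (lev_meas hg k)
  -- pointwise
  have p1 : ∀ y, T g y ^ q ≤ ENNReal.ofReal C * ∑' k,
      (ENNReal.ofReal (lam ^ (q - 4)) * (w4 q k * a k y ^ 4) +
       ENNReal.ofReal (lam ^ (q - 2)) * (w2 q k * a k y ^ 2)) := by
    intro y
    have e1 : T g y ≤ ENNReal.ofReal lam * ∑' k, l * a k y := by
      rw [ENNReal.tsum_mul_left, ← mul_assoc, hl, ← ENNReal.ofReal_mul hlam.le,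
        mul_inv_cancel₀ hlam.ne', ENNReal.ofReal_one, one_mul]
      exact hsub g hg y
    have e2 := hC (fun k => l * a k y)
    calc T g y ^ q ≤ (ENNReal.ofReal lam * ∑' k, l * a k y) ^ q :=
          ENNReal.rpow_le_rpow e1 (by linarith)
      _ = ENNReal.ofReal (lam ^ q) * (∑' k, l * a k y) ^ q := by
          rw [ENNReal.mul_rpow_of_nonneg _ _ (by linarith), ENNReal.ofReal_rpow_of_pos hlam]
      _ ≤ ENNReal.ofReal (lam ^ q) * (ENNReal.ofReal C * ∑' k, ((l * a k y) ^ 4 * w4 q k +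
            (l * a k y) ^ 2 * w2 q k)) := mul_le_mul' le_rfl e2
      _ = ENNReal.ofReal C * ∑' k, (ENNReal.ofReal (lam ^ q) * ((l * a k y) ^ 4 * w4 q k +
            (l * a k y) ^ 2 * w2 q k)) := by
          rw [ENNReal.tsum_mul_left]
          ring
      _ = _ := by
          congr 2
          funext k
          have f4 : ENNReal.ofReal (lam ^ q) * l ^ 4 = ENNReal.ofReal (lam ^ (q - 4)) := by
            rw [hl, ← ENNReal.ofReal_pow (by positivity), ← ENNReal.ofReal_mul (by positivity)]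
            congr 1
            rw [Real.rpow_sub hlam, show (4 : ℝ) = ((4 : ℕ) : ℝ) by norm_num, Real.rpow_natCast]
            field_simp
          have f2 : ENNReal.ofReal (lam ^ q) * l ^ 2 = ENNReal.ofReal (lam ^ (q - 2)) := by
            rw [hl, ← ENNReal.ofReal_pow (by positivity), ← ENNReal.ofReal_mul (by positivity)]
            congr 1
            rw [Real.rpow_sub hlam, show (2 : ℝ) = ((2 : ℕ) : ℝ) by norm_num, Real.rpow_natCast]
            field_simp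
          rw [← f4, ← f2]
          ring
  have m4 : ∀ k, Measurable fun y => w4 q k * a k y ^ 4 := fun k => ((ham k).pow_const 4).const_mul _
  have m2 : ∀ k, Measurable fun y => w2 q k * a k y ^ 2 := fun k => ((ham k).pow_const 2).const_mul _
  have hb : ∀ k, ∃ B : ℝ, ∀ x, ‖lev g k x‖ ≤ B := fun k => ⟨_, lev_bdd g k⟩
  have i4 : ∀ k, ∫⁻ y, w4 q k * a k y ^ 4 ∂τ ≤ ENNReal.ofReal A4 *
      (16 * ∫⁻ x, (lset g k).indicator (fun x => ‖g x‖ₑ ^ q) x ∂μ) := by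
    intro k
    have hw : w4 q k ≠ ∞ := ENNReal.ofReal_ne_top
    rw [lintegral_const_mul' _ _ hw]
    calc w4 q k * ∫⁻ y, a k y ^ 4 ∂τ ≤ w4 q k * (ENNReal.ofReal A4 * ∫⁻ x, ‖lev g k x‖ₑ ^ 4 ∂μ) :=
          mul_le_mul' le_rfl (h4 _ (lev_meas hg k) (hb k))
      _ = ENNReal.ofReal A4 * ∫⁻ x, w4 q k * ‖lev g k x‖ₑ ^ 4 ∂μ := by
          rw [lintegral_const_mul' _ _ hw]
          ring
      _ ≤ ENNReal.ofReal A4 * ∫⁻ x, 16 * (lset g k).indicator (fun x => ‖g x‖ₑ ^ q) x ∂μ := by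
          refine mul_le_mul' le_rfl (lintegral_mono fun x => lev_four q hq2 hq4 g k x)
      _ = _ := by rw [lintegral_const_mul' _ _ (by norm_num)]
  have i2 : ∀ k, ∫⁻ y, w2 q k * a k y ^ 2 ∂τ ≤ ENNReal.ofReal A2 *
      ∫⁻ x, (lset g k).indicator (fun x => ‖g x‖ₑ ^ q) x ∂μ := by
    intro k
    have hw : w2 q k ≠ ∞ := ENNReal.ofReal_ne_top
    rw [lintegral_const_mul' _ _ hw]
    calc w2 q k * ∫⁻ y, a k y ^ 2 ∂τ ≤ w2 q k * (ENNReal.ofReal A2 * ∫⁻ x, ‖lev g k x‖ₑ ^ 2 ∂μ) :=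
          mul_le_mul' le_rfl (h2 _ (lev_meas hg k) (hb k))
      _ = ENNReal.ofReal A2 * ∫⁻ x, w2 q k * ‖lev g k x‖ₑ ^ 2 ∂μ := by
          rw [lintegral_const_mul' _ _ hw]
          ring
      _ ≤ _ := by
          refine mul_le_mul' le_rfl (lintegral_mono fun x => lev_two q hq2 g k x)
  have hts := lset_tsum_le μ hg q
  calc ∫⁻ y, T g y ^ q ∂τ ≤ ∫⁻ y, ENNReal.ofReal C * ∑' k,
      (ENNReal.ofReal (lam ^ (q - 4)) * (w4 q k * a k y ^ 4) +
       ENNReal.ofReal (lam ^ (q - 2)) * (w2 q k * a k y ^ 2)) ∂τ := lintegral_mono p1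
    _ = ENNReal.ofReal C * ∑' k, (ENNReal.ofReal (lam ^ (q - 4)) * ∫⁻ y, w4 q k * a k y ^ 4 ∂τ +
       ENNReal.ofReal (lam ^ (q - 2)) * ∫⁻ y, w2 q k * a k y ^ 2 ∂τ) := by
        rw [lintegral_const_mul' _ _ ENNReal.ofReal_ne_top, lintegral_tsum]
        · congr 2
          funext k
          rw [lintegral_add_left ((m4 k).const_mul _), lintegral_const_mul _ (m4 k),
            lintegral_const_mul _ (m2 k)]
        · intro k
          exact (((m4 k).const_mul _).add ((m2 k).const_mul _)).aemeasurable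
    _ ≤ ENNReal.ofReal C * ∑' k, (ENNReal.ofReal (lam ^ (q - 4)) * (ENNReal.ofReal A4 *
          (16 * ∫⁻ x, (lset g k).indicator (fun x => ‖g x‖ₑ ^ q) x ∂μ)) +
       ENNReal.ofReal (lam ^ (q - 2)) * (ENNReal.ofReal A2 *
          ∫⁻ x, (lset g k).indicator (fun x => ‖g x‖ₑ ^ q) x ∂μ)) := by
        refine mul_le_mul' le_rfl (ENNReal.tsum_le_tsum fun k => ?_)
        exact add_le_add (mul_le_mul' le_rfl (i4 k)) (mul_le_mul' le_rfl (i2 k))
    _ = (ENNReal.ofReal C * (ENNReal.ofReal (lam ^ (q - 4)) * ENNReal.ofReal A4 * 16 +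
          ENNReal.ofReal (lam ^ (q - 2)) * ENNReal.ofReal A2)) *
          ∑' k, ∫⁻ x, (lset g k).indicator (fun x => ‖g x‖ₑ ^ q) x ∂μ := by
        rw [← ENNReal.tsum_mul_left, ← ENNReal.tsum_mul_left]
        congr 1
        funext k
        ring
    _ ≤ (ENNReal.ofReal C * (ENNReal.ofReal (lam ^ (q - 4)) * ENNReal.ofReal A4 * 16 +
          ENNReal.ofReal (lam ^ (q - 2)) * ENNReal.ofReal A2)) * S := mul_le_mul' le_rfl hts
    _ ≤ _ := by
        refine mul_le_mul' ?_ le_rfl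
        have e16 : (16 : ℝ≥0∞) = ENNReal.ofReal 16 := by simp
        rw [e16, ← ENNReal.ofReal_mul (by positivity), ← ENNReal.ofReal_mul (by positivity),
          ← ENNReal.ofReal_mul (by positivity), ← ENNReal.ofReal_add (by positivity) (by positivity),
          ← ENNReal.ofReal_mul hC0.le]
        apply ENNReal.ofReal_le_ofReal
        have h5 : 0 ≤ lam ^ (q - 2) * A2 := by positivity
        nlinarith

end Pool.Agent.H243.RP
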