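import Mathlib
set_option autoImplicit false

/-! Elementary inequalities for `√(t - β)`. -/

namespace Pool.Agent.H243.RP

theorem fourpt_lower (x1 y1 x2 y2 β f1 g1 f2 g2 F : ℝ)
    (h1 : f1 ^ 2 = x1 - β) (h2 : g1 ^ 2 = y1 - β) (h3 : f2 ^ 2 = x2 - β)
    (h4 : g2 ^ 2 = y2 - β) (hf1 : 0 < f1) (hg1 : 0 < g1) (hf2 : 0 < f2) (hg2 : 0 < g2)
    (hs : x1 + y1 = x2 + y2) (hd : 0 ≤ (y2 - x2) ^ 2 - (y1 - x1) ^ 2) (hF1 : f1 ≤ F)
    (hF2 : f2 ≤ F) (hF3 : g1 ≤ F) (hF4 : g2 ≤ F) :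
    ((y2 - x2) ^ 2 - (y1 - x1) ^ 2) / (32 * F ^ 3) ≤ f1 + g1 - f2 - g2 := by
  have hF : 0 < F := lt_of_lt_of_le hf1 hF1
  have hsum : f1 ^ 2 + g1 ^ 2 = f2 ^ 2 + g2 ^ 2 := by rw [h1, h2, h3, h4]; linarith
  have hprod : (f1 * g1) ^ 2 - (f2 * g2) ^ 2 = ((y2 - x2) ^ 2 - (y1 - x1) ^ 2) / 4 := by
    rw [mul_pow, mul_pow, h1, h2, h3, h4]
    have : y2 = x1 + y1 - x2 := by linarith
    rw [this]
    ring
  have hp1 : f1 * g1 ≤ F ^ 2 := by nlinarith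
  have hp2 : f2 * g2 ≤ F ^ 2 := by nlinarith
  have hp10 : 0 < f1 * g1 := by positivity
  have hp20 : 0 < f2 * g2 := by positivity
  set P := f1 * g1 with hP
  set Q := f2 * g2 with hQ
  have e1 : P - Q = ((y2 - x2) ^ 2 - (y1 - x1) ^ 2) / 4 / (P + Q) := by
    rw [eq_div_iff (by positivity), ← hprod]
    ring
  have e2 : f1 + g1 - f2 - g2 = 2 * (P - Q) / (f1 + g1 + f2 + g2) := by
    rw [eq_div_iff (by positivity), hP, hQ]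
    nlinarith
  rw [e2, e1]
  set D := (y2 - x2) ^ 2 - (y1 - x1) ^ 2 with hD
  have e3 : 2 * (D / 4 / (P + Q)) / (f1 + g1 + f2 + g2) = D / (2 * (P + Q) * (f1 + g1 + f2 + g2)) := by
    field_simp
    ring
  rw [e3]
  apply div_le_div_of_nonneg_left hd (by positivity)
  calc 2 * (P + Q) * (f1 + g1 + f2 + g2) ≤ 2 * (F ^ 2 + F ^ 2) * (F + F + F + F) := by gcongr
    _ = 16 * F ^ 3 := by ring
    _ ≤ _ := by
      have : 0 < F ^ 3 := by positivity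
      linarith

theorem fourpt_conv (x1 y1 x2 y2 β f1 g1 f2 g2 : ℝ)
    (h1 : f1 ^ 2 = x1 - β) (h2 : g1 ^ 2 = y1 - β) (h3 : f2 ^ 2 = x2 - β)
    (h4 : g2 ^ 2 = y2 - β) (hf1 : 0 < f1) (hg1 : 0 < g1) (hf2 : 0 < f2) (hg2 : 0 < g2)
    (hs : x1 + y1 = x2 + y2) (hd : 0 ≤ (y2 - x2) ^ 2 - (y1 - x1) ^ 2) :
    1 / f1 + 1 / g1 ≤ 1 / f2 + 1 / g2 := by
  have hsum : f1 ^ 2 + g1 ^ 2 = f2 ^ 2 + g2 ^ 2 := by rw [h1, h2, h3, h4]; linarith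
  have hprod : (f1 * g1) ^ 2 - (f2 * g2) ^ 2 = ((y2 - x2) ^ 2 - (y1 - x1) ^ 2) / 4 := by
    rw [mul_pow, mul_pow, h1, h2, h3, h4]
    have : y2 = x1 + y1 - x2 := by linarith
    rw [this]
    ring
  have hp10 : 0 < f1 * g1 := by positivity
  have hp20 : 0 < f2 * g2 := by positivity
  have hPQ : f2 * g2 ≤ f1 * g1 := by
    apply (pow_le_pow_iff_left₀ hp20.le hp10.le (n := 2) (by norm_num)).1
    linarith
  have e1 : ∀ f g : ℝ, 0 < f → 0 < g → (1 / f + 1 / g) ^ 2 = (f ^ 2 + g ^ 2) / (f * g) ^ 2 + 2 / (f * g) := by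
    intro f g hf hg
    field_simp
    ring
  apply (pow_le_pow_iff_left₀ (by positivity) (by positivity) (n := 2) (by norm_num)).1
  rw [e1 f1 g1 hf1 hg1, e1 f2 g2 hf2 hg2, hsum]
  have hnn : 0 ≤ f2 ^ 2 + g2 ^ 2 := by positivity
  apply add_le_add
  · apply div_le_div_of_nonneg_left hnn (by positivity)
    exact pow_le_pow_left₀ hp20.le hPQ 2
  · exact div_le_div_of_nonneg_left (by norm_num) hp20 hPQ

end Pool.Agent.H243.RP
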