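import Mathlib
import Pool.Agent.H243.RA.C3
import Pool.Agent.H243.RP.Q1
set_option autoImplicit false

/-! The kernel bound for the paraboloid. -/

open MeasureTheory Set
open scoped ENNReal

namespace Pool.Agent.H243.RP

open Pool.Agent.H243.RA (BD rr ss ss_one rr_four rr_nonneg rr_pos sq_lt cz cz_bound PH PH_cz BV1 BV_rr
  freq_deriv vdc)

section
variable {ν C : ℝ} {j k : ℝ → ℝ}

/-- abbreviation: `√t` -/
noncomputable def qs (t : ℝ) : ℝ := Real.sqrt t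

theorem freq_sq (hν : 0 ≤ ν) {t x : ℝ} (hx0 : 0 < x) (ht : 0 ≤ t) (hx : ν < x * qs t) :
    (rr ν (x * qs t) ^ 2 / x) ^ 2 = t - ν ^ 2 / x ^ 2 := by
  have h4 := rr_four ν (x * qs t) (sq_lt hν hx).le
  have hs : qs t ^ 2 = t := Real.sq_sqrt ht
  rw [div_pow, ← pow_mul, h4, mul_pow, hs]
  field_simp

/-- the product over the four points -/
noncomputable def amp (ν x1 y1 x2 y2 x : ℝ) : ℝ :=
  (rr ν (x * qs x1))⁻¹ * (rr ν (x * qs y1))⁻¹ * ((rr ν (x * qs x2))⁻¹ * (rr ν (x * qs y2))⁻¹)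

noncomputable def pha (ν : ℝ) (j k : ℝ → ℝ) (x1 y1 x2 y2 x : ℝ) : ℂ :=
  (cz ν j k (x * qs x1) * cz ν j k (x * qs y1)) *
    ((starRingEnd ℂ) (cz ν j k (x * qs x2)) * (starRingEnd ℂ) (cz ν j k (x * qs y2)))

theorem kernel (h : BD ν C j k) {x1 y1 x2 y2 α β Λ ω : ℝ} (hx2 : 0 < x2) (hxx : x2 < x1)
    (hxy : x1 ≤ y1) (hy2 : y2 < 1) (hsum : x1 + y1 = x2 + y2) (hΛ : 0 < Λ) (hΛα : Λ ≤ α)
    (hαβ : α ≤ β) (hω : ss ν ≤ ω)
    (hw : ∀ x ∈ Icc α β, ∀ t ∈ ({x1, y1, x2, y2} : Set ℝ),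
      ω ^ 4 ≤ (x * qs t) ^ 2 - ν ^ 2 ∧ (x * qs t) ^ 2 - ν ^ 2 ≤ 2 * ω ^ 4) :
    ‖∫ x in α..β, (amp ν x1 y1 x2 y2 x : ℂ) * pha ν j k x1 y1 x2 y2 x‖ ≤
      192 * (8 * C) ^ 2 / ω ^ 4 * (32 * (Real.sqrt 2 * ω ^ 2 / Λ) ^ 3 /
        ((y2 - x2) ^ 2 - (y1 - x1) ^ 2)) := by
  have hν := h.nn
  have hC := h.C_nonneg
  have hs1 := ss_one ν
  have hω1 : 1 ≤ ω := hs1.trans hω
  have hω0 : 0 < ω := by linarith
  have hα0 : 0 < α := lt_of_lt_of_le hΛ hΛα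
  have hyy : y1 < y2 := by linarith
  have hx0 : ∀ x ∈ Icc α β, 0 < x := fun x hx => lt_of_lt_of_le hα0 hx.1
  -- t in [0,1)
  have ht : ∀ t ∈ ({x1, y1, x2, y2} : Set ℝ), 0 < t ∧ t < 1 := by
    intro t ht
    simp only [mem_insert_iff, mem_singleton_iff] at ht
    rcases ht with rfl | rfl | rfl | rfl <;> constructor <;> linarith
  have hcs : ∀ t ∈ ({x1, y1, x2, y2} : Set ℝ), 0 < qs t := by
    intro t ht'
    obtain ⟨h0, h1⟩ := ht t ht'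
    exact Real.sqrt_pos.2 h0
  have hlt : ∀ x ∈ Icc α β, ∀ t ∈ ({x1, y1, x2, y2} : Set ℝ), ν < x * qs t := by
    intro x hx t ht'
    have h1 := (hw x hx t ht').1
    have h2 : 0 < x * qs t := mul_pos (hx0 x hx) (hcs t ht')
    have h3 : 0 < ω ^ 4 := by positivity
    apply lt_of_pow_lt_pow_left₀ 2 h2.le
    linarith
  have hrr : ∀ x ∈ Icc α β, ∀ t ∈ ({x1, y1, x2, y2} : Set ℝ), ω ≤ rr ν (x * qs t) := by
    intro x hx t ht'
    have h4 := rr_four ν (x * qs t) (sq_lt hν (hlt x hx t ht')).le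
    have h5 := rr_nonneg ν (x * qs t) (sq_lt hν (hlt x hx t ht')).le
    apply (pow_le_pow_iff_left₀ hω0.le h5 (n := 4) (by norm_num)).1
    rw [h4]
    exact (hw x hx t ht').1
  set F : ℝ := Real.sqrt 2 * ω ^ 2 / Λ with hF
  have hF0 : 0 < F := by rw [hF]; positivity
  have hFle : ∀ x ∈ Icc α β, ∀ t ∈ ({x1, y1, x2, y2} : Set ℝ), rr ν (x * qs t) ^ 2 / x ≤ F := by
    intro x hx t ht'
    have h4 := rr_four ν (x * qs t) (sq_lt hν (hlt x hx t ht')).le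
    rw [hF]
    apply div_le_div₀ (by positivity) _ hΛ (hΛα.trans hx.1)
    apply (pow_le_pow_iff_left₀ (by positivity) (by positivity) (n := 2) (by norm_num)).1
    have e : (Real.sqrt 2 * ω ^ 2) ^ 2 = 2 * ω ^ 4 := by
      rw [mul_pow, Real.sq_sqrt (by norm_num), ← pow_mul]
    rw [← pow_mul, h4, e]
    exact (hw x hx t ht').2
  have m1 : x1 ∈ ({x1, y1, x2, y2} : Set ℝ) := by simp
  have m2 : y1 ∈ ({x1, y1, x2, y2} : Set ℝ) := by simp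
  have m3 : x2 ∈ ({x1, y1, x2, y2} : Set ℝ) := by simp
  have m4 : y2 ∈ ({x1, y1, x2, y2} : Set ℝ) := by simp
  -- amplitude
  have ba : BV1 (amp ν x1 y1 x2 y2) α β ((2 * ω⁻¹) * (2 * ω⁻¹) * ((2 * ω⁻¹) * (2 * ω⁻¹))) := by
    have b : ∀ t ∈ ({x1, y1, x2, y2} : Set ℝ), BV1 (fun x => (rr ν (x * qs t))⁻¹) α β (2 * ω⁻¹) :=
      fun t ht' => BV_rr hν (hcs t ht') hαβ (hlt α (left_mem_Icc.2 hαβ) t ht') hω0
        (fun x hx => hrr x hx t ht')
    exact ((b x1 m1).mul hαβ (b y1 m2)).mul hαβ ((b x2 m3).mul hαβ (b y2 m4))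
  -- phase
  set M : ℝ := Real.sqrt (8 * C) with hM
  have hM0 : 0 ≤ M := Real.sqrt_nonneg _
  have hM2 : M ^ 2 = 8 * C := Real.sq_sqrt (by positivity)
  have bp : ∀ t ∈ ({x1, y1, x2, y2} : Set ℝ), PH (fun x => cz ν j k (x * qs t))
      (fun x => rr ν (x * qs t) ^ 2 / x) α β M M := fun t ht' =>
    PH_cz h (hcs t ht') hαβ (hlt α (left_mem_Icc.2 hαβ) t ht')
      (fun x hx => hω.trans (hrr x hx t ht')) hα0
  have hph := ((bp x1 m1).mul hαβ hM0 hM0 (bp y1 m2)).mul hαβ (mul_nonneg hM0 hM0)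
    (mul_nonneg hM0 hM0) (((bp x2 m3).conj).mul hαβ hM0 hM0 ((bp y2 m4).conj))
  -- the difference of the frequencies
  set fr : ℝ → ℝ → ℝ := fun t x => rr ν (x * qs t) ^ 2 / x with hfr
  have hfpos : ∀ x ∈ Icc α β, ∀ t ∈ ({x1, y1, x2, y2} : Set ℝ), 0 < fr t x := by
    intro x hx t ht'
    have h1 := hrr x hx t ht'
    have h2 := hx0 x hx
    have h3 : 0 < rr ν (x * qs t) := by linarith
    simp only [hfr]
    positivity
  have hfd : ∀ x ∈ Icc α β, ∀ t ∈ ({x1, y1, x2, y2} : Set ℝ),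
      HasDerivAt (fr t) (ν ^ 2 / x ^ 3 * (1 / fr t x)) x := by
    intro x hx t ht'
    exact freq_deriv hν (hx0 x hx) (hlt x hx t ht')
  have hfs : ∀ x ∈ Icc α β, ∀ t ∈ ({x1, y1, x2, y2} : Set ℝ),
      fr t x ^ 2 = t - ν ^ 2 / x ^ 2 := by
    intro x hx t ht'
    exact freq_sq hν (hx0 x hx) (ht t ht').1.le (hlt x hx t ht')
  set δ : ℝ := ((y2 - x2) ^ 2 - (y1 - x1) ^ 2) / (32 * F ^ 3) with hδ
  have hdiff : 0 < (y2 - x2) ^ 2 - (y1 - x1) ^ 2 := by nlinarith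
  have hδ0 : 0 < δ := by rw [hδ]; positivity
  have hDd : ∀ x ∈ Icc α β, HasDerivAt (fun x => fr x1 x + fr y1 x + (-fr x2 x + -fr y2 x))
      (ν ^ 2 / x ^ 3 * (1 / fr x1 x + 1 / fr y1 x - (1 / fr x2 x + 1 / fr y2 x))) x := by
    intro x hx
    refine HasDerivAt.congr_deriv (((hfd x hx x1 m1).add (hfd x hx y1 m2)).add
      ((hfd x hx x2 m3).neg.add (hfd x hx y2 m4).neg)) ?_
    ring
  have hfc : ∀ t ∈ ({x1, y1, x2, y2} : Set ℝ), ContinuousOn (fr t) (Icc α β) := fun t ht' x hx =>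
    (hfd x hx t ht').continuousAt.continuousWithinAt
  have hv := vdc (a := amp ν x1 y1 x2 y2) (D := fun x => fr x1 x + fr y1 x + (-fr x2 x + -fr y2 x))
    (D' := fun x => ν ^ 2 / x ^ 3 * (1 / fr x1 x + 1 / fr y1 x - (1 / fr x2 x + 1 / fr y2 x)))
    hαβ hδ0 (mul_nonneg (mul_nonneg hM0 hM0) (mul_nonneg hM0 hM0)) (by positivity) ba hDd
    (by
      have i : ∀ t ∈ ({x1, y1, x2, y2} : Set ℝ), ContinuousOn (fun x => 1 / fr t x) (Icc α β) :=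
        fun t ht' => continuousOn_const.div (hfc t ht') fun x hx => (hfpos x hx t ht').ne'
      have i3 : ContinuousOn (fun x : ℝ => ν ^ 2 / x ^ 3) (Icc α β) :=
        continuousOn_const.div (by fun_prop) fun x hx => (pow_pos (hx0 x hx) 3).ne'
      exact i3.mul (((i x1 m1).add (i y1 m2)).sub ((i x2 m3).add (i y2 m4))))
    (by
      intro x hx
      have h1 := fourpt_conv x1 y1 x2 y2 (ν ^ 2 / x ^ 2) (fr x1 x) (fr y1 x) (fr x2 x) (fr y2 x)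
        (hfs x hx x1 m1) (hfs x hx y1 m2) (hfs x hx x2 m3) (hfs x hx y2 m4) (hfpos x hx x1 m1)
        (hfpos x hx y1 m2) (hfpos x hx x2 m3) (hfpos x hx y2 m4) hsum hdiff.le
      have h2 := hx0 x hx
      apply mul_nonpos_of_nonneg_of_nonpos (by positivity)
      linarith)
    (by
      intro x hx
      have h1 := fourpt_lower x1 y1 x2 y2 (ν ^ 2 / x ^ 2) (fr x1 x) (fr y1 x) (fr x2 x)
        (fr y2 x) F
        (hfs x hx x1 m1) (hfs x hx y1 m2) (hfs x hx x2 m3) (hfs x hx y2 m4) (hfpos x hx x1 m1)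
        (hfpos x hx y1 m2) (hfpos x hx x2 m3) (hfpos x hx y2 m4) hsum hdiff.le
        (hFle x hx x1 m1) (hFle x hx x2 m3) (hFle x hx y1 m2) (hFle x hx y2 m4)
      rw [hδ]
      linarith)
    hph
  refine le_trans hv (le_of_eq ?_)
  have e1 : 2 * (M * M * (M * M)) + ((M * M + M * M) * (M * M) + M * M * (M * M + M * M)) =
      6 * (M ^ 2) ^ 2 := by ring
  rw [e1, hM2, hδ]
  field_simp
  ring

theorem kernel_triv (h : BD ν C j k) {x1 y1 x2 y2 α β ω : ℝ} (hα0 : 0 < α)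
    (hαβ : α ≤ β) (hω : ss ν ≤ ω) (ht : ∀ t ∈ ({x1, y1, x2, y2} : Set ℝ), 0 < t ∧ t < 1)
    (hw : ∀ x ∈ Icc α β, ∀ t ∈ ({x1, y1, x2, y2} : Set ℝ),
      ω ^ 4 ≤ (x * qs t) ^ 2 - ν ^ 2) :
    ‖∫ x in α..β, (amp ν x1 y1 x2 y2 x : ℂ) * pha ν j k x1 y1 x2 y2 x‖ ≤
      (8 * C) ^ 2 / ω ^ 4 * (β - α) := by
  have hν := h.nn
  have hC := h.C_nonneg
  have hs1 := ss_one ν
  have hω0 : 0 < ω := by linarith
  have hx0 : ∀ x ∈ Icc α β, 0 < x := fun x hx => lt_of_lt_of_le hα0 hx.1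
  have hcs : ∀ t ∈ ({x1, y1, x2, y2} : Set ℝ), 0 < qs t := by
    intro t ht'
    obtain ⟨h0, h1⟩ := ht t ht'
    exact Real.sqrt_pos.2 h0
  have hlt : ∀ x ∈ Icc α β, ∀ t ∈ ({x1, y1, x2, y2} : Set ℝ), ν < x * qs t := by
    intro x hx t ht'
    have h1 := hw x hx t ht'
    have h2 : 0 < x * qs t := mul_pos (hx0 x hx) (hcs t ht')
    have h3 : 0 < ω ^ 4 := by positivity
    apply lt_of_pow_lt_pow_left₀ 2 h2.le
    linarith
  have hrr : ∀ x ∈ Icc α β, ∀ t ∈ ({x1, y1, x2, y2} : Set ℝ), ω ≤ rr ν (x * qs t) := by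
    intro x hx t ht'
    have h4 := rr_four ν (x * qs t) (sq_lt hν (hlt x hx t ht')).le
    have h5 := rr_nonneg ν (x * qs t) (sq_lt hν (hlt x hx t ht')).le
    apply (pow_le_pow_iff_left₀ hω0.le h5 (n := 4) (by norm_num)).1
    rw [h4]
    exact hw x hx t ht'
  set M : ℝ := Real.sqrt (8 * C) with hM
  have hM0 : 0 ≤ M := Real.sqrt_nonneg _
  have hM2 : M ^ 2 = 8 * C := Real.sq_sqrt (by positivity)
  have m1 : x1 ∈ ({x1, y1, x2, y2} : Set ℝ) := by simp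
  have m2 : y1 ∈ ({x1, y1, x2, y2} : Set ℝ) := by simp
  have m3 : x2 ∈ ({x1, y1, x2, y2} : Set ℝ) := by simp
  have m4 : y2 ∈ ({x1, y1, x2, y2} : Set ℝ) := by simp
  have hb := intervalIntegral.norm_integral_le_of_norm_le_const (a := α) (b := β)
    (f := fun x => (amp ν x1 y1 x2 y2 x : ℂ) * pha ν j k x1 y1 x2 y2 x)
    (C := (8 * C) ^ 2 / ω ^ 4) (by
      intro x hx
      rw [uIoc_of_le hαβ] at hx
      have hx' : x ∈ Icc α β := ⟨hx.1.le, hx.2⟩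
      have hM' : ∀ t ∈ ({x1, y1, x2, y2} : Set ℝ), ‖cz ν j k (x * qs t)‖ ≤ M := fun t ht' =>
        Real.le_sqrt_of_sq_le (cz_bound h (hlt x hx' t ht') (hω.trans (hrr x hx' t ht')))
      have hi : ∀ t ∈ ({x1, y1, x2, y2} : Set ℝ), |(rr ν (x * qs t))⁻¹| ≤ ω⁻¹ := by
        intro t ht'
        have h1 := hrr x hx' t ht'
        rw [abs_of_pos (inv_pos.2 (by linarith))]
        exact inv_anti₀ hω0 h1
      rw [norm_mul, Complex.norm_real, Real.norm_eq_abs]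
      unfold amp pha
      rw [abs_mul, abs_mul, abs_mul, norm_mul, norm_mul, norm_mul, RCLike.norm_conj,
        RCLike.norm_conj]
      have a1 : |(rr ν (x * qs x1))⁻¹| * |(rr ν (x * qs y1))⁻¹| *
          (|(rr ν (x * qs x2))⁻¹| * |(rr ν (x * qs y2))⁻¹|) ≤ ω⁻¹ * ω⁻¹ * (ω⁻¹ * ω⁻¹) := by
        have := hi x1 m1
        have := hi y1 m2
        have := hi x2 m3
        have := hi y2 m4
        gcongr
      have a2 : ‖cz ν j k (x * qs x1)‖ * ‖cz ν j k (x * qs y1)‖ *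
          (‖cz ν j k (x * qs x2)‖ * ‖cz ν j k (x * qs y2)‖) ≤ M * M * (M * M) := by
        have := hM' x1 m1
        have := hM' y1 m2
        have := hM' x2 m3
        have := hM' y2 m4
        gcongr
      calc _ ≤ (ω⁻¹ * ω⁻¹ * (ω⁻¹ * ω⁻¹)) * (M * M * (M * M)) :=
            mul_le_mul a1 a2 (by positivity) (by positivity)
        _ = (M ^ 2) ^ 2 / ω ^ 4 := by field_simp
        _ = _ := by rw [hM2])
  rwa [abs_of_nonneg (by linarith)] at hb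

end

end Pool.Agent.H243.RP
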