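import Mathlib
import Pool.Agent.H243.RA.C6
import Pool.Agent.H243.RP.Q3
set_option autoImplicit false

/-! Strong `L⁴` bound of one piece. -/

open MeasureTheory Set
open scoped ENNReal

namespace Pool.Agent.H243.RP

open Pool.Agent.H243.RA (BD ss ss_one gg gg_meas gg_fin G1 G1_eq four_planch)

theorem tt_star2 {X Y : Type*} [MeasurableSpace X] [MeasurableSpace Y] (μ : Measure X)
    (τ : Measure Y) [IsFiniteMeasure μ] [IsFiniteMeasure τ] (B : X → Y → ℂ)
    (hB : Measurable (Function.uncurry B)) (M : ℝ) (hM : ∀ x y, ‖B x y‖ ≤ M) (F : Y → ℂ)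
    (hF : Measurable F) (B0 : ℝ)
    (hF1 : ∀ y, ‖F y‖ ≤ B0) :
    ∫⁻ x, ‖∫ y, F y * B x y ∂τ‖ₑ ^ 2 ∂μ ≤
      2 * ∫⁻ y, ‖F y‖ₑ ^ 2 * ∫⁻ y', ‖∫ x, B x y * (starRingEnd ℂ) (B x y') ∂μ‖ₑ ∂τ ∂τ := by
  by_cases hX : IsEmpty X
  · have : μ = 0 := Measure.eq_zero_of_isEmpty μ
    simp [this]
  by_cases hY : IsEmpty Y
  · have : τ = 0 := Measure.eq_zero_of_isEmpty τ
    simp [this]
  rw [not_isEmpty_iff] at hX hY
  have hM0 : 0 ≤ M := (norm_nonneg _).trans (hM hX.some hY.some)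
  have hB0 : 0 ≤ B0 := (norm_nonneg _).trans (hF1 hY.some)
  set G : X → ℂ := fun x => ∫ y, F y * B x y ∂τ with hG
  have hmFB : Measurable fun p : X × Y => F p.2 * B p.1 p.2 :=
    (hF.comp measurable_snd).mul hB
  have hGm : StronglyMeasurable G := hmFB.stronglyMeasurable.integral_prod_right
  have hFB : ∀ x y, ‖F y * B x y‖ ≤ B0 * M := fun x y => by
    rw [norm_mul]
    exact mul_le_mul (hF1 y) (hM x y) (norm_nonneg _) hB0
  have hGb : ∀ x, ‖G x‖ ≤ B0 * M * τ.real univ := fun x =>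
    norm_integral_le_of_norm_le_const (Filter.Eventually.of_forall fun y => hFB x y)
  set Φ : X → Y × Y → ℂ := fun x p => (F p.1 * B x p.1) * (starRingEnd ℂ) (F p.2 * B x p.2) with hΦ
  have hΦm : Measurable (Function.uncurry Φ) := by
    have a1 : Measurable fun q : X × (Y × Y) => F q.2.1 * B q.1 q.2.1 :=
      hmFB.comp (measurable_fst.prodMk (measurable_fst.comp measurable_snd))
    have a2 : Measurable fun q : X × (Y × Y) => F q.2.2 * B q.1 q.2.2 :=
      hmFB.comp (measurable_fst.prodMk (measurable_snd.comp measurable_snd))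
    exact a1.mul (Complex.continuous_conj.measurable.comp a2)
  have hΦb : ∀ x p, ‖Φ x p‖ ≤ B0 * M * (B0 * M) := fun x p => by
    simp only [hΦ]
    rw [norm_mul, RCLike.norm_conj]
    exact mul_le_mul (hFB _ _) (hFB _ _) (norm_nonneg _) (mul_nonneg hB0 hM0)
  have h1 : ∀ x, ((‖G x‖ ^ 2 : ℝ) : ℂ) = ∫ p, Φ x p ∂(τ.prod τ) := by
    intro x
    simp only [hΦ]
    rw [integral_prod_mul (μ := τ) (ν := τ) (fun y => F y * B x y)
      (fun y => (starRingEnd ℂ) (F y * B x y)), integral_conj]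
    rw [Complex.mul_conj, Complex.normSq_eq_norm_sq]
  have h2 : ∫ x, ((‖G x‖ ^ 2 : ℝ) : ℂ) ∂μ = ∫ p, ∫ x, Φ x p ∂μ ∂(τ.prod τ) := by
    simp_rw [h1]
    apply integral_integral_swap
    exact Integrable.of_bound hΦm.aestronglyMeasurable (B0 * M * (B0 * M))
      (Filter.Eventually.of_forall fun q => hΦb q.1 q.2)
  have h3 : ∫⁻ x, ‖G x‖ₑ ^ 2 ∂μ = ‖∫ x, ((‖G x‖ ^ 2 : ℝ) : ℂ) ∂μ‖ₑ := by
    have hint : Integrable (fun x => ‖G x‖ ^ 2) μ :=
      Integrable.of_bound (hGm.norm.measurable.pow_const 2).aestronglyMeasurable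
        ((B0 * M * τ.real univ) ^ 2) (Filter.Eventually.of_forall fun x => by
          rw [Real.norm_of_nonneg (sq_nonneg _)]
          exact pow_le_pow_left₀ (norm_nonneg _) (hGb x) 2)
    rw [integral_complex_ofReal, ← ofReal_norm, Complex.norm_real,
      Real.norm_of_nonneg (integral_nonneg fun x => sq_nonneg _),
      ofReal_integral_eq_lintegral_ofReal hint (Filter.Eventually.of_forall fun x => sq_nonneg _)]
    refine lintegral_congr fun x => ?_
    rw [ENNReal.ofReal_pow (norm_nonneg _), ofReal_norm]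
  rw [h3, h2]
  refine (enorm_integral_le_lintegral_enorm _).trans ?_
  have hKm : Measurable fun p : Y × Y => ‖∫ x, B x p.1 * (starRingEnd ℂ) (B x p.2) ∂μ‖ₑ := by
    have a1 : Measurable fun q : (Y × Y) × X => B q.2 q.1.1 * (starRingEnd ℂ) (B q.2 q.1.2) := by
      have b1 : Measurable fun q : (Y × Y) × X => B q.2 q.1.1 :=
        hB.comp (measurable_snd.prodMk (measurable_fst.comp measurable_fst))
      have b2 : Measurable fun q : (Y × Y) × X => B q.2 q.1.2 :=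
        hB.comp (measurable_snd.prodMk (measurable_snd.comp measurable_fst))
      exact b1.mul (Complex.continuous_conj.measurable.comp b2)
    exact (a1.stronglyMeasurable.integral_prod_right').measurable.enorm
  set K : Y × Y → ℝ≥0∞ := fun p => ‖∫ x, B x p.1 * (starRingEnd ℂ) (B x p.2) ∂μ‖ₑ with hK
  have hKs : ∀ y y', K (y, y') = K (y', y) := by
    intro y y'
    simp only [hK]
    rw [← ofReal_norm, ← ofReal_norm, ← RCLike.norm_conj (∫ x, B x y * (starRingEnd ℂ) (B x y') ∂μ),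
      ← integral_conj]
    congr 2
    refine integral_congr_ae (Filter.Eventually.of_forall fun x => ?_)
    simp only [map_mul, Complex.conj_conj]
    ring
  have hab : ∀ a b : ℝ≥0∞, a * b ≤ a ^ 2 + b ^ 2 := by
    intro a b
    rcases le_total a b with h | h
    · calc a * b ≤ b * b := mul_le_mul' h le_rfl
        _ = b ^ 2 := (sq b).symm
        _ ≤ _ := le_add_self
    · calc a * b ≤ a * a := mul_le_mul' le_rfl h
        _ = a ^ 2 := (sq a).symm
        _ ≤ _ := le_self_add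
  have hFe : Measurable fun y => ‖F y‖ₑ ^ 2 := hF.enorm.pow_const 2
  have hm1 : Measurable fun p : Y × Y => ‖F p.1‖ₑ ^ 2 * K p := (hFe.comp measurable_fst).mul hKm
  have hm2 : Measurable fun p : Y × Y => ‖F p.2‖ₑ ^ 2 * K p := (hFe.comp measurable_snd).mul hKm
  have e1 : ∫⁻ p : Y × Y, ‖F p.1‖ₑ ^ 2 * K p ∂(τ.prod τ) =
      ∫⁻ y, ‖F y‖ₑ ^ 2 * ∫⁻ y', K (y, y') ∂τ ∂τ := by
    rw [lintegral_prod _ hm1.aemeasurable]
    refine lintegral_congr fun y => ?_
    have hm3 : Measurable fun y' => K (y, y') := hKm.comp measurable_prodMk_left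
    exact lintegral_const_mul (‖F y‖ₑ ^ 2) hm3
  have e2 : ∫⁻ p : Y × Y, ‖F p.2‖ₑ ^ 2 * K p ∂(τ.prod τ) =
      ∫⁻ y, ‖F y‖ₑ ^ 2 * ∫⁻ y', K (y, y') ∂τ ∂τ := by
    rw [lintegral_prod_symm _ hm2.aemeasurable]
    refine lintegral_congr fun y => ?_
    simp only
    have hm3 : Measurable fun y' => K (y', y) := hKm.comp measurable_prodMk_right
    rw [lintegral_const_mul _ hm3]
    congr 1
    exact lintegral_congr fun y' => hKs y' y
  calc ∫⁻ p, ‖∫ x, Φ x p ∂μ‖ₑ ∂(τ.prod τ)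
      ≤ ∫⁻ p : Y × Y, (‖F p.1‖ₑ ^ 2 * K p + ‖F p.2‖ₑ ^ 2 * K p) ∂(τ.prod τ) := by
        apply lintegral_mono
        intro p
        have e : ∫ x, Φ x p ∂μ = (F p.1 * (starRingEnd ℂ) (F p.2)) *
            ∫ x, B x p.1 * (starRingEnd ℂ) (B x p.2) ∂μ := by
          rw [← integral_const_mul]
          refine integral_congr_ae (Filter.Eventually.of_forall fun x => ?_)
          simp only [hΦ, map_mul]
          ring
        simp only
        rw [e, enorm_mul, ← add_mul]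
        refine mul_le_mul' ?_ le_rfl
        rw [enorm_mul]
        have : ‖(starRingEnd ℂ) (F p.2)‖ₑ = ‖F p.2‖ₑ := by
          rw [← ofReal_norm, RCLike.norm_conj, ofReal_norm]
        rw [this]
        exact hab _ _
    _ = 2 * ∫⁻ y, ‖F y‖ₑ ^ 2 * ∫⁻ y', K (y, y') ∂τ ∂τ := by
        rw [lintegral_add_left hm1, e1, e2, two_mul]

/-- the truncated singular weight -/
noncomputable def gt (ε : ℝ) : ℝ → ℝ≥0∞ := (Ioo (-2 : ℝ) 2).indicator (gg ε)

theorem gt_meas (ε : ℝ) : Measurable (gt ε) := (gg_meas ε).indicator measurableSet_Ioo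

theorem gt_int (ε : ℝ) (hε : 0 < ε) : ∫⁻ p, gt ε p = ENNReal.ofReal (G1 ε) := by
  unfold gt
  rw [lintegral_indicator measurableSet_Ioo, G1_eq ε hε]

theorem gt_eq (ε : ℝ) {p : ℝ} (hp : p ∈ Ioo (-2 : ℝ) 2) : gt ε p = gg ε p := indicator_of_mem hp _

theorem triple (ε : ℝ) (hε : 0 < ε) (a : ℝ → ℝ≥0∞) (ha : Measurable a) :
    ∫⁻ u : ℝ, ∫⁻ t : ℝ, (a t + a (u - t)) * ∫⁻ t' : ℝ, gt ε (t' - t) * gt ε (t' + t - u) =
      2 * (ENNReal.ofReal (G1 ε ^ 2) * ∫⁻ t, a t) := by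
  have hG := gt_meas ε
  have hm : Measurable fun p : (ℝ × ℝ) × ℝ => gt ε (p.2 - p.1.2) * gt ε (p.2 + p.1.2 - p.1.1) :=
    (hG.comp (by fun_prop)).mul (hG.comp (by fun_prop))
  have hW : Measurable fun p : ℝ × ℝ => ∫⁻ t' : ℝ, gt ε (t' - p.2) * gt ε (t' + p.2 - p.1) :=
    hm.lintegral_prod_right'
  have hG0 : 0 ≤ G1 ε := ENNReal.toReal_nonneg
  -- first term
  have e1 : ∫⁻ u : ℝ, ∫⁻ t : ℝ, a t * ∫⁻ t' : ℝ, gt ε (t' - t) * gt ε (t' + t - u) =
      ENNReal.ofReal (G1 ε ^ 2) * ∫⁻ t, a t := by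
    rw [lintegral_lintegral_swap (f := fun u t => a t * ∫⁻ t' : ℝ, gt ε (t' - t) * gt ε (t' + t - u))
      ((ha.comp measurable_snd).mul hW).aemeasurable]
    rw [← lintegral_const_mul _ ha]
    refine lintegral_congr fun t => ?_
    have hW1 : Measurable fun u : ℝ => ∫⁻ t' : ℝ, gt ε (t' - t) * gt ε (t' + t - u) :=
      hW.comp (measurable_prodMk_right (y := t))
    rw [lintegral_const_mul _ hW1, mul_comm]
    congr 1
    have hm2 : Measurable (Function.uncurry fun u t' : ℝ => gt ε (t' - t) * gt ε (t' + t - u)) :=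
      (hG.comp (by fun_prop)).mul (hG.comp (by fun_prop))
    rw [lintegral_lintegral_swap hm2.aemeasurable]
    have e2 : ∀ t' : ℝ, ∫⁻ u : ℝ, gt ε (t' - t) * gt ε (t' + t - u) =
        gt ε (t' - t) * ENNReal.ofReal (G1 ε) := by
      intro t'
      have hm3 : Measurable fun u : ℝ => gt ε (t' + t - u) := hG.comp (by fun_prop)
      rw [lintegral_const_mul _ hm3, lintegral_sub_left_eq_self (fun u => gt ε u) (t' + t),
        gt_int ε hε]
    simp_rw [e2]
    have hm4 : Measurable fun t' : ℝ => gt ε (t' - t) := hG.comp (by fun_prop)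
    rw [lintegral_mul_const _ hm4, lintegral_sub_right_eq_self (fun u => gt ε u) t, gt_int ε hε,
      ← ENNReal.ofReal_mul hG0, sq]
  have e3 : ∀ u : ℝ, ∫⁻ t : ℝ, a (u - t) * ∫⁻ t' : ℝ, gt ε (t' - t) * gt ε (t' + t - u) =
      ∫⁻ t : ℝ, a t * ∫⁻ t' : ℝ, gt ε (t' - t) * gt ε (t' + t - u) := by
    intro u
    rw [← lintegral_sub_left_eq_self (fun t => a t * ∫⁻ t' : ℝ, gt ε (t' - t) * gt ε (t' + t - u)) u]
    refine lintegral_congr fun t => ?_
    congr 1
    refine lintegral_congr fun t' => ?_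
    rw [mul_comm]
    congr 2 <;> ring
  calc ∫⁻ u : ℝ, ∫⁻ t : ℝ, (a t + a (u - t)) * ∫⁻ t' : ℝ, gt ε (t' - t) * gt ε (t' + t - u)
      = ∫⁻ u : ℝ, ((∫⁻ t : ℝ, a t * ∫⁻ t' : ℝ, gt ε (t' - t) * gt ε (t' + t - u)) +
          ∫⁻ t : ℝ, a t * ∫⁻ t' : ℝ, gt ε (t' - t) * gt ε (t' + t - u)) := by
        refine lintegral_congr fun u => ?_
        have hWu : Measurable fun t : ℝ => ∫⁻ t' : ℝ, gt ε (t' - t) * gt ε (t' + t - u) :=
          hW.comp (measurable_prodMk_left (x := u))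
        simp_rw [add_mul]
        have hm5 : Measurable fun t : ℝ => a t * ∫⁻ t' : ℝ, gt ε (t' - t) * gt ε (t' + t - u) :=
          ha.mul hWu
        rw [lintegral_add_left hm5, e3]
    _ = ∫⁻ u : ℝ, 2 * ∫⁻ t : ℝ, a t * ∫⁻ t' : ℝ, gt ε (t' - t) * gt ε (t' + t - u) := by
        simp_rw [two_mul]
    _ = _ := by
        rw [lintegral_const_mul' _ _ (by norm_num), e1]

end Pool.Agent.H243.RP
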