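import Mathlib
import Pool.Agent.H243.RP.Q4
set_option autoImplicit false

/-! Strong `L⁴` bound of one piece. -/

open MeasureTheory Set
open scoped ENNReal

namespace Pool.Agent.H243.RP

open Pool.Agent.H243.RA (BD ss ss_one gg gg_meas gg_fin G1 G1_eq four_planch)

section
variable {ν C : ℝ} {j k : ℝ → ℝ}

theorem Kk_comb (h : BD ν C j k) (hC : 0 < C) {ε ω Λ : ℝ} (hε : 0 < ε) (hε1 : ε < 1) (hΛ : 0 < Λ)
    (hω : ss ν ≤ ω) (u t t' : ℝ) :
    ‖Kk ν j k ω Λ u t t'‖ₑ ≤ ENNReal.ofReal (192 * (8 * C) ^ 2 / ω ^ 4 * Λ ^ ε *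
      (32 * (Real.sqrt 2 * ω ^ 2 / Λ) ^ 3) ^ (1 - ε)) *
      (gg ε (t' - t) * gg ε (t' + t - u)) := by
  have hω0 : 0 < ω := by linarith [ss_one ν]
  set F : ℝ := Real.sqrt 2 * ω ^ 2 / Λ with hF
  have hF0 : 0 < F := by rw [hF]; positivity
  set c : ℝ := 192 * (8 * C) ^ 2 / ω ^ 4 with hc
  have hc0 : 0 < c := by rw [hc]; positivity
  have hpos : 0 < c * Λ ^ ε * (32 * F ^ 3) ^ (1 - ε) := by positivity
  have hgpos : ∀ p, gg ε p ≠ 0 := by
    intro p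
    unfold gg
    rw [Ne, ENNReal.rpow_eq_zero_iff]
    rintro (⟨_, h2⟩ | ⟨h1, _⟩)
    · linarith
    · exact ENNReal.ofReal_ne_top h1
  have hg0 : ∀ p, p = 0 → gg ε p = ∞ := by
    intro p hp
    unfold gg
    rw [hp, abs_zero, ENNReal.ofReal_zero]
    exact ENNReal.zero_rpow_of_neg (by linarith)
  by_cases hp : t' - t = 0
  · rw [hg0 _ hp, ENNReal.top_mul (hgpos _), ENNReal.mul_top (by simpa using hpos)]
    exact le_top
  by_cases hr : t' + t - u = 0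
  · rw [hg0 _ hr, ENNReal.mul_top (hgpos _), ENNReal.mul_top (by simpa using hpos)]
    exact le_top
  have hp' : 0 < |t' - t| := abs_pos.2 hp
  have hr' : 0 < |t' + t - u| := abs_pos.2 hr
  have hdiff : (2 * t' - u) ^ 2 - (2 * t - u) ^ 2 = 4 * ((t' - t) * (t' + t - u)) := by ring
  have hne : (2 * t - u) ^ 2 ≠ (2 * t' - u) ^ 2 := by
    intro he
    have : (2 * t' - u) ^ 2 - (2 * t - u) ^ 2 = 0 := by rw [he]; ring
    rw [hdiff] at this
    have := mul_ne_zero hp hr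
    simp_all
  have b1 := Kk_triv h hΛ hω u t t'
  have b2 := Kk_main h hΛ hω u t t' hne
  rw [hdiff, abs_mul, abs_mul, ← hF, ← hc] at b2
  have e4 : |(4 : ℝ)| = 4 := by norm_num
  rw [e4] at b2
  set X : ℝ := 32 * F ^ 3 / (4 * (|t' - t| * |t' + t - u|)) with hX
  have hX0 : 0 < X := by rw [hX]; positivity
  have b1' : ‖Kk ν j k ω Λ u t t'‖ ≤ c * Λ := by
    refine b1.trans ?_
    apply mul_le_mul_of_nonneg_right _ hΛ.le
    rw [hc]
    apply div_le_div_of_nonneg_right _ (by positivity)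
    nlinarith [sq_nonneg (8 * C)]
  have hmin : ‖Kk ν j k ω Λ u t t'‖ ≤ c * (Λ ^ ε * X ^ (1 - ε)) := by
    rcases le_total Λ X with hc1 | hc1
    · refine b1'.trans (mul_le_mul_of_nonneg_left ?_ hc0.le)
      calc Λ = Λ ^ ε * Λ ^ (1 - ε) := by
            rw [← Real.rpow_add hΛ]; simp
        _ ≤ Λ ^ ε * X ^ (1 - ε) := by
            apply mul_le_mul_of_nonneg_left _ (by positivity)
            exact Real.rpow_le_rpow hΛ.le hc1 (by linarith)
    · refine b2.trans (mul_le_mul_of_nonneg_left ?_ hc0.le)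
      calc X = X ^ ε * X ^ (1 - ε) := by
            rw [← Real.rpow_add hX0]; simp
        _ ≤ Λ ^ ε * X ^ (1 - ε) := by
            apply mul_le_mul_of_nonneg_right _ (by positivity)
            exact Real.rpow_le_rpow hX0.le hc1 hε.le
  have hXs : X ^ (1 - ε) ≤ (32 * F ^ 3) ^ (1 - ε) *
      (|t' - t| ^ (-(1 - ε)) * |t' + t - u| ^ (-(1 - ε))) := by
    have e1 : X ≤ (32 * F ^ 3) * (|t' - t|⁻¹ * |t' + t - u|⁻¹) := by
      have : X = (32 * F ^ 3) * (|t' - t|⁻¹ * |t' + t - u|⁻¹) / 4 := by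
        rw [hX]
        field_simp
      rw [this]
      apply div_le_self _ (by norm_num)
      positivity
    calc X ^ (1 - ε) ≤ ((32 * F ^ 3) * (|t' - t|⁻¹ * |t' + t - u|⁻¹)) ^ (1 - ε) :=
          Real.rpow_le_rpow hX0.le e1 (by linarith)
      _ = _ := by
          rw [Real.mul_rpow (x := 32 * F ^ 3) (by positivity) (by positivity),
            Real.mul_rpow (x := |t' - t|⁻¹) (by positivity) (by positivity), Real.inv_rpow hp'.le,
            Real.inv_rpow hr'.le, Real.rpow_neg hp'.le, Real.rpow_neg hr'.le]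
  have hfin : ‖Kk ν j k ω Λ u t t'‖ ≤ c * Λ ^ ε * (32 * F ^ 3) ^ (1 - ε) *
      (|t' - t| ^ (-(1 - ε)) * |t' + t - u| ^ (-(1 - ε))) := by
    refine hmin.trans ?_
    have := mul_le_mul_of_nonneg_left hXs (by positivity : 0 ≤ c * Λ ^ ε)
    calc c * (Λ ^ ε * X ^ (1 - ε)) = c * Λ ^ ε * X ^ (1 - ε) := by ring
      _ ≤ _ := this
      _ = _ := by ring
  unfold gg
  rw [ENNReal.ofReal_rpow_of_pos hp', ENNReal.ofReal_rpow_of_pos hr',
    ← ENNReal.ofReal_mul (by positivity), ← ENNReal.ofReal_mul (by positivity), ← ofReal_norm]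
  exact ENNReal.ofReal_le_ofReal hfin

/-- real estimate of the coefficient -/
theorem coef_bound {C ε ω Λ : ℝ} (hC : 0 < C) (hε : 0 < ε) (hε1 : ε < 1) (hΛ : 1 ≤ Λ)
    (hω : 1 ≤ ω) (hωΛ : ω ^ 4 ≤ 4 * Λ ^ 2) :
    192 * (8 * C) ^ 2 / ω ^ 4 * Λ ^ ε * (32 * (Real.sqrt 2 * ω ^ 2 / Λ) ^ 3) ^ (1 - ε) ≤
    2359296 * C ^ 2 * Λ ^ (-2 + 4 * ε) := by
  have hΛ0 : 0 < Λ := by linarith
  have hω0 : 0 < ω := by linarith
  set F : ℝ := Real.sqrt 2 * ω ^ 2 / Λ with hF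
  have hF0 : 0 < F := by rw [hF]; positivity
  have hF2 : F ^ 2 = 2 * ω ^ 4 / Λ ^ 2 := by
    rw [hF, div_pow, mul_pow, Real.sq_sqrt (by norm_num)]
    ring
  have hF8 : F ^ 2 ≤ 8 := by
    rw [hF2, div_le_iff₀ (by positivity)]
    linarith
  have hF3 : F ≤ 3 := by nlinarith
  have hFΛ : Λ⁻¹ ≤ F := by
    rw [hF, inv_eq_one_div]
    apply div_le_div_of_nonneg_right _ hΛ0.le
    have h1 : (1 : ℝ) ≤ Real.sqrt 2 := by
      rw [Real.one_le_sqrt]
      norm_num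
    have h2 : (1 : ℝ) ≤ ω ^ 2 := one_le_pow₀ hω
    nlinarith
  have e1 : (32 * F ^ 3) ^ (1 - ε) ≤ 32 * (F ^ 3 * Λ ^ (3 * ε)) := by
    rw [Real.mul_rpow (by norm_num) (by positivity)]
    have a1 : (32 : ℝ) ^ (1 - ε) ≤ 32 := by
      calc (32 : ℝ) ^ (1 - ε) ≤ 32 ^ (1 : ℝ) :=
            Real.rpow_le_rpow_of_exponent_le (by norm_num) (by linarith)
        _ = 32 := Real.rpow_one _
    have a2 : (F ^ 3) ^ (1 - ε) ≤ F ^ 3 * Λ ^ (3 * ε) := by
      have b1 : (F ^ 3) ^ (1 - ε) = F ^ 3 * (F ^ 3) ^ (-ε) := by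
        rw [sub_eq_add_neg, Real.rpow_add (by positivity), Real.rpow_one]
      have b2 : (F ^ 3) ^ (-ε) ≤ Λ ^ (3 * ε) := by
        have b3 : (Λ⁻¹) ^ 3 ≤ F ^ 3 := pow_le_pow_left₀ (by positivity) hFΛ 3
        calc (F ^ 3) ^ (-ε) ≤ ((Λ⁻¹) ^ 3) ^ (-ε) :=
              Real.rpow_le_rpow_of_nonpos (by positivity) b3 (by linarith)
          _ = Λ ^ (3 * ε) := by
              rw [inv_pow, Real.inv_rpow (by positivity), Real.rpow_neg (by positivity), inv_inv,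
                ← Real.rpow_natCast, ← Real.rpow_mul hΛ0.le]
              norm_num
      rw [b1]
      exact mul_le_mul_of_nonneg_left b2 (by positivity)
    gcongr
  calc 192 * (8 * C) ^ 2 / ω ^ 4 * Λ ^ ε * (32 * F ^ 3) ^ (1 - ε)
      ≤ 192 * (8 * C) ^ 2 / ω ^ 4 * Λ ^ ε * (32 * (F ^ 3 * Λ ^ (3 * ε))) :=
        mul_le_mul_of_nonneg_left e1 (by positivity)
    _ = (192 * 64 * 32 * C ^ 2) * (F ^ 2 / ω ^ 4) * (Λ ^ ε * Λ ^ (3 * ε)) * F := by ring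
    _ ≤ (192 * 64 * 32 * C ^ 2) * (F ^ 2 / ω ^ 4) * (Λ ^ ε * Λ ^ (3 * ε)) * 3 :=
        mul_le_mul_of_nonneg_left hF3 (by positivity)
    _ = 2359296 * C ^ 2 * Λ ^ (-2 + 4 * ε) := by
        have c1 : F ^ 2 / ω ^ 4 = 2 * (Λ ^ 2)⁻¹ := by
          rw [hF2]
          field_simp
        have c2 : Λ ^ (-2 + 4 * ε) = (Λ ^ 2)⁻¹ * (Λ ^ ε * Λ ^ (3 * ε)) := by
          rw [← Real.rpow_natCast, ← Real.rpow_neg hΛ0.le, ← Real.rpow_add hΛ0,
            ← Real.rpow_add hΛ0]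
          congr 1
          push_cast
          ring
        rw [c1, c2]
        ring

/-- **The strong bound of one piece.** -/
theorem piece_bound (ε : ℝ) (hε : 0 < ε) (hε1 : ε < 1) (h : BD ν C j k) (hC : 0 < C)
    (hj : Measurable j) (hk : Measurable k) {ω Λ : ℝ} (hω : ss ν ≤ ω) (hΛ : 1 ≤ Λ)
    (hωΛ : ω ^ 4 ≤ 4 * Λ ^ 2) (g : ℝ → ℂ) (hg : Measurable g) {B0 : ℝ} (hg1 : ∀ t, ‖g t‖ ≤ B0) :
    ∫⁻ x in Ioc Λ (2 * Λ), ∫⁻ z : ℝ, ‖∫ t in Ioo (0 : ℝ) 1,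
        Complex.exp (-((z * t : ℝ) : ℂ) * Complex.I) * (g t * Ap ν j k ω x t)‖ₑ ^ 4 ≤
      ENNReal.ofReal (18874368 * Real.pi * G1 ε ^ 2 * C ^ 2 * Λ ^ (-2 + 4 * ε)) *
        ∫⁻ t, ‖g t‖ₑ ^ 4 := by
  have hΛ0 : 0 < Λ := by linarith
  have hω1 : 1 ≤ ω := (ss_one ν).trans hω
  have hB0 : 0 ≤ B0 := (norm_nonneg _).trans (hg1 0)
  have hAm := Ap_meas (ν := ν) hj hk ω
  set M : ℝ := Real.sqrt (8 * C) with hM
  have hM0 : 0 ≤ M := Real.sqrt_nonneg _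
  -- Plancherel for every x
  have s1 : ∀ x, ∫⁻ z : ℝ, ‖∫ t in Ioo (0 : ℝ) 1,
      Complex.exp (-((z * t : ℝ) : ℂ) * Complex.I) * (g t * Ap ν j k ω x t)‖ₑ ^ 4 ≤
      ENNReal.ofReal (2 * Real.pi) * ∫⁻ u in Ioo (0 : ℝ) 2, ‖∫ t in Ioo (0 : ℝ) 1,
        (g t * g (u - t)) * (Ap ν j k ω x t * Ap ν j k ω x (u - t))‖ₑ ^ 2 := by
    intro x
    refine (four_planch (fun t => g t * Ap ν j k ω x t)
      (hg.mul (hAm.comp (measurable_const.prodMk measurable_id))) (B0 * M) (fun t => ?_) ?_).trans ?_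
    · rw [norm_mul]
      exact mul_le_mul (hg1 t) (Ap_bound h hω x t) (norm_nonneg _) hB0
    · intro t ht
      rw [Ap_zero ω x t ht, mul_zero]
    · apply le_of_eq
      congr 1
      refine lintegral_congr fun u => ?_
      congr 3
      funext t
      ring
  have hBm : ∀ u, Measurable (Function.uncurry fun x t => Ap ν j k ω x t * Ap ν j k ω x (u - t)) := by
    intro u
    exact hAm.mul (hAm.comp (measurable_fst.prodMk (measurable_const.sub measurable_snd)))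
  have hBb : ∀ u x t, ‖Ap ν j k ω x t * Ap ν j k ω x (u - t)‖ ≤ M * M := fun u x t => by
    rw [norm_mul]
    exact mul_le_mul (Ap_bound h hω x t) (Ap_bound h hω x _) (norm_nonneg _) hM0
  -- TT*
  have s2 : ∀ u, ∫⁻ x in Ioc Λ (2 * Λ), ‖∫ t in Ioo (0 : ℝ) 1,
        (g t * g (u - t)) * (Ap ν j k ω x t * Ap ν j k ω x (u - t))‖ₑ ^ 2 ≤
      2 * ∫⁻ t in Ioo (0 : ℝ) 1, ‖g t * g (u - t)‖ₑ ^ 2 *
        ∫⁻ t' in Ioo (0 : ℝ) 1, ‖Kk ν j k ω Λ u t t'‖ₑ := by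
    intro u
    exact tt_star2 (volume.restrict (Ioc Λ (2 * Λ))) (volume.restrict (Ioo (0 : ℝ) 1))
      (fun x t => Ap ν j k ω x t * Ap ν j k ω x (u - t)) (hBm u) (M * M) (fun x t => hBb u x t)
      (fun t => g t * g (u - t)) (hg.mul (hg.comp (measurable_const.sub measurable_id))) (B0 * B0)
      (fun t => by
        rw [norm_mul]
        exact mul_le_mul (hg1 _) (hg1 _) (norm_nonneg _) hB0)
  set c : ℝ := 2359296 * C ^ 2 * Λ ^ (-2 + 4 * ε) with hc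
  have hc0 : 0 ≤ c := by positivity
  set a : ℝ → ℝ≥0∞ := fun t => ‖g t‖ₑ ^ 4 with ha
  have ham : Measurable a := hg.enorm.pow_const 4
  have hab : ∀ x y : ℝ≥0∞, (x * y) ^ 2 ≤ x ^ 4 + y ^ 4 := by
    intro x y
    rcases le_total x y with h | h
    · calc (x * y) ^ 2 ≤ (y * y) ^ 2 := pow_le_pow_left' (mul_le_mul' h le_rfl) 2
        _ = y ^ 4 := by ring
        _ ≤ _ := le_add_self
    · calc (x * y) ^ 2 ≤ (x * x) ^ 2 := pow_le_pow_left' (mul_le_mul' le_rfl h) 2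
        _ = x ^ 4 := by ring
        _ ≤ _ := le_self_add
  have s3 : ∀ u ∈ Ioo (0 : ℝ) 2, ∫⁻ t in Ioo (0 : ℝ) 1, ‖g t * g (u - t)‖ₑ ^ 2 *
        ∫⁻ t' in Ioo (0 : ℝ) 1, ‖Kk ν j k ω Λ u t t'‖ₑ ≤
      ENNReal.ofReal c * ∫⁻ t : ℝ, (a t + a (u - t)) *
        ∫⁻ t' : ℝ, gt ε (t' - t) * gt ε (t' + t - u) := by
    intro u hu
    calc ∫⁻ t in Ioo (0 : ℝ) 1, ‖g t * g (u - t)‖ₑ ^ 2 *
        ∫⁻ t' in Ioo (0 : ℝ) 1, ‖Kk ν j k ω Λ u t t'‖ₑ
        ≤ ∫⁻ t in Ioo (0 : ℝ) 1, ENNReal.ofReal c * ((a t + a (u - t)) *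
          ∫⁻ t' : ℝ, gt ε (t' - t) * gt ε (t' + t - u)) := by
          apply setLIntegral_mono' measurableSet_Ioo
          intro t ht
          have i1 : ‖g t * g (u - t)‖ₑ ^ 2 ≤ a t + a (u - t) := by
            rw [enorm_mul]
            exact hab _ _
          have i2 : ∫⁻ t' in Ioo (0 : ℝ) 1, ‖Kk ν j k ω Λ u t t'‖ₑ ≤
              ENNReal.ofReal c * ∫⁻ t' : ℝ, gt ε (t' - t) * gt ε (t' + t - u) := by
            rw [← lintegral_const_mul' _ _ ENNReal.ofReal_ne_top]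
            refine le_trans ?_ (setLIntegral_le_lintegral (Ioo (0 : ℝ) 1) _)
            apply setLIntegral_mono' measurableSet_Ioo
            intro t' ht'
            refine (Kk_comb h hC hε hε1 hΛ0 hω u t t').trans ?_
            rw [gt_eq ε (by constructor <;> linarith [ht.1, ht.2, ht'.1, ht'.2]),
              gt_eq ε (by constructor <;> linarith [ht.1, ht.2, ht'.1, ht'.2, hu.1, hu.2])]
            exact mul_le_mul' (ENNReal.ofReal_le_ofReal (coef_bound hC hε hε1 hΛ hω1 hωΛ)) le_rfl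
          calc _ ≤ (a t + a (u - t)) * (ENNReal.ofReal c *
                ∫⁻ t' : ℝ, gt ε (t' - t) * gt ε (t' + t - u)) := mul_le_mul' i1 i2
            _ = _ := by ring
      _ ≤ _ := by
          rw [lintegral_const_mul' _ _ ENNReal.ofReal_ne_top]
          exact mul_le_mul' le_rfl (setLIntegral_le_lintegral _ _)
  -- measurability of the inner function
  have hHm : Measurable fun p : ℝ × ℝ => ‖∫ t in Ioo (0 : ℝ) 1,
        (g t * g (p.2 - t)) * (Ap ν j k ω p.1 t * Ap ν j k ω p.1 (p.2 - t))‖ₑ ^ 2 := by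
    have a1 : Measurable fun q : (ℝ × ℝ) × ℝ => (g q.2 * g (q.1.2 - q.2)) *
        (Ap ν j k ω q.1.1 q.2 * Ap ν j k ω q.1.1 (q.1.2 - q.2)) := by
      have m1 : Measurable fun q : (ℝ × ℝ) × ℝ => q.1.2 - q.2 := by fun_prop
      have m2 : Measurable fun q : (ℝ × ℝ) × ℝ => Ap ν j k ω q.1.1 q.2 :=
        hAm.comp ((measurable_fst.comp measurable_fst).prodMk measurable_snd)
      have m3 : Measurable fun q : (ℝ × ℝ) × ℝ => Ap ν j k ω q.1.1 (q.1.2 - q.2) :=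
        hAm.comp ((measurable_fst.comp measurable_fst).prodMk m1)
      exact ((hg.comp measurable_snd).mul (hg.comp m1)).mul (m2.mul m3)
    exact ((a1.stronglyMeasurable.integral_prod_right'
      (ν := volume.restrict (Ioo (0 : ℝ) 1))).measurable.enorm).pow_const 2
  calc ∫⁻ x in Ioc Λ (2 * Λ), ∫⁻ z : ℝ, ‖∫ t in Ioo (0 : ℝ) 1,
        Complex.exp (-((z * t : ℝ) : ℂ) * Complex.I) * (g t * Ap ν j k ω x t)‖ₑ ^ 4
      ≤ ∫⁻ x in Ioc Λ (2 * Λ), ENNReal.ofReal (2 * Real.pi) * ∫⁻ u in Ioo (0 : ℝ) 2,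
          ‖∫ t in Ioo (0 : ℝ) 1, (g t * g (u - t)) *
            (Ap ν j k ω x t * Ap ν j k ω x (u - t))‖ₑ ^ 2 := lintegral_mono fun x => s1 x
    _ = ENNReal.ofReal (2 * Real.pi) * ∫⁻ x in Ioc Λ (2 * Λ), ∫⁻ u in Ioo (0 : ℝ) 2,
          ‖∫ t in Ioo (0 : ℝ) 1, (g t * g (u - t)) *
            (Ap ν j k ω x t * Ap ν j k ω x (u - t))‖ₑ ^ 2 :=
        lintegral_const_mul _ hHm.lintegral_prod_right'
    _ = ENNReal.ofReal (2 * Real.pi) * ∫⁻ u in Ioo (0 : ℝ) 2, ∫⁻ x in Ioc Λ (2 * Λ),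
          ‖∫ t in Ioo (0 : ℝ) 1, (g t * g (u - t)) *
            (Ap ν j k ω x t * Ap ν j k ω x (u - t))‖ₑ ^ 2 := by
        rw [lintegral_lintegral_swap hHm.aemeasurable]
    _ ≤ ENNReal.ofReal (2 * Real.pi) * ∫⁻ u in Ioo (0 : ℝ) 2, (2 * (ENNReal.ofReal c *
          ∫⁻ t : ℝ, (a t + a (u - t)) * ∫⁻ t' : ℝ, gt ε (t' - t) * gt ε (t' + t - u))) := by
        refine mul_le_mul' le_rfl ?_
        apply setLIntegral_mono' measurableSet_Ioo
        intro u hu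
        exact (s2 u).trans (mul_le_mul' le_rfl (s3 u hu))
    _ ≤ ENNReal.ofReal (2 * Real.pi) * (2 * (ENNReal.ofReal c *
          (2 * (ENNReal.ofReal (G1 ε ^ 2) * ∫⁻ t, a t)))) := by
        rw [← triple ε hε a ham, lintegral_const_mul' _ _ (by norm_num),
          lintegral_const_mul' _ _ ENNReal.ofReal_ne_top]
        gcongr
        exact Measure.restrict_le_self
    _ = _ := by
        have hpi := Real.pi_pos
        have e2 : (2 : ℝ≥0∞) = ENNReal.ofReal 2 := by simp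
        rw [e2]
        calc _ = (ENNReal.ofReal (2 * Real.pi) * (ENNReal.ofReal 2 * (ENNReal.ofReal c *
              (ENNReal.ofReal 2 * ENNReal.ofReal (G1 ε ^ 2))))) * ∫⁻ t, a t := by ring
          _ = _ := by
            rw [← ENNReal.ofReal_mul (by norm_num), ← ENNReal.ofReal_mul hc0,
              ← ENNReal.ofReal_mul (by norm_num), ← ENNReal.ofReal_mul (by positivity)]
            congr 2
            rw [hc]
            ring

end

end Pool.Agent.H243.RP
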