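import Mathlib
import Pool.Agent.H243.RA.C8
import Pool.Agent.H243.RP.Q5
set_option autoImplicit false

/-! The turning part for the paraboloid: strong `L⁴` bound. -/

open MeasureTheory Set
open scoped ENNReal

namespace Pool.Agent.H243.RP

open Pool.Agent.H243.RA (BD ss ss_one ss_three TC turning)

/-- weighted Cauchy-Schwarz -/
theorem cs_w {X : Type*} [MeasurableSpace X] (μ : Measure X) (τ h : X → ℝ≥0∞) (hτ : Measurable τ)
    (hh : Measurable h) : (∫⁻ x, h x * τ x ∂μ) ^ 2 ≤ (∫⁻ x, τ x ∂μ) * ∫⁻ x, h x ^ 2 * τ x ∂μ := by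
  have hr : Measurable fun x => τ x ^ ((1 : ℝ) / 2) := hτ.pow_const _
  have h1 := ENNReal.lintegral_mul_le_Lp_mul_Lq μ (p := 2) (q := 2)
    (by rw [Real.holderConjugate_iff]; norm_num)
    (f := fun x => h x * τ x ^ ((1 : ℝ) / 2)) (g := fun x => τ x ^ ((1 : ℝ) / 2))
    (hh.mul hr).aemeasurable hr.aemeasurable
  have e0 : ∀ y : ℝ≥0∞, (y ^ ((1 : ℝ) / 2)) ^ (2 : ℝ) = y := fun y => by
    rw [← ENNReal.rpow_mul]; norm_num
  have e1 : ∀ x, (fun x => h x * τ x ^ ((1 : ℝ) / 2)) x * (fun x => τ x ^ ((1 : ℝ) / 2)) x = h x * τ x := by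
    intro x
    simp only
    rw [mul_assoc]
    congr 1
    have : τ x ^ ((1 : ℝ) / 2) * τ x ^ ((1 : ℝ) / 2) = (τ x ^ ((1 : ℝ) / 2)) ^ (2 : ℝ) := by
      rw [show (2 : ℝ) = ((2 : ℕ) : ℝ) by norm_num, ENNReal.rpow_natCast, sq]
    rw [this, e0]
  have e2 : ∀ x, (h x * τ x ^ ((1 : ℝ) / 2)) ^ (2 : ℝ) = h x ^ 2 * τ x := by
    intro x
    rw [ENNReal.mul_rpow_of_nonneg _ _ (by norm_num), e0,
      show (2 : ℝ) = ((2 : ℕ) : ℝ) by norm_num, ENNReal.rpow_natCast]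
  simp only [Pi.mul_apply, e1] at h1
  simp only [e0, e2] at h1
  calc (∫⁻ x, h x * τ x ∂μ) ^ 2
      ≤ ((∫⁻ x, h x ^ 2 * τ x ∂μ) ^ ((1 : ℝ) / 2) * (∫⁻ x, τ x ∂μ) ^ ((1 : ℝ) / 2)) ^ 2 :=
        pow_le_pow_left' h1 2
    _ = _ := by
        rw [mul_pow, ← ENNReal.rpow_natCast, ← ENNReal.rpow_natCast ((∫⁻ x, τ x ∂μ) ^ ((1 : ℝ) / 2))]
        simp only [Nat.cast_ofNat, e0]
        rw [mul_comm]

theorem cauchy3 (a b F c : ℝ) (hab : a ≤ b) (hF : 0 < F) :
    ∫⁻ t in Ioc a b, ENNReal.ofReal ((1 + (t - c) ^ 2 / F ^ 2)⁻¹) ≤ ENNReal.ofReal (Real.pi * F) := by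
  have hd : ∀ t : ℝ, HasDerivAt (fun t => F * Real.arctan ((t - c) / F)) ((1 + (t - c) ^ 2 / F ^ 2)⁻¹) t := by
    intro t
    have h1 := ((((hasDerivAt_id t).sub_const c).div_const F).arctan).const_mul F
    refine HasDerivAt.congr_deriv h1 ?_
    simp only [id]
    field_simp
  have hc : Continuous fun t : ℝ => (1 + (t - c) ^ 2 / F ^ 2)⁻¹ := by
    apply Continuous.inv₀ (by fun_prop)
    intro t
    positivity
  rw [← ofReal_integral_eq_lintegral_ofReal]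
  · apply ENNReal.ofReal_le_ofReal
    rw [← intervalIntegral.integral_of_le hab,
      intervalIntegral.integral_eq_sub_of_hasDerivAt (fun u _ => hd u) (hc.intervalIntegrable _ _)]
    have h1 := Real.arctan_lt_pi_div_two ((b - c) / F)
    have h2 := Real.neg_pi_div_two_lt_arctan ((a - c) / F)
    nlinarith
  · exact (hc.integrableOn_Icc (a := a) (b := b)).mono_set Ioc_subset_Icc_self
  · exact Filter.Eventually.of_forall fun u => by positivity

/-- the decay weight -/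
noncomputable def qq (ν x t : ℝ) : ℝ := ((1 + |(x * qs t) ^ 2 - ν ^ 2| / ss ν ^ 4) ^ 2)⁻¹

theorem qq_nonneg (ν x t : ℝ) : 0 ≤ qq ν x t := by unfold qq; positivity

theorem qq_le_one (ν x t : ℝ) : qq ν x t ≤ 1 := by
  unfold qq
  apply inv_le_one_of_one_le₀
  have h1 : 0 ≤ |(x * qs t) ^ 2 - ν ^ 2| / ss ν ^ 4 := by
    have := ss_one ν
    positivity
  nlinarith

theorem qq_meas (ν : ℝ) : Measurable fun p : ℝ × ℝ => qq ν p.1 p.2 := by
  have := qs_meas
  unfold qq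
  fun_prop

theorem qq_le (ν : ℝ) {x t F c s : ℝ} (_hF : 0 < F)
    (h : |s - c| / F ≤ |(x * qs t) ^ 2 - ν ^ 2| / ss ν ^ 4) :
    qq ν x t ≤ (1 + (s - c) ^ 2 / F ^ 2)⁻¹ := by
  unfold qq
  have h0 : 0 ≤ |s - c| / F := by positivity
  apply inv_anti₀ (by positivity)
  have e : (s - c) ^ 2 / F ^ 2 = (|s - c| / F) ^ 2 := by rw [div_pow, sq_abs]
  rw [e]
  nlinarith

noncomputable def II (ν x : ℝ) : ℝ≥0∞ := ∫⁻ t in Ioo (1 / 4 : ℝ) 1, ENNReal.ofReal (qq ν x t)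

theorem II_le (ν : ℝ) {x : ℝ} (hx : 0 < x) : II ν x ≤ ENNReal.ofReal (Real.pi * (ss ν ^ 4 / x ^ 2)) := by
  have hs := ss_one ν
  have hs4 : 0 < ss ν ^ 4 := by positivity
  unfold II
  calc ∫⁻ t in Ioo (1 / 4 : ℝ) 1, ENNReal.ofReal (qq ν x t)
      ≤ ∫⁻ t in Ioo (1 / 4 : ℝ) 1, ENNReal.ofReal ((1 + (t - ν ^ 2 / x ^ 2) ^ 2 / (ss ν ^ 4 / x ^ 2) ^ 2)⁻¹) := by
        apply setLIntegral_mono' measurableSet_Ioo
        intro t ht
        apply ENNReal.ofReal_le_ofReal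
        apply qq_le ν (by positivity)
        have e : (x * qs t) ^ 2 - ν ^ 2 = x ^ 2 * (t - ν ^ 2 / x ^ 2) := by
          unfold qs
          rw [mul_pow, Real.sq_sqrt (by linarith [ht.1])]
          field_simp
        rw [e, abs_mul, abs_of_pos (by positivity : (0 : ℝ) < x ^ 2)]
        apply le_of_eq
        field_simp
    _ ≤ ∫⁻ t in Ioc (1 / 4 : ℝ) 1, ENNReal.ofReal ((1 + (t - ν ^ 2 / x ^ 2) ^ 2 / (ss ν ^ 4 / x ^ 2) ^ 2)⁻¹) :=
        lintegral_mono_set Ioo_subset_Ioc_self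
    _ ≤ _ := cauchy3 _ _ _ _ (by norm_num) (by positivity)

theorem qx_int (ν : ℝ) (hν : 0 ≤ ν) {t Λ : ℝ} (ht : t ∈ Ioo (1 / 4 : ℝ) 1) (hΛ : 1 ≤ Λ) :
    ∫⁻ x in Ioc Λ (2 * Λ), ENNReal.ofReal (qq ν x t) ≤ ENNReal.ofReal (Real.pi * (4 * ss ν ^ 4 / Λ)) := by
  have hs := ss_one ν
  have hs4 : 0 < ss ν ^ 4 := by positivity
  have ht0 : 0 < t := by linarith [ht.1]
  have hq0 : 0 < qs t := qs_pos ht0
  have hq2 : qs t ^ 2 = t := Real.sq_sqrt ht0.le
  have hΛ0 : 0 < Λ := by linarith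
  calc ∫⁻ x in Ioc Λ (2 * Λ), ENNReal.ofReal (qq ν x t)
      ≤ ∫⁻ x in Ioc Λ (2 * Λ), ENNReal.ofReal ((1 + (x - ν / qs t) ^ 2 / (4 * ss ν ^ 4 / Λ) ^ 2)⁻¹) := by
        apply setLIntegral_mono' measurableSet_Ioc
        intro x hx
        have hx0 : 0 < x := hΛ0.trans hx.1
        apply ENNReal.ofReal_le_ofReal
        apply qq_le ν (by positivity)
        have e : (x * qs t) ^ 2 - ν ^ 2 = (x - ν / qs t) * (qs t * (x * qs t + ν)) := by
          field_simp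
          ring
        rw [e, abs_mul, abs_of_pos (by positivity : (0 : ℝ) < qs t * (x * qs t + ν))]
        have h1 : Λ / 4 ≤ qs t * (x * qs t + ν) := by
          have h2 : qs t * (x * qs t + ν) = x * t + qs t * ν := by
            linear_combination x * hq2
          rw [h2]
          have h3 : 0 ≤ qs t * ν := by positivity
          nlinarith [hx.1, ht.1]
        rw [div_le_div_iff₀ (by positivity) (by positivity)]
        have h4 : 0 ≤ |x - ν / qs t| := abs_nonneg _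
        calc |x - ν / qs t| * ss ν ^ 4 = |x - ν / qs t| * (Λ / 4) * (4 * ss ν ^ 4 / Λ) := by
              field_simp
          _ ≤ |x - ν / qs t| * (qs t * (x * qs t + ν)) * (4 * ss ν ^ 4 / Λ) := by
              gcongr
    _ ≤ _ := cauchy3 _ _ _ _ (by linarith) (by positivity)

/-- the weight integral -/
theorem wt_int (ν : ℝ) (hν : 0 ≤ ν) {t Λ : ℝ} (ht : t ∈ Ioo (1 / 4 : ℝ) 1) (hΛ : 1 ≤ Λ) :
    ∫⁻ x in Ioc Λ (2 * Λ), II ν x ^ 2 * ENNReal.ofReal (qq ν x t) ≤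
      ENNReal.ofReal (ss ν ^ 4 * (524288 * Λ ^ (-2 : ℝ))) := by
  have hs := ss_one ν
  have hs4 : 0 < ss ν ^ 4 := by positivity
  have hs3 := ss_three ν
  have ht0 : 0 < t := by linarith [ht.1]
  have hΛ0 : 0 < Λ := by linarith
  have hpi := Real.pi_pos
  have hpi4 : Real.pi ≤ 3.15 := Real.pi_lt_d2.le
  have eΛ : Λ ^ (-2 : ℝ) = (Λ ^ 2)⁻¹ := by
    rw [Real.rpow_neg hΛ0.le]
    norm_num
  rw [eΛ]
  rcases le_or_gt ν (16 * Λ) with hc | hc
  · have hII : ∀ x ∈ Ioc Λ (2 * Λ), II ν x ^ 2 ≤ ENNReal.ofReal ((Real.pi * (ss ν ^ 4 / Λ ^ 2)) ^ 2) := by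
      intro x hx
      have hx0 : 0 < x := hΛ0.trans hx.1
      rw [ENNReal.ofReal_pow (by positivity)]
      apply pow_le_pow_left'
      refine (II_le ν hx0).trans (ENNReal.ofReal_le_ofReal ?_)
      have := hx.1
      gcongr
    have hmx : ss ν ^ 3 ≤ 16 * Λ := by
      rw [hs3]
      exact max_le (by linarith) hc
    calc ∫⁻ x in Ioc Λ (2 * Λ), II ν x ^ 2 * ENNReal.ofReal (qq ν x t)
        ≤ ∫⁻ x in Ioc Λ (2 * Λ), ENNReal.ofReal ((Real.pi * (ss ν ^ 4 / Λ ^ 2)) ^ 2) *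
            ENNReal.ofReal (qq ν x t) := by
          apply setLIntegral_mono' measurableSet_Ioc
          intro x hx
          exact mul_le_mul' (hII x hx) le_rfl
      _ = ENNReal.ofReal ((Real.pi * (ss ν ^ 4 / Λ ^ 2)) ^ 2) *
            ∫⁻ x in Ioc Λ (2 * Λ), ENNReal.ofReal (qq ν x t) :=
          lintegral_const_mul' _ _ ENNReal.ofReal_ne_top
      _ ≤ ENNReal.ofReal ((Real.pi * (ss ν ^ 4 / Λ ^ 2)) ^ 2) *
            ENNReal.ofReal (Real.pi * (4 * ss ν ^ 4 / Λ)) := mul_le_mul' le_rfl (qx_int ν hν ht hΛ)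
      _ ≤ _ := by
          rw [← ENNReal.ofReal_mul (by positivity)]
          apply ENNReal.ofReal_le_ofReal
          have h8 : ss ν ^ 8 ≤ 4096 * Λ ^ 3 := by
            calc ss ν ^ 8 ≤ ss ν ^ 9 := pow_le_pow_right₀ hs (by norm_num)
              _ = (ss ν ^ 3) ^ 3 := by ring
              _ ≤ (16 * Λ) ^ 3 := pow_le_pow_left₀ (by positivity) hmx 3
              _ = _ := by ring
          have hpi3 : Real.pi ^ 3 ≤ 32 := by
            calc Real.pi ^ 3 ≤ 3.15 ^ 3 := pow_le_pow_left₀ hpi.le hpi4 3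
              _ ≤ 32 := by norm_num
          calc (Real.pi * (ss ν ^ 4 / Λ ^ 2)) ^ 2 * (Real.pi * (4 * ss ν ^ 4 / Λ))
              = 4 * Real.pi ^ 3 * ss ν ^ 4 * ss ν ^ 8 / Λ ^ 5 := by
                field_simp
            _ ≤ 4 * 32 * ss ν ^ 4 * (4096 * Λ ^ 3) / Λ ^ 5 := by
                gcongr
            _ = _ := by
                field_simp
                norm_num
  · have hν1 : 1 ≤ ν := by linarith
    have hs3' : ss ν ^ 3 = ν := by rw [hs3, max_eq_right hν1]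
    have hqq : ∀ x ∈ Ioc Λ (2 * Λ), ∀ t ∈ Ioo (1 / 4 : ℝ) 1, qq ν x t ≤ 4 * (ss ν ^ 4)⁻¹ := by
      intro x hx t ht
      have hx0 : 0 < x := hΛ0.trans hx.1
      have ht0 : 0 < t := by linarith [ht.1]
      have h1 : (x * qs t) ^ 2 ≤ ν ^ 2 / 2 := by
        unfold qs
        rw [mul_pow, Real.sq_sqrt ht0.le]
        have h2 : x ^ 2 ≤ (2 * Λ) ^ 2 := pow_le_pow_left₀ hx0.le hx.2 2
        have h3 : x ^ 2 * t ≤ x ^ 2 * 1 := mul_le_mul_of_nonneg_left ht.2.le (by positivity)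
        nlinarith
      have h2 : ν ^ 2 / 2 ≤ |(x * qs t) ^ 2 - ν ^ 2| := by
        rw [abs_sub_comm]
        refine le_trans ?_ (le_abs_self _)
        linarith
      unfold qq
      have h3 : ν ^ 2 / 2 / ss ν ^ 4 ≤ 1 + |(x * qs t) ^ 2 - ν ^ 2| / ss ν ^ 4 := by
        have : ν ^ 2 / 2 / ss ν ^ 4 ≤ |(x * qs t) ^ 2 - ν ^ 2| / ss ν ^ 4 := by gcongr
        linarith
      have h4 : 0 < ν ^ 2 / 2 / ss ν ^ 4 := by positivity
      calc _ ≤ ((ν ^ 2 / 2 / ss ν ^ 4) ^ 2)⁻¹ := by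
            apply inv_anti₀ (by positivity)
            exact pow_le_pow_left₀ h4.le h3 2
        _ = _ := by
            have e8 : ν ^ 2 = ss ν ^ 4 * ss ν ^ 2 := by
              calc ν ^ 2 = (ss ν ^ 3) ^ 2 := by rw [hs3']
                _ = _ := by ring
            rw [e8]
            field_simp
            norm_num
    have hII : ∀ x ∈ Ioc Λ (2 * Λ), II ν x ≤ ENNReal.ofReal (4 * (ss ν ^ 4)⁻¹) := by
      intro x hx
      unfold II
      calc _ ≤ ∫⁻ t in Ioo (1 / 4 : ℝ) 1, ENNReal.ofReal (4 * (ss ν ^ 4)⁻¹) := by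
            apply setLIntegral_mono' measurableSet_Ioo
            intro t ht
            exact ENNReal.ofReal_le_ofReal (hqq x hx t ht)
        _ ≤ ENNReal.ofReal (4 * (ss ν ^ 4)⁻¹) * 1 := by
            rw [setLIntegral_const, Real.volume_Ioo]
            gcongr
            rw [ENNReal.ofReal_le_one]
            norm_num
        _ = _ := mul_one _
    calc ∫⁻ x in Ioc Λ (2 * Λ), II ν x ^ 2 * ENNReal.ofReal (qq ν x t)
        ≤ ∫⁻ x in Ioc Λ (2 * Λ), ENNReal.ofReal (4 * (ss ν ^ 4)⁻¹) ^ 2 *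
            ENNReal.ofReal (4 * (ss ν ^ 4)⁻¹) := by
          apply setLIntegral_mono' measurableSet_Ioc
          intro x hx
          exact mul_le_mul' (pow_le_pow_left' (hII x hx) 2) (ENNReal.ofReal_le_ofReal (hqq x hx t ht))
      _ = ENNReal.ofReal ((4 * (ss ν ^ 4)⁻¹) ^ 3) * ENNReal.ofReal Λ := by
          rw [setLIntegral_const, Real.volume_Ioc, ← ENNReal.ofReal_pow (by positivity),
            ← ENNReal.ofReal_mul (by positivity)]
          congr 2 <;> ring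
      _ ≤ _ := by
          rw [← ENNReal.ofReal_mul (by positivity)]
          apply ENNReal.ofReal_le_ofReal
          have h16 : Λ ^ 3 ≤ ss ν ^ 16 := by
            calc Λ ^ 3 ≤ ν ^ 3 := pow_le_pow_left₀ hΛ0.le (by linarith) 3
              _ = (ss ν ^ 3) ^ 3 := by rw [hs3']
              _ = ss ν ^ 9 := by ring
              _ ≤ _ := pow_le_pow_right₀ hs (by norm_num)
          calc (4 * (ss ν ^ 4)⁻¹) ^ 3 * Λ = 64 * ss ν ^ 4 * Λ / ss ν ^ 16 := by
                field_simp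
                norm_num
            _ ≤ 64 * ss ν ^ 4 * Λ / Λ ^ 3 := by gcongr
            _ = 64 * (ss ν ^ 4 * (Λ ^ 2)⁻¹) := by field_simp
            _ ≤ 524288 * (ss ν ^ 4 * (Λ ^ 2)⁻¹) := by
                apply mul_le_mul_of_nonneg_right (by norm_num) (by positivity)
            _ = _ := by ring

end Pool.Agent.H243.RP
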