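import Mathlib
import Pool.Agent.H243.RA.C9
import Pool.Agent.H243.RP.Q6
set_option autoImplicit false

/-! The turning part for the paraboloid: strong `L⁴` bound. -/

open MeasureTheory Set
open scoped ENNReal

namespace Pool.Agent.H243.RP

open Pool.Agent.H243.RA (BD ss ss_one ss_three TC turning exp_norm_one)

section
variable {ν C : ℝ} {j k : ℝ → ℝ}

/-- the turning part of `j` -/
noncomputable def T0 (ν : ℝ) (j : ℝ → ℝ) (x t : ℝ) : ℝ :=
  open Classical in
  if (0 < x ∧ 0 < t ∧ t < 1) ∧ (x * qs t) ^ 2 - ν ^ 2 ≤ ss ν ^ 4 then j (x * qs t) else 0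

theorem T0_meas (hj : Measurable j) : Measurable (Function.uncurry (T0 ν j)) := by
  have h3 := qs_meas
  have hx : Measurable fun p : ℝ × ℝ => p.1 * qs p.2 :=
    measurable_fst.mul (h3.comp measurable_snd)
  unfold T0
  apply Measurable.ite
  · apply MeasurableSet.inter
    · exact (measurableSet_lt measurable_const measurable_fst).inter
        ((measurableSet_lt measurable_const measurable_snd).inter
          (measurableSet_lt measurable_snd measurable_const))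
    · exact measurableSet_le ((hx.pow_const 2).sub_const _) measurable_const
  · exact hj.comp hx
  · exact measurable_const

theorem T0_sq (h : BD ν C j k) (x t : ℝ) : T0 ν j x t ^ 2 ≤ TC C / ss ν ^ 2 * qq ν x t ^ 2 := by
  have hC := h.C_nonneg
  have hs1 := ss_one ν
  have hs0 : 0 < ss ν := by linarith
  have hT : 0 ≤ TC C := by unfold TC; positivity
  unfold T0
  split_ifs with hc
  · obtain ⟨⟨hx, ht0, ht1⟩, h1⟩ := hc
    have hcs := qs_pos ht0
    have h2 := turning h (mul_pos hx hcs) h1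
    unfold qq
    set q := 1 + |(x * qs t) ^ 2 - ν ^ 2| / ss ν ^ 4 with hq
    have hq0 : 0 < q := by rw [hq]; positivity
    have e : TC C / ss ν ^ 2 * ((q ^ 2)⁻¹) ^ 2 = TC C / (ss ν ^ 2 * q ^ 4) := by
      field_simp
    rw [e, le_div_iff₀ (by positivity)]
    unfold TC
    calc _ = ss ν ^ 2 * j (x * qs t) ^ 2 * q ^ 4 := by ring
      _ ≤ _ := h2
  · have := qq_nonneg ν x t
    rw [zero_pow two_ne_zero]
    positivity

theorem turn_bound (h : BD ν C j k) (hj : Measurable j) {Λ : ℝ}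
    (hΛ : 1 ≤ Λ) (g : ℝ → ℂ) (hg : Measurable g) {B0 : ℝ} (hg1 : ∀ t, ‖g t‖ ≤ B0)
    (hg0 : ∀ t, t ∉ Ioo (1 / 4 : ℝ) 1 → g t = 0) :
    ∫⁻ x in Ioc Λ (2 * Λ), ∫⁻ z : ℝ, ‖∫ t in Ioo (0 : ℝ) 1,
        Complex.exp (-((z * t : ℝ) : ℂ) * Complex.I) * (g t * (T0 ν j x t : ℂ))‖ₑ ^ 4 ≤
      ENNReal.ofReal (1048576 * Real.pi * TC C ^ 2 * Λ ^ (-2 : ℝ)) * ∫⁻ t, ‖g t‖ₑ ^ 4 := by
  have hC := h.C_nonneg
  have hs1 := ss_one ν
  have hs0 : 0 < ss ν := by linarith
  have hB0 : 0 ≤ B0 := (norm_nonneg _).trans (hg1 0)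
  have hΛ0 : 0 < Λ := by linarith
  have hT : 0 ≤ TC C := by unfold TC; positivity
  have hpi := Real.pi_pos
  have hTm := T0_meas (ν := ν) hj
  have hqm := qq_meas ν
  -- pointwise bound
  have hTb : ∀ x t, |T0 ν j x t| ≤ Real.sqrt (TC C / ss ν ^ 2) * qq ν x t := by
    intro x t
    apply abs_le_of_sq_le_sq _ (mul_nonneg (Real.sqrt_nonneg _) (qq_nonneg ν x t))
    rw [mul_pow, Real.sq_sqrt (by positivity)]
    exact T0_sq h x t
  set a : ℝ := Real.sqrt (TC C / ss ν ^ 2) with ha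
  have ha0 : 0 ≤ a := Real.sqrt_nonneg _
  have ha2 : a ^ 2 = TC C / ss ν ^ 2 := Real.sq_sqrt (by positivity)
  set G : ℝ → ℝ≥0∞ := fun t => ‖g t‖ₑ with hG
  have hGm : Measurable G := hg.enorm
  have key : ∀ x, ∫⁻ z : ℝ, ‖∫ t in Ioo (0 : ℝ) 1,
        Complex.exp (-((z * t : ℝ) : ℂ) * Complex.I) * (g t * (T0 ν j x t : ℂ))‖ₑ ^ 4 ≤
      ENNReal.ofReal (2 * Real.pi * a ^ 4) * ∫⁻ t in Ioo (1 / 4 : ℝ) 1,
        II ν x ^ 2 * (G t ^ 4 * ENNReal.ofReal (qq ν x t)) := by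
    intro x
    set f : ℝ → ℂ := fun t => g t * (T0 ν j x t : ℂ) with hf
    have hfm : Measurable f :=
      hg.mul (Complex.measurable_ofReal.comp (hTm.comp (measurable_const.prodMk measurable_id)))
    have hqm1 : Measurable fun t => ENNReal.ofReal (qq ν x t) :=
      (hqm.comp (measurable_const.prodMk measurable_id)).ennreal_ofReal
    set τ : ℝ → ℝ≥0∞ := fun t => ENNReal.ofReal a * ENNReal.ofReal (qq ν x t) with hτ
    have hτm : Measurable τ := hqm1.const_mul _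
    have hfe : ∀ t, ‖f t‖ₑ ≤ G t * τ t := by
      intro t
      simp only [hf, hG, hτ]
      rw [enorm_mul]
      refine mul_le_mul' le_rfl ?_
      rw [← ENNReal.ofReal_mul ha0, ← ofReal_norm, Complex.norm_real, Real.norm_eq_abs]
      exact ENNReal.ofReal_le_ofReal (hTb x t)
    have hf0 : ∀ t, t ∉ Ioo (1 / 4 : ℝ) 1 → f t = 0 := by
      intro t ht
      simp only [hf]
      rw [hg0 t ht, zero_mul]
    have hfb' : ∀ t, ‖f t‖ ≤ B0 * a := by
      intro t
      simp only [hf]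
      rw [norm_mul, Complex.norm_real, Real.norm_eq_abs]
      refine mul_le_mul (hg1 t) ?_ (abs_nonneg _) hB0
      refine (hTb x t).trans ?_
      have := mul_le_mul_of_nonneg_left (qq_le_one ν x t) ha0
      linarith
    have hτ_le : ∀ t, τ t ≤ ENNReal.ofReal a := by
      intro t
      simp only [hτ]
      calc _ ≤ ENNReal.ofReal a * 1 := by
            gcongr
            rw [ENNReal.ofReal_le_one]
            exact qq_le_one ν x t
        _ = _ := mul_one _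
    have hsub : Ioo (1 / 4 : ℝ) 1 ⊆ Ioo 0 1 := Ioo_subset_Ioo_left (by norm_num)
    have hres : ∀ F : ℝ → ℝ≥0∞, (∀ t, t ∉ Ioo (1 / 4 : ℝ) 1 → F t = 0) →
        ∫⁻ t in Ioo (0 : ℝ) 1, F t = ∫⁻ t in Ioo (1 / 4 : ℝ) 1, F t := by
      intro F hF
      rw [← lintegral_indicator measurableSet_Ioo, ← lintegral_indicator measurableSet_Ioo]
      refine lintegral_congr fun t => ?_
      by_cases ht : t ∈ Ioo (1 / 4 : ℝ) 1
      · rw [indicator_of_mem ht, indicator_of_mem (hsub ht)]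
      · rw [indicator_of_notMem ht]
        by_cases ht' : t ∈ Ioo (0 : ℝ) 1
        · rw [indicator_of_mem ht', hF t ht]
        · rw [indicator_of_notMem ht']
    set μ := (volume : Measure ℝ).restrict (Ioo (1 / 4 : ℝ) 1) with hμ
    -- sup bound
    have hsup : ∀ z : ℝ, ‖∫ t in Ioo (0 : ℝ) 1, Complex.exp (-((z * t : ℝ) : ℂ) * Complex.I) * f t‖ₑ ≤
        ∫⁻ t, G t * τ t ∂μ := by
      intro z
      refine (enorm_integral_le_lintegral_enorm _).trans ?_
      rw [hres _ (fun t ht => by rw [hf0 t ht, mul_zero, enorm_zero])]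
      apply lintegral_mono
      intro t
      dsimp only
      rw [enorm_mul]
      have e1 : ‖Complex.exp (-((z * t : ℝ) : ℂ) * Complex.I)‖ₑ = 1 := by
        rw [← ofReal_norm, exp_norm_one, ENNReal.ofReal_one]
      rw [e1, one_mul]
      exact hfe t
    -- Plancherel
    have hpl := Pool.Agent.H789R2.FR.pl_phase (Ioo (0 : ℝ) 1) measurableSet_Ioo (by simp) (fun c => c)
      (fun _ => 1) measurable_id measurable_const (fun c _ => hasDerivWithinAt_id c _)
      (fun _ _ => one_ne_zero) (injOn_id _) f hfm ⟨B0 * a, hfb'⟩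
    have hL2 : ∫⁻ c in Ioo (0 : ℝ) 1, ENNReal.ofReal (‖f c‖ ^ 2 / |(1 : ℝ)|) ≤
        ENNReal.ofReal a * ∫⁻ t, G t ^ 2 * τ t ∂μ := by
      rw [hres _ (fun t ht => by rw [hf0 t ht, norm_zero]; simp), ← lintegral_const_mul' _ _
        ENNReal.ofReal_ne_top]
      apply lintegral_mono
      intro t
      dsimp only
      rw [abs_one, div_one, ENNReal.ofReal_pow (norm_nonneg _), ofReal_norm]
      calc ‖f t‖ₑ ^ 2 ≤ (G t * τ t) ^ 2 := pow_le_pow_left' (hfe t) 2
        _ = τ t * (G t ^ 2 * τ t) := by ring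
        _ ≤ _ := mul_le_mul' (hτ_le t) le_rfl
    have hGfin : ∫⁻ t, G t * τ t ∂μ ≠ ∞ := by
      have : ∫⁻ t, G t * τ t ∂μ ≤ ∫⁻ _t, ENNReal.ofReal B0 * ENNReal.ofReal a ∂μ := by
        apply lintegral_mono
        intro t
        refine mul_le_mul' ?_ (hτ_le t)
        simp only [hG]
        rw [← ofReal_norm]
        exact ENNReal.ofReal_le_ofReal (hg1 t)
      refine ne_top_of_le_ne_top ?_ this
      rw [lintegral_const]
      apply ENNReal.mul_ne_top
      · exact ENNReal.mul_ne_top ENNReal.ofReal_ne_top ENNReal.ofReal_ne_top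
      · rw [hμ, Measure.restrict_apply_univ, Real.volume_Ioo]
        exact ENNReal.ofReal_ne_top
    have hm_eq : ∫⁻ t, τ t ∂μ = ENNReal.ofReal a * II ν x := by
      simp only [hτ]
      rw [lintegral_const_mul _ hqm1]
      rfl
    have c1 := cs_w μ τ G hτm hGm
    have c2 := cs_w μ τ (fun t => G t ^ 2) hτm (hGm.pow_const 2)
    have e4' : ∀ t, ((fun t => G t ^ 2) t) ^ 2 = G t ^ 4 := fun t => by simp only; ring
    simp only [e4'] at c2
    calc ∫⁻ z : ℝ, ‖∫ t in Ioo (0 : ℝ) 1, Complex.exp (-((z * t : ℝ) : ℂ) * Complex.I) * f t‖ₑ ^ 4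
        ≤ ∫⁻ z : ℝ, (∫⁻ t, G t * τ t ∂μ) ^ 2 * ENNReal.ofReal (‖∫ t in Ioo (0 : ℝ) 1,
            Complex.exp (-((z * t : ℝ) : ℂ) * Complex.I) * f t‖ ^ 2) := by
          apply lintegral_mono
          intro z
          dsimp only
          have e4 : ∀ y : ℝ≥0∞, y ^ 4 = y ^ 2 * y ^ 2 := fun y => by ring
          rw [e4]
          refine mul_le_mul' (pow_le_pow_left' (hsup z) 2) ?_
          rw [ENNReal.ofReal_pow (norm_nonneg _), ofReal_norm]
      _ = (∫⁻ t, G t * τ t ∂μ) ^ 2 * ∫⁻ z : ℝ, ENNReal.ofReal (‖∫ t in Ioo (0 : ℝ) 1,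
            Complex.exp (-((z * t : ℝ) : ℂ) * Complex.I) * f t‖ ^ 2) :=
          lintegral_const_mul' _ _ (ENNReal.pow_ne_top hGfin)
      _ ≤ (∫⁻ t, G t * τ t ∂μ) ^ 2 * (ENNReal.ofReal (2 * Real.pi) *
            (ENNReal.ofReal a * ∫⁻ t, G t ^ 2 * τ t ∂μ)) := by
          refine mul_le_mul' le_rfl (hpl.trans (mul_le_mul' le_rfl hL2))
      _ ≤ ((∫⁻ t, τ t ∂μ) * ∫⁻ t, G t ^ 2 * τ t ∂μ) * (ENNReal.ofReal (2 * Real.pi) *
            (ENNReal.ofReal a * ∫⁻ t, G t ^ 2 * τ t ∂μ)) := mul_le_mul' c1 le_rfl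
      _ = (ENNReal.ofReal (2 * Real.pi) * ENNReal.ofReal a * ∫⁻ t, τ t ∂μ) *
            (∫⁻ t, G t ^ 2 * τ t ∂μ) ^ 2 := by ring
      _ ≤ (ENNReal.ofReal (2 * Real.pi) * ENNReal.ofReal a * ∫⁻ t, τ t ∂μ) *
            ((∫⁻ t, τ t ∂μ) * ∫⁻ t, G t ^ 4 * τ t ∂μ) := mul_le_mul' le_rfl c2
      _ = _ := by
          have e5 : ∫⁻ t, G t ^ 4 * τ t ∂μ = ENNReal.ofReal a *
              ∫⁻ t, G t ^ 4 * ENNReal.ofReal (qq ν x t) ∂μ := by
            rw [← lintegral_const_mul' _ _ ENNReal.ofReal_ne_top]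
            refine lintegral_congr fun t => ?_
            simp only [hτ]
            ring
          have e6 : ∫⁻ t, II ν x ^ 2 * (G t ^ 4 * ENNReal.ofReal (qq ν x t)) ∂μ =
              II ν x ^ 2 * ∫⁻ t, G t ^ 4 * ENNReal.ofReal (qq ν x t) ∂μ :=
            lintegral_const_mul _ ((hGm.pow_const 4).mul hqm1)
          rw [e5, e6, hm_eq]
          have e7 : ENNReal.ofReal (2 * Real.pi * a ^ 4) = ENNReal.ofReal (2 * Real.pi) *
              ENNReal.ofReal a ^ 4 := by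
            rw [ENNReal.ofReal_mul (by positivity), ENNReal.ofReal_pow ha0]
          rw [e7]
          ring
  have hIIm : Measurable fun x => II ν x := by
    unfold II
    have : Measurable fun p : ℝ × ℝ => ENNReal.ofReal (qq ν p.1 p.2) := hqm.ennreal_ofReal
    exact this.lintegral_prod_right'
  have hmm : Measurable (Function.uncurry fun (x t : ℝ) =>
      II ν x ^ 2 * (G t ^ 4 * ENNReal.ofReal (qq ν x t))) := by
    have m1 : Measurable fun p : ℝ × ℝ => ENNReal.ofReal (qq ν p.1 p.2) := hqm.ennreal_ofReal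
    exact ((hIIm.comp measurable_fst).pow_const 2).mul (((hGm.comp measurable_snd).pow_const 4).mul m1)
  calc ∫⁻ x in Ioc Λ (2 * Λ), ∫⁻ z : ℝ, ‖∫ t in Ioo (0 : ℝ) 1,
        Complex.exp (-((z * t : ℝ) : ℂ) * Complex.I) * (g t * (T0 ν j x t : ℂ))‖ₑ ^ 4
      ≤ ∫⁻ x in Ioc Λ (2 * Λ), ENNReal.ofReal (2 * Real.pi * a ^ 4) * ∫⁻ t in Ioo (1 / 4 : ℝ) 1,
        II ν x ^ 2 * (G t ^ 4 * ENNReal.ofReal (qq ν x t)) :=
        lintegral_mono key
    _ = ENNReal.ofReal (2 * Real.pi * a ^ 4) * ∫⁻ x in Ioc Λ (2 * Λ), ∫⁻ t in Ioo (1 / 4 : ℝ) 1,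
        II ν x ^ 2 * (G t ^ 4 * ENNReal.ofReal (qq ν x t)) :=
        lintegral_const_mul' _ _ ENNReal.ofReal_ne_top
    _ = ENNReal.ofReal (2 * Real.pi * a ^ 4) * ∫⁻ t in Ioo (1 / 4 : ℝ) 1, ∫⁻ x in Ioc Λ (2 * Λ),
        II ν x ^ 2 * (G t ^ 4 * ENNReal.ofReal (qq ν x t)) := by
        rw [lintegral_lintegral_swap hmm.aemeasurable]
    _ ≤ ENNReal.ofReal (2 * Real.pi * a ^ 4) * ∫⁻ t in Ioo (1 / 4 : ℝ) 1,
        ENNReal.ofReal (ss ν ^ 4 * (524288 * Λ ^ (-2 : ℝ))) * G t ^ 4 := by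
        refine mul_le_mul' le_rfl ?_
        apply setLIntegral_mono' measurableSet_Ioo
        intro t ht
        have m2 : Measurable fun x : ℝ => II ν x ^ 2 * ENNReal.ofReal (qq ν x t) :=
          (hIIm.pow_const 2).mul ((hqm.comp (measurable_id.prodMk measurable_const)).ennreal_ofReal)
        calc ∫⁻ x in Ioc Λ (2 * Λ), II ν x ^ 2 * (G t ^ 4 * ENNReal.ofReal (qq ν x t))
            = ∫⁻ x in Ioc Λ (2 * Λ), (II ν x ^ 2 * ENNReal.ofReal (qq ν x t)) * G t ^ 4 := by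
              refine lintegral_congr fun x => ?_
              ring
          _ = (∫⁻ x in Ioc Λ (2 * Λ), II ν x ^ 2 * ENNReal.ofReal (qq ν x t)) * G t ^ 4 :=
              lintegral_mul_const _ m2
          _ ≤ _ := mul_le_mul' (wt_int ν h.nn ht hΛ) le_rfl
    _ ≤ ENNReal.ofReal (2 * Real.pi * a ^ 4) *
        (ENNReal.ofReal (ss ν ^ 4 * (524288 * Λ ^ (-2 : ℝ))) * ∫⁻ t, G t ^ 4) := by
        rw [lintegral_const_mul' _ _ ENNReal.ofReal_ne_top]
        gcongr
        exact Measure.restrict_le_self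
    _ = _ := by
        rw [← mul_assoc, ← ENNReal.ofReal_mul (by positivity)]
        congr 2
        have e8 : a ^ 4 = TC C ^ 2 / ss ν ^ 4 := by
          calc a ^ 4 = (a ^ 2) ^ 2 := by ring
            _ = _ := by rw [ha2, div_pow]; ring
        rw [e8]
        field_simp
        ring

end

end Pool.Agent.H243.RP
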