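import Mathlib
import Pool.Agent.H243.RP.Q7
set_option autoImplicit false

/-! Summing the pieces, for the paraboloid. -/

open MeasureTheory Set
open scoped ENNReal

namespace Pool.Agent.H243.RP

open Pool.Agent.H243.RA (BD ss ss_one ss_three TC turning exp_norm_one F1 F1_meas F1_int four_add
  four_sum om om_four om_ge exists_N N_le rr rr_pos ZZ cz cz_re G1)

section
variable {ν C : ℝ} {j k : ℝ → ℝ}

theorem dec (_h : BD ν C j k) (N : ℕ) {x t : ℝ} (hx : 0 < x) (ht0 : 0 < t) (ht1 : t < 1)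
    (hN : (x * qs t) ^ 2 - ν ^ 2 ≤ ss ν ^ 4 * 2 ^ N) :
    j (x * qs t) = T0 ν j x t + ∑ i ∈ Finset.range N, (Ap ν j k (om ν i) x t).re := by
  have hs1 := ss_one ν
  have hcs := qs_pos ht0
  have hA : ∀ i, (Ap ν j k (om ν i) x t).re =
      open Classical in if om ν i ^ 4 < (x * qs t) ^ 2 - ν ^ 2 ∧
        (x * qs t) ^ 2 - ν ^ 2 ≤ 2 * om ν i ^ 4 then j (x * qs t) else 0 := by
    intro i
    have hom0 : 0 < om ν i := by linarith [om_ge ν i]
    have hom : 0 < om ν i ^ 4 := by positivity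
    unfold Ap
    by_cases hc : om ν i ^ 4 < (x * qs t) ^ 2 - ν ^ 2 ∧ (x * qs t) ^ 2 - ν ^ 2 ≤ 2 * om ν i ^ 4
    · rw [if_pos ⟨⟨hx, ht0, ht1⟩, hc⟩, if_pos hc, Complex.re_ofReal_mul, cz_re]
      unfold ZZ
      have hr : 0 < rr ν (x * qs t) := rr_pos _ _ (by linarith [hc.1])
      field_simp
    · rw [if_neg (fun hcon => hc hcon.2), if_neg hc]
      rfl
  by_cases hc : (x * qs t) ^ 2 - ν ^ 2 ≤ ss ν ^ 4
  · have hT : T0 ν j x t = j (x * qs t) := by
      unfold T0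
      rw [if_pos ⟨⟨hx, ht0, ht1⟩, hc⟩]
    rw [hT, Finset.sum_eq_zero, add_zero]
    intro i _
    rw [hA, if_neg]
    rintro ⟨h1, _⟩
    have h2 : ss ν ^ 4 ≤ om ν i ^ 4 := pow_le_pow_left₀ (by linarith) (om_ge ν i) 4
    linarith
  · push Not at hc
    have hT : T0 ν j x t = 0 := by
      unfold T0
      rw [if_neg]
      rintro ⟨_, h1⟩
      linarith
    rw [hT, zero_add]
    classical
    have hex : ∃ n : ℕ, (x * qs t) ^ 2 - ν ^ 2 ≤ ss ν ^ 4 * 2 ^ n := ⟨N, hN⟩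
    set n := Nat.find hex with hn
    have hn1 := Nat.find_spec hex
    rw [← hn] at hn1
    have hn0 : n ≠ 0 := by
      intro h0
      rw [h0, pow_zero, mul_one] at hn1
      linarith
    obtain ⟨m, hm⟩ := Nat.exists_eq_succ_of_ne_zero hn0
    have hn2 : ss ν ^ 4 * 2 ^ m < (x * qs t) ^ 2 - ν ^ 2 := by
      have := Nat.find_min hex (m := m) (by omega)
      push Not at this
      exact this
    have hnN : n ≤ N := Nat.find_min' hex hN
    rw [Finset.sum_eq_single m]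
    · rw [hA, if_pos]
      rw [om_four]
      refine ⟨hn2, ?_⟩
      rw [hm, Nat.succ_eq_add_one, pow_succ (2 : ℝ) m] at hn1
      linarith
    · intro i _ hi
      rw [hA, if_neg]
      rw [om_four]
      rintro ⟨h1, h2⟩
      have hs4 : 0 < ss ν ^ 4 := by positivity
      rcases lt_or_gt_of_ne hi with hlt | hgt
      · have h3 : (2 : ℝ) ^ (i + 1) ≤ 2 ^ m := pow_le_pow_right₀ (by norm_num) (by omega)
        rw [pow_succ] at h3
        have h4 : ss ν ^ 4 * (2 ^ i * 2) ≤ ss ν ^ 4 * 2 ^ m := mul_le_mul_of_nonneg_left h3 hs4.le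
        linarith
      · have h3 : (2 : ℝ) ^ n ≤ 2 ^ i := pow_le_pow_right₀ (by norm_num) (by omega)
        have h4 : ss ν ^ 4 * 2 ^ n ≤ ss ν ^ 4 * 2 ^ i := mul_le_mul_of_nonneg_left h3 hs4.le
        linarith
    · intro hm'
      exfalso
      apply hm'
      rw [Finset.mem_range]
      omega

theorem Ap_conj_F1 (ω : ℝ) (g : ℝ → ℂ) (x z : ℝ) :
    ‖F1 (fun x t => g t * (starRingEnd ℂ) (Ap ν j k ω x t)) (x, z)‖ₑ =
      ‖F1 (fun x t => (starRingEnd ℂ) (g t) * Ap ν j k ω x t) (x, -z)‖ₑ := by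
  unfold F1
  rw [← ofReal_norm, ← ofReal_norm, ← RCLike.norm_conj (∫ t in Ioo (0 : ℝ) 1,
    Complex.exp (-(((x, z).2 * t : ℝ) : ℂ) * Complex.I) *
      (g t * (starRingEnd ℂ) (Ap ν j k ω (x, z).1 t))), ← integral_conj]
  congr 2
  congr 1
  funext t
  rw [map_mul, map_mul, Complex.conj_conj, ← Complex.exp_conj]
  congr 2
  simp only [map_mul, map_neg, Complex.conj_ofReal, Complex.conj_I]
  push_cast
  ring

theorem core_ptw (h : BD ν C j k) (hj : Measurable j) (hk : Measurable k) {Λ : ℝ} (hΛ : 1 ≤ Λ)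
    (g : ℝ → ℂ) (hg : Measurable g) {B0 : ℝ} (hg1 : ∀ t, ‖g t‖ ≤ B0) (N : ℕ)
    (hN : 4 * Λ ^ 2 ≤ ss ν ^ 4 * 2 ^ N) (x z : ℝ) (hx : x ∈ Ioc Λ (2 * Λ)) :
    ‖∫ t in Ioo (0 : ℝ) 1, Complex.exp (-((z * t : ℝ) : ℂ) * Complex.I) *
        (g t * (j (x * qs t) : ℂ))‖ₑ ^ 4 ≤
      8 * ‖F1 (fun x t => g t * (T0 ν j x t : ℂ)) (x, z)‖ₑ ^ 4 +
      64 * (N : ℝ≥0∞) ^ 3 * ∑ i ∈ Finset.range N,
        (‖F1 (fun x t => g t * Ap ν j k (om ν i) x t) (x, z)‖ₑ ^ 4 +
         ‖F1 (fun x t => g t * (starRingEnd ℂ) (Ap ν j k (om ν i) x t)) (x, z)‖ₑ ^ 4) := by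
  have hC := h.C_nonneg
  have hs1 := ss_one ν
  have hx0 : 0 < x := by linarith [hx.1]
  have hB0 : 0 ≤ B0 := (norm_nonneg _).trans (hg1 0)
  -- integrability
  have hTm := T0_meas (ν := ν) hj
  have hT1 : ∀ t, ‖g t * (T0 ν j x t : ℂ)‖ ≤ B0 * Real.sqrt (TC C / ss ν ^ 2) := by
    intro t
    rw [norm_mul, Complex.norm_real, Real.norm_eq_abs]
    have h1 : |T0 ν j x t| ≤ Real.sqrt (TC C / ss ν ^ 2) := by
      rw [← Real.sqrt_sq_eq_abs]
      apply Real.sqrt_le_sqrt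
      refine (T0_sq h x t).trans ?_
      have hT : 0 ≤ TC C := by unfold TC; positivity
      have h2 : qq ν x t ^ 2 ≤ 1 := pow_le_one₀ (qq_nonneg ν x t) (qq_le_one ν x t)
      calc _ ≤ TC C / ss ν ^ 2 * 1 := mul_le_mul_of_nonneg_left h2 (by positivity)
        _ = _ := mul_one _
    exact mul_le_mul (hg1 t) h1 (abs_nonneg _) hB0
  have hTi := F1_int (hg.mul (Complex.measurable_ofReal.comp
    (hTm.comp (measurable_const.prodMk measurable_id)))) (f := fun t => g t * (T0 ν j x t : ℂ)) hT1 z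
  have hAi : ∀ i, IntegrableOn (fun t => Complex.exp (-((z * t : ℝ) : ℂ) * Complex.I) *
      (g t * Ap ν j k (om ν i) x t)) (Ioo (0 : ℝ) 1) := by
    intro i
    apply F1_int (B := B0 * Real.sqrt (8 * C)) (hg.mul ((Ap_meas (ν := ν) hj hk (om ν i)).comp
      (measurable_const.prodMk measurable_id))) (f := fun t => g t * Ap ν j k (om ν i) x t)
    intro t
    rw [norm_mul]
    exact mul_le_mul (hg1 t) (Ap_bound h (om_ge ν i) x t) (norm_nonneg _) hB0
  have hAi' : ∀ i, IntegrableOn (fun t => Complex.exp (-((z * t : ℝ) : ℂ) * Complex.I) *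
      (g t * (starRingEnd ℂ) (Ap ν j k (om ν i) x t))) (Ioo (0 : ℝ) 1) := by
    intro i
    apply F1_int (B := B0 * Real.sqrt (8 * C)) (hg.mul (Complex.continuous_conj.measurable.comp
      ((Ap_meas (ν := ν) hj hk (om ν i)).comp (measurable_const.prodMk measurable_id))))
      (f := fun t => g t * (starRingEnd ℂ) (Ap ν j k (om ν i) x t))
    intro t
    rw [norm_mul, RCLike.norm_conj]
    exact mul_le_mul (hg1 t) (Ap_bound h (om_ge ν i) x t) (norm_nonneg _) hB0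
  have e1 : ∫ t in Ioo (0 : ℝ) 1, Complex.exp (-((z * t : ℝ) : ℂ) * Complex.I) *
        (g t * (j (x * qs t) : ℂ)) =
      F1 (fun x t => g t * (T0 ν j x t : ℂ)) (x, z) +
      ∑ i ∈ Finset.range N, (1 / 2 : ℂ) * (F1 (fun x t => g t * Ap ν j k (om ν i) x t) (x, z) +
        F1 (fun x t => g t * (starRingEnd ℂ) (Ap ν j k (om ν i) x t)) (x, z)) := by
    unfold F1
    dsimp only
    simp_rw [← integral_add (hAi _) (hAi' _), ← integral_const_mul]
    have hAs : ∀ i, IntegrableOn (fun t => 1 / 2 * (Complex.exp (-((z * t : ℝ) : ℂ) * Complex.I) *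
        (g t * Ap ν j k (om ν i) x t) + Complex.exp (-((z * t : ℝ) : ℂ) * Complex.I) *
        (g t * (starRingEnd ℂ) (Ap ν j k (om ν i) x t)))) (Ioo (0 : ℝ) 1) := fun i =>
      ((hAi i).add (hAi' i)).const_mul _
    rw [← integral_finsetSum _ (fun i _ => hAs i), ← integral_add hTi]
    · apply setIntegral_congr_fun measurableSet_Ioo
      intro t ht
      dsimp only
      have hN' : (x * qs t) ^ 2 - ν ^ 2 ≤ ss ν ^ 4 * 2 ^ N := by
        refine le_trans ?_ hN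
        have h1 : qs t ≤ 1 := by
          unfold qs
          rw [Real.sqrt_le_left (by norm_num)]
          linarith [ht.2]
        have h2 := qs_pos ht.1
        have h3 : x * qs t ≤ 2 * Λ := by
          calc x * qs t ≤ x * 1 := mul_le_mul_of_nonneg_left h1 hx0.le
            _ ≤ _ := by linarith [hx.2]
        have h4 : (x * qs t) ^ 2 ≤ (2 * Λ) ^ 2 := pow_le_pow_left₀ (by positivity) h3 2
        nlinarith
      have h5 := dec h N hx0 ht.1 ht.2 hN'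
      have h6 : (j (x * qs t) : ℂ) = (T0 ν j x t : ℂ) + ∑ i ∈ Finset.range N,
          (1 / 2 : ℂ) * (Ap ν j k (om ν i) x t + (starRingEnd ℂ) (Ap ν j k (om ν i) x t)) := by
        rw [h5]
        push_cast
        congr 1
        apply Finset.sum_congr rfl
        intro i _
        rw [Complex.add_conj]
        push_cast
        ring
      rw [h6]
      simp only [mul_add, Finset.mul_sum]
      congr 1
      apply Finset.sum_congr rfl
      intro i _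
      ring
    · exact integrable_finsetSum _ (fun i _ => hAs i)
  rw [e1]
  have e2 : ∀ a : ℂ, ‖(1 / 2 : ℂ) * a‖ₑ ≤ ‖a‖ₑ := by
    intro a
    rw [enorm_mul]
    have : ‖(1 / 2 : ℂ)‖ₑ ≤ 1 := by
      rw [← ofReal_norm, ENNReal.ofReal_le_one]
      norm_num
    calc _ ≤ 1 * ‖a‖ₑ := mul_le_mul' this le_rfl
      _ = _ := one_mul _
  calc ‖F1 (fun x t => g t * (T0 ν j x t : ℂ)) (x, z) +
      ∑ i ∈ Finset.range N, (1 / 2 : ℂ) * (F1 (fun x t => g t * Ap ν j k (om ν i) x t) (x, z) +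
        F1 (fun x t => g t * (starRingEnd ℂ) (Ap ν j k (om ν i) x t)) (x, z))‖ₑ ^ 4
      ≤ (‖F1 (fun x t => g t * (T0 ν j x t : ℂ)) (x, z)‖ₑ + ∑ i ∈ Finset.range N,
        (‖F1 (fun x t => g t * Ap ν j k (om ν i) x t) (x, z)‖ₑ +
        ‖F1 (fun x t => g t * (starRingEnd ℂ) (Ap ν j k (om ν i) x t)) (x, z)‖ₑ)) ^ 4 := by
        apply pow_le_pow_left'
        refine (enorm_add_le _ _).trans ?_
        gcongr
        refine (enorm_sum_le _ _).trans ?_
        gcongr with i hi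
        exact (e2 _).trans (enorm_add_le _ _)
    _ ≤ 8 * (‖F1 (fun x t => g t * (T0 ν j x t : ℂ)) (x, z)‖ₑ ^ 4 + (∑ i ∈ Finset.range N,
        (‖F1 (fun x t => g t * Ap ν j k (om ν i) x t) (x, z)‖ₑ +
        ‖F1 (fun x t => g t * (starRingEnd ℂ) (Ap ν j k (om ν i) x t)) (x, z)‖ₑ)) ^ 4) :=
        four_add _ _
    _ ≤ 8 * (‖F1 (fun x t => g t * (T0 ν j x t : ℂ)) (x, z)‖ₑ ^ 4 +
        ((Finset.range N).card : ℝ≥0∞) ^ 3 * (∑ i ∈ Finset.range N,
        (8 * (‖F1 (fun x t => g t * Ap ν j k (om ν i) x t) (x, z)‖ₑ ^ 4 +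
        ‖F1 (fun x t => g t * (starRingEnd ℂ) (Ap ν j k (om ν i) x t)) (x, z)‖ₑ ^ 4)))) := by
        gcongr
        refine (four_sum _ _).trans ?_
        gcongr with i hi
        exact four_add _ _
    _ = _ := by
        rw [← Finset.mul_sum, Finset.card_range]
        ring

/-- the strong `L⁴` bound on a dyadic shell, uniformly in the order -/
theorem core (ε : ℝ) (hε : 0 < ε) (hε1 : ε < 1) (C : ℝ) (hC : 0 < C) : ∃ K, 0 < K ∧
    ∀ (ν : ℝ) (j k : ℝ → ℝ), BD ν C j k → Measurable j → Measurable k → ∀ Λ : ℝ, 1 ≤ Λ →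
    ∀ (g : ℝ → ℂ) (B0 : ℝ), Measurable g → (∀ t, ‖g t‖ ≤ B0) →
    (∀ t, t ∉ Ioo (1 / 4 : ℝ) 1 → g t = 0) →
    ∫⁻ x in Ioc Λ (2 * Λ), ∫⁻ z : ℝ, ‖∫ t in Ioo (0 : ℝ) 1,
      Complex.exp (-((z * t : ℝ) : ℂ) * Complex.I) * (g t * (j (x * qs t) : ℂ))‖ₑ ^ 4 ≤
      ENNReal.ofReal (K * Λ ^ (-2 + ε)) * ∫⁻ t, ‖g t‖ₑ ^ 4 := by
  have hpi := Real.pi_pos
  set η : ℝ := ε / 16 with hη
  have hη0 : 0 < η := by rw [hη]; linarith
  set N0 : ℝ := 8 ^ η / (η * Real.log 2) with hN0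
  have hl : 0 < Real.log 2 := Real.log_pos (by norm_num)
  have hN00 : 0 < N0 := by rw [hN0]; positivity
  set KT : ℝ := 1048576 * Real.pi * TC C ^ 2 with hKT
  set KP : ℝ := 18874368 * Real.pi * G1 (ε / 16) ^ 2 * C ^ 2 with hKP
  have hTC : 0 ≤ TC C := by unfold TC; positivity
  have hKT0 : 0 ≤ KT := by rw [hKT]; positivity
  have hKP0 : 0 ≤ KP := by rw [hKP]; positivity
  refine ⟨8 * KT + 128 * N0 ^ 4 * KP + 1, by positivity, ?_⟩
  intro ν j k h hj hk Λ hΛ g B0 hg hg1 hg0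
  have hΛ0 : 0 < Λ := by linarith
  obtain ⟨N, hN1, hN2⟩ := exists_N ν Λ
  have hs1 := ss_one ν
  have hs4 : 1 ≤ ss ν ^ 4 := one_le_pow₀ hs1
  have hNle : (N : ℝ) ≤ N0 * Λ ^ (2 * η) := by
    apply N_le hη0 hΛ
    intro i hi
    have := hN2 i hi
    have h2 : (0 : ℝ) < 2 ^ i := by positivity
    nlinarith
  set S : ℝ≥0∞ := ∫⁻ t, ‖g t‖ₑ ^ 4 with hS
  -- measurability
  have hTm := T0_meas (ν := ν) hj
  have hm0 : Measurable (F1 (fun x t => g t * (T0 ν j x t : ℂ))) :=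
    F1_meas ((hg.comp measurable_snd).mul (Complex.measurable_ofReal.comp hTm))
  have hm1 : ∀ i, Measurable (F1 (fun x t => g t * Ap ν j k (om ν i) x t)) := fun i =>
    F1_meas ((hg.comp measurable_snd).mul (Ap_meas (ν := ν) hj hk (om ν i)))
  have hm2 : ∀ i, Measurable (F1 (fun x t => g t * (starRingEnd ℂ) (Ap ν j k (om ν i) x t))) :=
    fun i => F1_meas ((hg.comp measurable_snd).mul
      (Complex.continuous_conj.measurable.comp (Ap_meas (ν := ν) hj hk (om ν i))))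
  set μ := ((volume.restrict (Ioc Λ (2 * Λ))).prod (volume : Measure ℝ)) with hμ
  have hiter : ∀ f : ℝ × ℝ → ℝ≥0∞, Measurable f →
      ∫⁻ x in Ioc Λ (2 * Λ), ∫⁻ z : ℝ, f (x, z) = ∫⁻ p, f p ∂μ := by
    intro f hf
    rw [hμ, lintegral_prod _ hf.aemeasurable]
  have b0 : ∫⁻ p, ‖F1 (fun x t => g t * (T0 ν j x t : ℂ)) p‖ₑ ^ 4 ∂μ ≤
      ENNReal.ofReal (KT * Λ ^ (-2 + ε / 4)) * S := by
    rw [← hiter _ (hm0.enorm.pow_const 4)]
    refine (turn_bound h hj hΛ g hg hg1 hg0).trans ?_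
    refine mul_le_mul' (ENNReal.ofReal_le_ofReal ?_) le_rfl
    rw [hKT]
    apply mul_le_mul_of_nonneg_left _ (by positivity)
    exact Real.rpow_le_rpow_of_exponent_le hΛ (by linarith)
  have hg' : Measurable fun t => (starRingEnd ℂ) (g t) := Complex.continuous_conj.measurable.comp hg
  have hg1' : ∀ t, ‖(starRingEnd ℂ) (g t)‖ ≤ B0 := fun t => by rw [RCLike.norm_conj]; exact hg1 t
  have hS' : ∫⁻ t, ‖(starRingEnd ℂ) (g t)‖ₑ ^ 4 = S := by
    refine lintegral_congr fun t => ?_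
    rw [← ofReal_norm, RCLike.norm_conj, ofReal_norm]
  have hom : ∀ i < N, om ν i ^ 4 ≤ 4 * Λ ^ 2 := fun i hi => by rw [om_four]; exact hN2 i hi
  have b1 : ∀ i < N, ∫⁻ p, ‖F1 (fun x t => g t * Ap ν j k (om ν i) x t) p‖ₑ ^ 4 ∂μ ≤
      ENNReal.ofReal (KP * Λ ^ (-2 + ε / 4)) * S := by
    intro i hi
    rw [← hiter _ ((hm1 i).enorm.pow_const 4)]
    have := piece_bound (ε / 16) (by linarith) (by linarith) h hC hj hk (om_ge ν i) hΛ (hom i hi)
      g hg hg1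
    refine this.trans (le_of_eq ?_)
    rw [hKP, show 4 * (ε / 16) = ε / 4 by ring]
  have b2 : ∀ i < N, ∫⁻ p, ‖F1 (fun x t => g t * (starRingEnd ℂ) (Ap ν j k (om ν i) x t)) p‖ₑ ^ 4 ∂μ ≤
      ENNReal.ofReal (KP * Λ ^ (-2 + ε / 4)) * S := by
    intro i hi
    rw [← hiter _ ((hm2 i).enorm.pow_const 4)]
    have := piece_bound (ε / 16) (by linarith) (by linarith) h hC hj hk (om_ge ν i) hΛ (hom i hi)
      _ hg' hg1'
    refine le_trans (le_of_eq ?_) (this.trans (le_of_eq ?_))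
    · apply lintegral_congr
      intro x
      simp_rw [Ap_conj_F1]
      rw [lintegral_neg_eq_self (fun z => ‖F1 (fun x t => (starRingEnd ℂ) (g t) *
        Ap ν j k (om ν i) x t) (x, z)‖ₑ ^ 4)]
      rfl
    · rw [hKP, show 4 * (ε / 16) = ε / 4 by ring, hS']
  have hmtot : Measurable fun p : ℝ × ℝ => 8 * ‖F1 (fun x t => g t * (T0 ν j x t : ℂ)) p‖ₑ ^ 4 +
      64 * (N : ℝ≥0∞) ^ 3 * ∑ i ∈ Finset.range N,
        (‖F1 (fun x t => g t * Ap ν j k (om ν i) x t) p‖ₑ ^ 4 +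
         ‖F1 (fun x t => g t * (starRingEnd ℂ) (Ap ν j k (om ν i) x t)) p‖ₑ ^ 4) := by
    apply Measurable.add ((hm0.enorm.pow_const 4).const_mul 8)
    apply Measurable.const_mul
    exact Finset.measurable_sum _ (fun i _ => ((hm1 i).enorm.pow_const 4).add
      ((hm2 i).enorm.pow_const 4))
  calc ∫⁻ x in Ioc Λ (2 * Λ), ∫⁻ z : ℝ, ‖∫ t in Ioo (0 : ℝ) 1,
      Complex.exp (-((z * t : ℝ) : ℂ) * Complex.I) * (g t * (j (x * qs t) : ℂ))‖ₑ ^ 4
      ≤ ∫⁻ x in Ioc Λ (2 * Λ), ∫⁻ z : ℝ, (8 * ‖F1 (fun x t => g t * (T0 ν j x t : ℂ)) (x, z)‖ₑ ^ 4 +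
      64 * (N : ℝ≥0∞) ^ 3 * ∑ i ∈ Finset.range N,
        (‖F1 (fun x t => g t * Ap ν j k (om ν i) x t) (x, z)‖ₑ ^ 4 +
         ‖F1 (fun x t => g t * (starRingEnd ℂ) (Ap ν j k (om ν i) x t)) (x, z)‖ₑ ^ 4)) := by
        apply setLIntegral_mono' measurableSet_Ioc
        intro x hx
        apply lintegral_mono
        intro z
        exact core_ptw h hj hk hΛ g hg hg1 N hN1 x z hx
    _ = ∫⁻ p, (8 * ‖F1 (fun x t => g t * (T0 ν j x t : ℂ)) p‖ₑ ^ 4 +
      64 * (N : ℝ≥0∞) ^ 3 * ∑ i ∈ Finset.range N,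
        (‖F1 (fun x t => g t * Ap ν j k (om ν i) x t) p‖ₑ ^ 4 +
         ‖F1 (fun x t => g t * (starRingEnd ℂ) (Ap ν j k (om ν i) x t)) p‖ₑ ^ 4)) ∂μ :=
        hiter _ hmtot
    _ = 8 * (∫⁻ p, ‖F1 (fun x t => g t * (T0 ν j x t : ℂ)) p‖ₑ ^ 4 ∂μ) +
      64 * (N : ℝ≥0∞) ^ 3 * ∑ i ∈ Finset.range N,
        ((∫⁻ p, ‖F1 (fun x t => g t * Ap ν j k (om ν i) x t) p‖ₑ ^ 4 ∂μ) +
         ∫⁻ p, ‖F1 (fun x t => g t * (starRingEnd ℂ) (Ap ν j k (om ν i) x t)) p‖ₑ ^ 4 ∂μ) := by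
        have hms : Measurable fun p => ∑ i ∈ Finset.range N,
        (‖F1 (fun x t => g t * Ap ν j k (om ν i) x t) p‖ₑ ^ 4 +
         ‖F1 (fun x t => g t * (starRingEnd ℂ) (Ap ν j k (om ν i) x t)) p‖ₑ ^ 4) :=
          Finset.measurable_sum _ (fun i _ => ((hm1 i).enorm.pow_const 4).add
            ((hm2 i).enorm.pow_const 4))
        have hmi : ∀ i, Measurable fun p => (‖F1 (fun x t => g t * Ap ν j k (om ν i) x t) p‖ₑ ^ 4 +
         ‖F1 (fun x t => g t * (starRingEnd ℂ) (Ap ν j k (om ν i) x t)) p‖ₑ ^ 4) := fun i =>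
          ((hm1 i).enorm.pow_const 4).add ((hm2 i).enorm.pow_const 4)
        rw [lintegral_add_left ((hm0.enorm.pow_const 4).const_mul 8),
          lintegral_const_mul _ (hm0.enorm.pow_const 4), lintegral_const_mul _ hms,
          lintegral_finsetSum _ (fun i _ => hmi i)]
        congr 2
        apply Finset.sum_congr rfl
        intro i _
        exact lintegral_add_left ((hm1 i).enorm.pow_const 4) _
    _ ≤ 8 * (ENNReal.ofReal (KT * Λ ^ (-2 + ε / 4)) * S) +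
      64 * (N : ℝ≥0∞) ^ 3 * ∑ i ∈ Finset.range N,
        (ENNReal.ofReal (KP * Λ ^ (-2 + ε / 4)) * S + ENNReal.ofReal (KP * Λ ^ (-2 + ε / 4)) * S) := by
        gcongr with i hi i hi
        · exact b1 i (Finset.mem_range.1 hi)
        · exact b2 i (Finset.mem_range.1 hi)
    _ = ENNReal.ofReal (8 * (KT * Λ ^ (-2 + ε / 4)) + 64 * (N : ℝ) ^ 3 *
          ((N : ℝ) * (KP * Λ ^ (-2 + ε / 4) + KP * Λ ^ (-2 + ε / 4)))) * S := by
        rw [Finset.sum_const, Finset.card_range, nsmul_eq_mul]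
        have ha : 0 ≤ KT * Λ ^ (-2 + ε / 4) := by positivity
        have hb : 0 ≤ KP * Λ ^ (-2 + ε / 4) := by positivity
        generalize KT * Λ ^ (-2 + ε / 4) = a at ha
        generalize KP * Λ ^ (-2 + ε / 4) = b at hb
        rw [ENNReal.ofReal_add (by positivity) (by positivity), ENNReal.ofReal_mul (by norm_num),
          ENNReal.ofReal_mul (p := 64 * (N : ℝ) ^ 3) (by positivity), ENNReal.ofReal_mul (by norm_num),
          ENNReal.ofReal_mul (by positivity), ENNReal.ofReal_add (by positivity) (by positivity),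
          ENNReal.ofReal_pow (by positivity), ENNReal.ofReal_natCast]
        simp only [ENNReal.ofReal_ofNat]
        ring
    _ ≤ ENNReal.ofReal ((8 * KT + 128 * N0 ^ 4 * KP + 1) * Λ ^ (-2 + ε)) * S := by
        refine mul_le_mul' ?_ le_rfl
        apply ENNReal.ofReal_le_ofReal
        have hL1 : Λ ^ (-2 + ε / 4) ≤ Λ ^ (-2 + ε) := Real.rpow_le_rpow_of_exponent_le hΛ (by linarith)
        have hL0 : 0 < Λ ^ (-2 + ε / 4) := by positivity
        have hL3 : 0 < Λ ^ (-2 + ε) := by positivity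
        have hN4 : (N : ℝ) ^ 4 * Λ ^ (-2 + ε / 4) ≤ N0 ^ 4 * Λ ^ (-2 + ε) := by
          calc (N : ℝ) ^ 4 * Λ ^ (-2 + ε / 4) ≤ (N0 * Λ ^ (2 * η)) ^ 4 * Λ ^ (-2 + ε / 4) := by
                gcongr
            _ = N0 ^ 4 * Λ ^ (2 * η * 4 + (-2 + ε / 4)) := by
                rw [mul_pow, ← Real.rpow_natCast (Λ ^ (2 * η)) 4, ← Real.rpow_mul hΛ0.le,
                  mul_assoc, ← Real.rpow_add hΛ0]
                norm_num
            _ ≤ _ := by
                apply mul_le_mul_of_nonneg_left _ (by positivity)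
                apply Real.rpow_le_rpow_of_exponent_le hΛ
                rw [hη]; linarith
        calc 8 * (KT * Λ ^ (-2 + ε / 4)) + 64 * (N : ℝ) ^ 3 *
          ((N : ℝ) * (KP * Λ ^ (-2 + ε / 4) + KP * Λ ^ (-2 + ε / 4)))
            = 8 * KT * Λ ^ (-2 + ε / 4) + 128 * KP * ((N : ℝ) ^ 4 * Λ ^ (-2 + ε / 4)) := by ring
          _ ≤ 8 * KT * Λ ^ (-2 + ε) + 128 * KP * (N0 ^ 4 * Λ ^ (-2 + ε)) := by
              gcongr
          _ ≤ _ := by nlinarith

end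

end Pool.Agent.H243.RP
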