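import Mathlib
import Pool.Agent.H243.RP.Q8
import Pool.Agent.H243.RP.Q10
set_option autoImplicit false

/-! `L^q → L^q` on dyadic shells for one order. -/

open MeasureTheory Set
open scoped ENNReal

namespace Pool.Agent.H243.RP

open Pool.Agent.H243.RA (BD exp_norm_one F1 F1_meas)

section
variable {ν C : ℝ} {j k : ℝ → ℝ}

theorem j_l2 (h : BD ν C j k) (_hC : 0 < C) {Λ t : ℝ} (hΛ : 1 ≤ Λ) (ht : t ∈ Ioo (1 / 4 : ℝ) 1) :
    ∫⁻ x in Ioc Λ (2 * Λ), ENNReal.ofReal (j (x * qs t) ^ 2) ≤ ENNReal.ofReal (2 * (C + C ^ 2)) := by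
  have ht0 : 0 < t := by linarith [ht.1]
  have hq0 : 0 < qs t := qs_pos ht0
  have hqh : 1 / 2 ≤ qs t := by
    unfold qs
    apply Real.le_sqrt_of_sq_le
    linarith [ht.1]
  have hΛ0 : 0 < Λ := by linarith
  have hjc : ContinuousOn j (Ioi 0) := h.cont_j
  have hc : ContinuousOn (fun x => j (x * qs t) ^ 2) (Icc Λ (2 * Λ)) := by
    apply ContinuousOn.pow
    apply hjc.comp (by fun_prop)
    intro x hx
    exact mul_pos (lt_of_lt_of_le hΛ0 hx.1) hq0
  rw [← ofReal_integral_eq_lintegral_ofReal (hc.integrableOn_Icc.mono_set Ioc_subset_Icc_self)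
    (Filter.Eventually.of_forall fun x => sq_nonneg _), ← intervalIntegral.integral_of_le (by linarith)]
  apply ENNReal.ofReal_le_ofReal
  rw [intervalIntegral.integral_comp_mul_right (fun y => j y ^ 2) hq0.ne', smul_eq_mul]
  set R : ℝ := Λ * qs t with hR
  have hR0 : 0 < R := by rw [hR]; positivity
  have e2 : 2 * Λ * qs t = 2 * R := by rw [hR]; ring
  rw [e2]
  have hI : ∫ y in R..(2 * R), j y ^ 2 ≤ C + C ^ 2 := by
    have hc2 : ContinuousOn (fun y => j y ^ 2) (Icc R (2 * R)) :=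
      (hjc.mono fun y hy => lt_of_lt_of_le hR0 hy.1).pow 2
    have hi1 : IntervalIntegrable (fun y => j y ^ 2) volume R (2 * R) := by
      apply ContinuousOn.intervalIntegrable
      rwa [uIcc_of_le (by linarith)]
    rcases le_total 1 R with h1 | h1
    · have h2 := h.l2 R h1
      have hc3 : ContinuousOn (fun y => y * j y ^ 2) (Icc R (2 * R)) := continuousOn_id.mul hc2
      have h3 : ∫ y in R..(2 * R), j y ^ 2 ≤ ∫ y in R..(2 * R), R⁻¹ * (y * j y ^ 2) := by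
        apply intervalIntegral.integral_mono_on (by linarith) hi1
        · apply ContinuousOn.intervalIntegrable
          rw [uIcc_of_le (by linarith)]
          exact continuousOn_const.mul hc3
        · intro y hy
          have : 1 ≤ R⁻¹ * y := by
            rw [inv_mul_eq_div, le_div_iff₀ hR0]
            linarith [hy.1]
          nlinarith [sq_nonneg (j y)]
      rw [intervalIntegral.integral_const_mul] at h3
      have h4 : R⁻¹ * ∫ y in R..(2 * R), y * j y ^ 2 ≤ R⁻¹ * (C * R) :=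
        mul_le_mul_of_nonneg_left h2 (by positivity)
      have h5 : R⁻¹ * (C * R) = C := by field_simp
      nlinarith [sq_nonneg C]
    · have h3 : ∫ y in R..(2 * R), j y ^ 2 ≤ ∫ _y in R..(2 * R), C ^ 2 := by
        apply intervalIntegral.integral_mono_on (by linarith) hi1 (by simp)
        intro y hy
        have h5 := h.bd y (lt_of_lt_of_le hR0 hy.1) (by linarith [hy.2])
        rw [← sq_abs]
        exact pow_le_pow_left₀ (abs_nonneg _) h5 2
      rw [intervalIntegral.integral_const, smul_eq_mul] at h3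
      nlinarith [sq_nonneg C]
  have hinv : (qs t)⁻¹ ≤ 2 := by
    rw [inv_le_comm₀ hq0 (by norm_num)]
    linarith
  have hI0 : 0 ≤ ∫ y in R..(2 * R), j y ^ 2 :=
    intervalIntegral.integral_nonneg (by linarith) fun _ _ => sq_nonneg _
  calc (qs t)⁻¹ * ∫ y in R..(2 * R), j y ^ 2 ≤ 2 * ∫ y in R..(2 * R), j y ^ 2 :=
        mul_le_mul_of_nonneg_right hinv hI0
    _ ≤ _ := by linarith

/-- the one dimensional operator -/
noncomputable def TT (j : ℝ → ℝ) (g : ℝ → ℂ) (x z : ℝ) : ℂ :=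
  ∫ t in Ioo (0 : ℝ) 1, Complex.exp (-((z * t : ℝ) : ℂ) * Complex.I) * (g t * (j (x * qs t) : ℂ))

/-- restriction to `(1/4, 1)` -/
noncomputable def cut (g : ℝ → ℂ) : ℝ → ℂ := (Ioo (1 / 4 : ℝ) 1).indicator g

theorem cut_meas {g : ℝ → ℂ} (hg : Measurable g) : Measurable (cut g) := hg.indicator measurableSet_Ioo

theorem cut_le (g : ℝ → ℂ) (t : ℝ) : ‖cut g t‖ ≤ ‖g t‖ := by
  unfold cut
  exact norm_indicator_le_norm_self _ _

theorem cut_zero (g : ℝ → ℂ) (t : ℝ) (ht : t ∉ Ioo (1 / 4 : ℝ) 1) : cut g t = 0 :=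
  indicator_of_notMem ht _

theorem TT_meas (hj : Measurable j) {g : ℝ → ℂ} (hg : Measurable g) :
    Measurable fun p : ℝ × ℝ => TT j g p.1 p.2 := by
  have hm := F1_meas (h := fun x t => g t * (j (x * qs t) : ℂ)) (by
    have h1 : Measurable fun p : ℝ × ℝ => p.1 * qs p.2 :=
      measurable_fst.mul (qs_meas.comp measurable_snd)
    exact (hg.comp measurable_snd).mul (Complex.measurable_ofReal.comp (hj.comp h1)))
  exact hm

theorem TT_l2 (h : BD ν C j k) (hC : 0 < C) (hj : Measurable j) {Λ : ℝ} (hΛ : 1 ≤ Λ)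
    {g : ℝ → ℂ} (hg : Measurable g) {B0 : ℝ} (hg1 : ∀ t, ‖g t‖ ≤ B0)
    {Cj : ℝ} (hCj : ∀ x ∈ Ioc Λ (2 * Λ), ∀ t ∈ Ioo (1 / 4 : ℝ) 1, |j (x * qs t)| ≤ Cj) :
    ∫⁻ x in Ioc Λ (2 * Λ), ∫⁻ z : ℝ, ‖TT j (cut g) x z‖ₑ ^ 2 ≤
      ENNReal.ofReal (4 * Real.pi * (C + C ^ 2)) * ∫⁻ t, ‖g t‖ₑ ^ 2 := by
  have hpi := Real.pi_pos
  have hB0 : 0 ≤ B0 := (norm_nonneg _).trans (hg1 0)
  have hgc := cut_meas hg
  have hjx : ∀ x, Measurable fun t => (j (x * qs t) : ℂ) := fun x =>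
    Complex.measurable_ofReal.comp (hj.comp (measurable_const.mul qs_meas))
  have key : ∀ x ∈ Ioc Λ (2 * Λ), ∫⁻ z : ℝ, ‖TT j (cut g) x z‖ₑ ^ 2 ≤
      ENNReal.ofReal (2 * Real.pi) * ∫⁻ t in Ioo (1 / 4 : ℝ) 1,
        ‖g t‖ₑ ^ 2 * ENNReal.ofReal (j (x * qs t) ^ 2) := by
    intro x hx
    have hb : ∀ t, ‖cut g t * (j (x * qs t) : ℂ)‖ ≤ B0 * |Cj| := by
      intro t
      by_cases ht : t ∈ Ioo (1 / 4 : ℝ) 1
      · rw [norm_mul, Complex.norm_real, Real.norm_eq_abs]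
        exact mul_le_mul ((cut_le g t).trans (hg1 t)) ((hCj x hx t ht).trans (le_abs_self _))
          (abs_nonneg _) hB0
      · rw [cut_zero g t ht, zero_mul, norm_zero]
        positivity
    have hpl := Pool.Agent.H789R2.FR.pl_phase (Ioo (0 : ℝ) 1) measurableSet_Ioo (by simp) (fun c => c)
      (fun _ => 1) measurable_id measurable_const (fun c _ => hasDerivWithinAt_id c _)
      (fun _ _ => one_ne_zero) (injOn_id _) (fun t => cut g t * (j (x * qs t) : ℂ))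
      (hgc.mul (hjx x)) ⟨B0 * |Cj|, hb⟩
    calc ∫⁻ z : ℝ, ‖TT j (cut g) x z‖ₑ ^ 2
        = ∫⁻ z : ℝ, ENNReal.ofReal (‖TT j (cut g) x z‖ ^ 2) := by
          refine lintegral_congr fun z => ?_
          rw [ENNReal.ofReal_pow (norm_nonneg _), ofReal_norm]
      _ ≤ _ := hpl
      _ ≤ _ := by
          refine mul_le_mul' le_rfl ?_
          rw [← lintegral_indicator measurableSet_Ioo, ← lintegral_indicator measurableSet_Ioo]
          apply lintegral_mono
          intro t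
          by_cases ht : t ∈ Ioo (1 / 4 : ℝ) 1
          · rw [indicator_of_mem ht, indicator_of_mem (Ioo_subset_Ioo_left (by norm_num) ht)]
            unfold cut
            rw [indicator_of_mem ht, abs_one, div_one, norm_mul, Complex.norm_real, mul_pow,
              Real.norm_eq_abs, sq_abs, ENNReal.ofReal_mul (by positivity),
              ENNReal.ofReal_pow (norm_nonneg _), ofReal_norm]
          · rw [indicator_of_notMem ht]
            by_cases ht' : t ∈ Ioo (0 : ℝ) 1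
            · rw [indicator_of_mem ht', cut_zero g t ht]
              simp
            · rw [indicator_of_notMem ht']
  have hmm : Measurable (Function.uncurry fun (x t : ℝ) =>
      ‖g t‖ₑ ^ 2 * ENNReal.ofReal (j (x * qs t) ^ 2)) := by
    have h1 : Measurable fun p : ℝ × ℝ => p.1 * qs p.2 :=
      measurable_fst.mul (qs_meas.comp measurable_snd)
    exact ((hg.comp measurable_snd).enorm.pow_const 2).mul (((hj.comp h1).pow_const 2).ennreal_ofReal)
  calc ∫⁻ x in Ioc Λ (2 * Λ), ∫⁻ z : ℝ, ‖TT j (cut g) x z‖ₑ ^ 2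
      ≤ ∫⁻ x in Ioc Λ (2 * Λ), ENNReal.ofReal (2 * Real.pi) * ∫⁻ t in Ioo (1 / 4 : ℝ) 1,
        ‖g t‖ₑ ^ 2 * ENNReal.ofReal (j (x * qs t) ^ 2) := setLIntegral_mono' measurableSet_Ioc key
    _ = ENNReal.ofReal (2 * Real.pi) * ∫⁻ t in Ioo (1 / 4 : ℝ) 1, ∫⁻ x in Ioc Λ (2 * Λ),
        ‖g t‖ₑ ^ 2 * ENNReal.ofReal (j (x * qs t) ^ 2) := by
        rw [lintegral_const_mul' _ _ ENNReal.ofReal_ne_top, lintegral_lintegral_swap hmm.aemeasurable]
    _ ≤ ENNReal.ofReal (2 * Real.pi) * ∫⁻ t in Ioo (1 / 4 : ℝ) 1,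
          ENNReal.ofReal (2 * (C + C ^ 2)) * ‖g t‖ₑ ^ 2 := by
        refine mul_le_mul' le_rfl (setLIntegral_mono' measurableSet_Ioo fun t ht => ?_)
        have m2 : Measurable fun x : ℝ => ENNReal.ofReal (j (x * qs t) ^ 2) :=
          ((hj.comp (measurable_id.mul_const _)).pow_const 2).ennreal_ofReal
        rw [lintegral_const_mul _ m2, mul_comm]
        exact mul_le_mul' (j_l2 h hC hΛ ht) le_rfl
    _ ≤ ENNReal.ofReal (2 * Real.pi) * (ENNReal.ofReal (2 * (C + C ^ 2)) * ∫⁻ t, ‖g t‖ₑ ^ 2) := by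
        rw [lintegral_const_mul' _ _ ENNReal.ofReal_ne_top]
        gcongr
        exact Measure.restrict_le_self
    _ = _ := by
        rw [← mul_assoc, ← ENNReal.ofReal_mul (by positivity)]
        congr 2
        ring

/-- **`L^q → L^q` on dyadic shells, uniformly in the order.** -/
theorem shell_q (q ε : ℝ) (hq2 : 2 < q) (hq4 : q < 4) (hε : 0 < ε) (hε1 : ε < 1) (C : ℝ) (hC : 0 < C) :
    ∃ K, 0 < K ∧ ∀ (ν : ℝ) (j k : ℝ → ℝ), BD ν C j k → Measurable j → Measurable k →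
    Continuous j → ∀ Λ : ℝ, 1 ≤ Λ → ∀ g : ℝ → ℂ, Measurable g →
    ∫⁻ x in Ioc Λ (2 * Λ), ∫⁻ z : ℝ, ‖TT j (cut g) x z‖ₑ ^ q ≤
      ENNReal.ofReal (K * Λ ^ (-((q - 2) * (1 - ε / 2)))) * ∫⁻ t, ‖g t‖ₑ ^ q := by
  obtain ⟨Ci, hCi0, hCi⟩ := interp_op q hq2 hq4
  obtain ⟨K4, hK40, hK4⟩ := core ε hε hε1 C hC
  have hpi := Real.pi_pos
  refine ⟨Ci * (K4 + 4 * Real.pi * (C + C ^ 2)), by positivity, ?_⟩
  intro ν j k h hj hk hjc Λ hΛ g hg
  have hΛ0 : 0 < Λ := by linarith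
  set lam : ℝ := Λ ^ (-(1 - ε / 2)) with hlam
  have hlam0 : 0 < lam := by positivity
  -- a bound for j on compact sets
  obtain ⟨Cj, hCj⟩ : ∃ Cj : ℝ, ∀ y ∈ Icc (0 : ℝ) (2 * Λ), |j y| ≤ Cj := by
    have := isCompact_Icc.exists_bound_of_continuousOn (s := Icc (0 : ℝ) (2 * Λ)) hjc.continuousOn
    simpa [Real.norm_eq_abs] using this
  have hCj' : ∀ x ∈ Ioc Λ (2 * Λ), ∀ t ∈ Ioo (1 / 4 : ℝ) 1, |j (x * qs t)| ≤ Cj := by
    intro x hx t ht
    have ht0 : 0 < t := by linarith [ht.1]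
    have hx0 : 0 < x := hΛ0.trans hx.1
    apply hCj
    have h1 : qs t ≤ 1 := by
      unfold qs
      rw [Real.sqrt_le_left (by norm_num)]
      linarith [ht.2]
    refine ⟨by have := qs_pos ht0; positivity, ?_⟩
    calc x * qs t ≤ x * 1 := mul_le_mul_of_nonneg_left h1 hx0.le
      _ ≤ _ := by linarith [hx.2]
  set T : (ℝ → ℂ) → ℝ × ℝ → ℝ≥0∞ := fun g p => ‖TT j (cut g) p.1 p.2‖ₑ with hT
  set τ : Measure (ℝ × ℝ) := (volume.restrict (Ioc Λ (2 * Λ))).prod volume with hτ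
  have hiter : ∀ f : ℝ × ℝ → ℝ≥0∞, Measurable f →
      ∫⁻ p, f p ∂τ = ∫⁻ x in Ioc Λ (2 * Λ), ∫⁻ z : ℝ, f (x, z) := by
    intro f hf
    rw [hτ, lintegral_prod _ hf.aemeasurable]
  have hTm : ∀ g, Measurable g → Measurable (T g) := fun g hg => (TT_meas hj (cut_meas hg)).enorm
  have hmain := hCi ℝ (ℝ × ℝ) volume τ T (4 * Real.pi * (C + C ^ 2)) (K4 * Λ ^ (-2 + ε)) lam
    (by positivity) (by positivity) hlam0 hTm ?_ ?_ ?_ g hg
  · rw [hiter _ ((hTm g hg).pow_const q)] at hmain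
    refine hmain.trans ?_
    refine mul_le_mul' (ENNReal.ofReal_le_ofReal ?_) le_rfl
    apply le_of_eq
    have e1 : lam ^ (q - 4) * (K4 * Λ ^ (-2 + ε)) = K4 * Λ ^ (-((q - 2) * (1 - ε / 2))) := by
      rw [hlam, ← Real.rpow_mul hΛ0.le]
      rw [show Λ ^ (-(1 - ε / 2) * (q - 4)) * (K4 * Λ ^ (-2 + ε)) =
        K4 * (Λ ^ (-(1 - ε / 2) * (q - 4)) * Λ ^ (-2 + ε)) by ring, ← Real.rpow_add hΛ0]
      congr 2
      ring
    have e2 : lam ^ (q - 2) = Λ ^ (-((q - 2) * (1 - ε / 2))) := by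
      rw [hlam, ← Real.rpow_mul hΛ0.le]
      congr 1
      ring
    rw [e1, e2]
    ring
  · -- subadditivity
    intro g hg p
    have h1 := split_le (volume.restrict (Ioo (0 : ℝ) 1)) hg (fun t =>
      Complex.exp (-((p.2 * t : ℝ) : ℂ) * Complex.I) * ((Ioo (1 / 4 : ℝ) 1).indicator
        (fun t => (j (p.1 * qs t) : ℂ)) t))
    have e : ∀ f : ℝ → ℂ, TT j (cut f) p.1 p.2 = ∫ t in Ioo (0 : ℝ) 1,
        Complex.exp (-((p.2 * t : ℝ) : ℂ) * Complex.I) * ((Ioo (1 / 4 : ℝ) 1).indicator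
        (fun t => (j (p.1 * qs t) : ℂ)) t) * f t := by
      intro f
      unfold TT cut
      congr 1
      funext t
      by_cases ht : t ∈ Ioo (1 / 4 : ℝ) 1
      · rw [indicator_of_mem ht, indicator_of_mem ht]
        ring
      · rw [indicator_of_notMem ht, indicator_of_notMem ht]
        ring
    simp only [hT]
    rw [e g]
    refine h1.trans (le_of_eq ?_)
    congr 1
    funext k
    rw [e]
  · rintro g hg ⟨B, hB⟩
    rw [hiter _ ((hTm g hg).pow_const 2)]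
    exact TT_l2 h hC hj hΛ hg hB hCj'
  · rintro g hg ⟨B, hB⟩
    rw [hiter _ ((hTm g hg).pow_const 4)]
    refine (hK4 ν j k h hj hk Λ hΛ (cut g) B (cut_meas hg) (fun t => (cut_le g t).trans (hB t))
      (cut_zero g)).trans ?_
    refine mul_le_mul' le_rfl (lintegral_mono fun t => ?_)
    apply pow_le_pow_left'
    rw [← ofReal_norm, ← ofReal_norm]
    exact ENNReal.ofReal_le_ofReal (cut_le g t)

end

end Pool.Agent.H243.RP
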