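import Mathlib
import Pool.Agent.H243.RP.Q11
import Pool.Agent.H243.RA.D3
import Pool.Graph.R_seed8.H438R2.BR.T7
set_option autoImplicit false

/-! The extension operator of the paraboloid for functions of one angular momentum. -/

open MeasureTheory Set
open scoped ENNReal RealInnerProductSpace

namespace Pool.Agent.H243.RP

open Pool.Agent.W5h55.SH hiding e0 e0_norm
open Pool.Agent.H789R2.FR (E sg T sg_finite sg_ae polar)
open Pool.Agent.H243.RA (jj kk jj_BD jj_cont jj_ga)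

variable {d : ℕ}

/-- the extension operator of the paraboloid -/
noncomputable def X (f : E d → ℂ) (x : E d) (z : ℝ) : ℂ :=
  ∫ ξ, Complex.exp (-((⟪x, ξ⟫ + ‖ξ‖ ^ 2 * z : ℝ) : ℂ) * Complex.I) * f ξ

/-- on every sphere about the origin the function is a harmonic of degree `l` -/
def Ang (l : ℕ) (f : E d → ℂ) : Prop :=
  ∀ r : ℝ, 0 < r → ∃ P : MvPolynomial (Fin d) ℂ, P.IsHomogeneous l ∧ Harm P ∧
    ∀ x : E d, ‖x‖ = r → f x = ev P x

theorem norm_phase (a : ℝ) : ‖Complex.exp (-(a : ℂ) * Complex.I)‖ = 1 := by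
  rw [← Complex.ofReal_neg, Complex.norm_exp_ofReal_mul_I]

theorem X_integrable {f : E d → ℂ} (hf : Integrable f) (x : E d) (z : ℝ) :
    Integrable fun ξ : E d => Complex.exp (-((⟪x, ξ⟫ + ‖ξ‖ ^ 2 * z : ℝ) : ℂ) * Complex.I) * f ξ := by
  apply hf.bdd_mul (c := 1)
  · apply Continuous.aestronglyMeasurable
    fun_prop
  · exact Filter.Eventually.of_forall fun ξ => (norm_phase _).le

theorem X_polar (hd : 2 ≤ d) {l : ℕ} {f : E d → ℂ} (hf : Integrable f) (hA : Ang l f)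
    {ρ : ℝ} (hρ : 0 ≤ ρ) (w : E d) (hw : ‖w‖ = 1) (z : ℝ) :
    X f (ρ • w) z = ∫ r in Ioi (0 : ℝ), ((r ^ (d - 1) : ℝ) : ℂ) *
      (Complex.exp (-((r ^ 2 * z : ℝ) : ℂ) * Complex.I) *
        ((-Complex.I) ^ l * (ga d l (ρ * r) : ℂ) * f (r • w))) := by
  unfold X
  rw [Pool.Agent.H438R2.BR.T7.polar_int (by omega) _ (X_integrable hf _ _)]
  refine setIntegral_congr_fun measurableSet_Ioi fun r hr => ?_
  beta_reduce
  congr 1
  have hr0 : 0 < r := hr
  obtain ⟨P, hP1, hP2, hP3⟩ := hA r hr0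
  have hae : (fun u => Complex.exp (-((⟪ρ • w, r • u⟫ + ‖r • u‖ ^ 2 * z : ℝ) : ℂ) * Complex.I) *
      f (r • u)) =ᵐ[sg d] fun u => (Complex.exp (-((r ^ 2 * z : ℝ) : ℂ) * Complex.I) *
        ((r ^ l : ℝ) : ℂ)) * (Complex.exp (-((⟪(ρ * r) • w, u⟫ : ℝ) : ℂ) * Complex.I) * ev P u) := by
    filter_upwards [sg_ae d] with u hu
    have hru : ‖r • u‖ = r := by rw [norm_smul, hu, mul_one, Real.norm_of_nonneg hr0.le]
    rw [hP3 _ hru, ev_smul l P hP1, hru]
    have e1 : Complex.exp (-((⟪ρ • w, r • u⟫ + r ^ 2 * z : ℝ) : ℂ) * Complex.I) =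
        Complex.exp (-((r ^ 2 * z : ℝ) : ℂ) * Complex.I) *
        Complex.exp (-((⟪(ρ * r) • w, u⟫ : ℝ) : ℂ) * Complex.I) := by
      rw [← Complex.exp_add]
      congr 1
      rw [real_inner_smul_left, real_inner_smul_left, real_inner_smul_right]
      push_cast
      ring
    rw [e1]
    ring
  rw [integral_congr_ae hae, integral_const_mul]
  have hT : ∫ u, Complex.exp (-((⟪(ρ * r) • w, u⟫ : ℝ) : ℂ) * Complex.I) * ev P u ∂(sg d) =
      T (ev P) ((ρ * r) • w) := rfl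
  rw [hT, T_norm hd l P hP1 hP2 w hw _ (by positivity)]
  have hrw : ‖r • w‖ = r := by rw [norm_smul, hw, mul_one, Real.norm_of_nonneg hr0.le]
  rw [hP3 _ hrw, ev_smul l P hP1]
  ring

/-- the substitution `t = r²` -/
theorem sq_subst (h : ℝ → ℂ) : ∫ r in Ioo (0 : ℝ) 1, h r =
    ∫ t in Ioo (0 : ℝ) 1, ((1 / (2 * qs t) : ℝ) : ℂ) * h (qs t) := by
  have himg : qs '' (Ioo (0 : ℝ) 1) = Ioo (0 : ℝ) 1 := by
    ext r
    constructor
    · rintro ⟨t, ht, rfl⟩
      unfold qs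
      exact ⟨Real.sqrt_pos.2 ht.1, by rw [Real.sqrt_lt' one_pos]; linarith [ht.2]⟩
    · intro hr
      refine ⟨r ^ 2, ⟨by have := hr.1; positivity, ?_⟩, ?_⟩
      · nlinarith [hr.1, hr.2]
      · unfold qs
        exact Real.sqrt_sq hr.1.le
  have hinj : InjOn qs (Ioo (0 : ℝ) 1) := by
    intro a ha b hb hab
    unfold qs at hab
    have h1 := congrArg (fun x => x ^ 2) hab
    simp only [Real.sq_sqrt ha.1.le, Real.sq_sqrt hb.1.le] at h1
    exact h1
  have hder : ∀ t ∈ Ioo (0 : ℝ) 1, HasDerivWithinAt qs (1 / (2 * qs t)) (Ioo (0 : ℝ) 1) t := by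
    intro t ht
    exact (Real.hasDerivAt_sqrt ht.1.ne').hasDerivWithinAt
  have h1 := integral_image_eq_integral_abs_deriv_smul measurableSet_Ioo hder hinj h
  rw [himg] at h1
  rw [h1]
  refine setIntegral_congr_fun measurableSet_Ioo fun t ht => ?_
  beta_reduce
  have hq : 0 < qs t := qs_pos ht.1
  rw [abs_of_pos (by positivity), Complex.real_smul]

/-- the one dimensional densities -/
noncomputable def dens (f : E d → ℂ) (w : E d) (t : ℝ) : ℂ :=
  ((qs t ^ (((d : ℝ) - 2) / 2) / 2 : ℝ) : ℂ) * f (qs t • w)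

theorem dens_meas {f : E d → ℂ} (hf : Measurable f) :
    Measurable (Function.uncurry (dens f)) := by
  have h1 : Measurable fun p : E d × ℝ => ((qs p.2 ^ (((d : ℝ) - 2) / 2) / 2 : ℝ) : ℂ) :=
    Complex.measurable_ofReal.comp (((qs_meas.comp measurable_snd).pow_const _).div_const _)
  exact h1.mul (hf.comp ((qs_meas.comp measurable_snd).smul measurable_fst))

/-- the extension operator on a ray -/
theorem X_ga (hd : 2 ≤ d) {l : ℕ} {f : E d → ℂ} (hf : Integrable f) (hA : Ang l f)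
    (h1 : ∀ ξ, 1 ≤ ‖ξ‖ → f ξ = 0) {ρ : ℝ} (hρ : 0 ≤ ρ) (w : E d) (hw : ‖w‖ = 1) (z : ℝ) :
    X f (ρ • w) z = (-Complex.I) ^ l * ∫ t in Ioo (0 : ℝ) 1,
      Complex.exp (-((z * t : ℝ) : ℂ) * Complex.I) *
        (((qs t ^ (d - 2) / 2 * ga d l (ρ * qs t) : ℝ) : ℂ) * f (qs t • w)) := by
  rw [X_polar hd hf hA hρ w hw z]
  have e1 : ∫ r in Ioi (0 : ℝ), ((r ^ (d - 1) : ℝ) : ℂ) *
      (Complex.exp (-((r ^ 2 * z : ℝ) : ℂ) * Complex.I) *
        ((-Complex.I) ^ l * (ga d l (ρ * r) : ℂ) * f (r • w))) =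
      ∫ r in Ioo (0 : ℝ) 1, ((r ^ (d - 1) : ℝ) : ℂ) *
      (Complex.exp (-((r ^ 2 * z : ℝ) : ℂ) * Complex.I) *
        ((-Complex.I) ^ l * (ga d l (ρ * r) : ℂ) * f (r • w))) := by
    rw [← integral_indicator measurableSet_Ioi, ← integral_indicator measurableSet_Ioo]
    congr 1
    funext r
    by_cases hr : r ∈ Ioo (0 : ℝ) 1
    · rw [indicator_of_mem hr, indicator_of_mem (show r ∈ Ioi (0 : ℝ) from hr.1)]
    · rw [indicator_of_notMem hr]
      by_cases hr0 : r ∈ Ioi (0 : ℝ)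
      · rw [indicator_of_mem hr0]
        have hr1 : 1 ≤ r := by
          by_contra hc
          exact hr ⟨hr0, not_le.1 hc⟩
        rw [h1 (r • w) (by rw [norm_smul, hw, mul_one]; exact hr1.trans (le_abs_self r)),
          mul_zero, mul_zero, mul_zero]
      · rw [indicator_of_notMem hr0]
  rw [e1, sq_subst, ← integral_const_mul]
  refine setIntegral_congr_fun measurableSet_Ioo fun t ht => ?_
  beta_reduce
  have hq : 0 < qs t := qs_pos ht.1
  have hq2 : qs t ^ 2 = t := Real.sq_sqrt ht.1.le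
  have h3 : qs t ^ (d - 1) = qs t * qs t ^ (d - 2) := by
    rw [← pow_succ']
    congr 1
    omega
  rw [hq2, h3]
  have h4 : ((1 / (2 * qs t) : ℝ) : ℂ) * ((qs t * qs t ^ (d - 2) : ℝ) : ℂ) =
      ((qs t ^ (d - 2) / 2 : ℝ) : ℂ) := by
    rw [← Complex.ofReal_mul]
    congr 1
    field_simp
  rw [← mul_assoc, h4, mul_comm t z]
  push_cast
  ring

/-- the extension operator on a ray, by the normalised radial factors -/
theorem X_TT (hd : 2 ≤ d) {l : ℕ} {f : E d → ℂ} (hf : Integrable f) (hA : Ang l f)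
    (h1 : ∀ ξ, 1 ≤ ‖ξ‖ → f ξ = 0) {ρ : ℝ} (hρ : 0 < ρ) (w : E d) (hw : ‖w‖ = 1) (z : ℝ) :
    X f (ρ • w) z = (-Complex.I) ^ l * ((ρ ^ (-(((d : ℝ) - 2) / 2)) : ℝ) : ℂ) *
      TT (jj d l) (dens f w) ρ z := by
  rw [X_ga hd hf hA h1 hρ.le w hw z, mul_assoc]
  congr 1
  unfold TT
  rw [← integral_const_mul]
  refine setIntegral_congr_fun measurableSet_Ioo fun t ht => ?_
  beta_reduce
  have hq : 0 < qs t := qs_pos ht.1
  have e := jj_ga d l ρ (qs t) hρ hq hd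
  unfold dens
  have e2 : ((qs t ^ (d - 2) / 2 * ga d l (ρ * qs t) : ℝ) : ℂ) =
      ((ρ ^ (-(((d : ℝ) - 2) / 2)) : ℝ) : ℂ) * (((qs t ^ (((d : ℝ) - 2) / 2) / 2 : ℝ) : ℂ) *
        (jj d l (ρ * qs t) : ℂ)) := by
    rw [← Complex.ofReal_mul, ← Complex.ofReal_mul]
    congr 1
    linear_combination (1 / 2) * e
  rw [e2]
  ring

end Pool.Agent.H243.RP
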