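import Mathlib
import Pool.Agent.H243.RP.Q12
import Pool.Graph.R_seed8.TH277.HT.A
set_option autoImplicit false

/-! Scaling of integrals, and the elementary bound for the one dimensional Fourier transform. -/

open MeasureTheory Set
open scoped ENNReal RealInnerProductSpace

namespace Pool.Agent.H243.RP

theorem lint_smul {V : Type*} [NormedAddCommGroup V] [NormedSpace ℝ V] [MeasurableSpace V]
    [BorelSpace V] [FiniteDimensional ℝ V] (μ : Measure V) [μ.IsAddHaarMeasure] (f : V → ℝ≥0∞)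
    (hf : Measurable f) {r : ℝ} (hr : r ≠ 0) :
    ∫⁻ x, f (r • x) ∂μ = ENNReal.ofReal |(r ^ Module.finrank ℝ V)⁻¹| * ∫⁻ x, f x ∂μ := by
  rw [← lintegral_map hf (measurable_const_smul r), Measure.map_addHaar_smul μ hr,
    lintegral_smul_measure, smul_eq_mul]

theorem lint_mul (f : ℝ → ℝ≥0∞) (hf : Measurable f) {r : ℝ} (hr : r ≠ 0) :
    ∫⁻ x, f (r * x) = ENNReal.ofReal |r⁻¹| * ∫⁻ x, f x := by
  have := lint_smul (volume : Measure ℝ) f hf hr
  simpa using this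

theorem planch (h : ℝ → ℂ) (h1 : Integrable h) (h2 : MemLp h 2) :
    ∫⁻ z : ℝ, ‖∫ t, Complex.exp (-((z * t : ℝ) : ℂ) * Complex.I) * h t‖ₑ ^ 2 =
      ENNReal.ofReal (2 * Real.pi) * ∫⁻ t, ‖h t‖ₑ ^ 2 := by
  have hpi := Real.pi_pos
  set F : ℝ → ℝ≥0∞ := fun x => ‖∫ u : ℝ, Pool.Agent.TH277.HT.ch (u * x) • h u‖ₑ ^ 2 with hF
  have hp : ∫⁻ x, F x = ∫⁻ t, ‖h t‖ₑ ^ 2 := Pool.Agent.TH277.HT.planch1 h h1 h2
  have hFm : Measurable F := by
    apply Measurable.pow_const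
    apply Measurable.enorm
    have hsm : AEStronglyMeasurable h := h1.aestronglyMeasurable
    set g := hsm.mk h with hg
    have hgm : StronglyMeasurable g := hsm.stronglyMeasurable_mk
    have e : (fun x : ℝ => ∫ u : ℝ, Pool.Agent.TH277.HT.ch (u * x) • h u) =
        fun x : ℝ => ∫ u : ℝ, Pool.Agent.TH277.HT.ch (u * x) • g u := by
      funext x
      apply integral_congr_ae
      filter_upwards [hsm.ae_eq_mk] with u hu
      rw [hu]
    rw [e]
    apply StronglyMeasurable.measurable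
    apply StronglyMeasurable.integral_prod_right (f := fun (x u : ℝ) =>
      Pool.Agent.TH277.HT.ch (u * x) • g u)
    apply Measurable.stronglyMeasurable
    exact (Pool.Agent.TH277.HT.ch_cont.measurable.comp (measurable_snd.mul measurable_fst)).smul
      (hgm.measurable.comp measurable_snd)
  have h3 := lint_mul F hFm (r := -(2 * Real.pi)⁻¹) (by
    have : (2 * Real.pi)⁻¹ ≠ 0 := by positivity
    simpa using this)
  have h4 : |(-(2 * Real.pi)⁻¹)⁻¹| = 2 * Real.pi := by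
    rw [inv_neg, inv_inv, abs_neg, abs_of_pos (by positivity)]
  rw [h4, hp] at h3
  rw [← h3]
  refine lintegral_congr fun z => ?_
  simp only [hF]
  congr 3
  funext t
  rw [smul_eq_mul]
  congr 1
  unfold Pool.Agent.TH277.HT.ch
  congr 1
  have hpi' : (Real.pi : ℂ) ≠ 0 := by exact_mod_cast hpi.ne'
  push_cast
  field_simp

theorem fourier_le_int (h : ℝ → ℂ) (z : ℝ) :
    ‖∫ t, Complex.exp (-((z * t : ℝ) : ℂ) * Complex.I) * h t‖ₑ ≤ ∫⁻ t, ‖h t‖ₑ := by
  refine (enorm_integral_le_lintegral_enorm _).trans (le_of_eq ?_)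
  refine lintegral_congr fun t => ?_
  rw [enorm_mul, ← ofReal_norm, norm_phase, ENNReal.ofReal_one, one_mul]

theorem hy_q (q : ℝ) (hq : 2 ≤ q) (h : ℝ → ℂ) (hm : Measurable h)
    (h0 : ∀ t, t ∉ Ioo (0 : ℝ) 1 → h t = 0) :
    ∫⁻ z : ℝ, ‖∫ t, Complex.exp (-((z * t : ℝ) : ℂ) * Complex.I) * h t‖ₑ ^ q ≤
      ENNReal.ofReal (2 * Real.pi) * ∫⁻ t, ‖h t‖ₑ ^ q := by
  have hpi := Real.pi_pos
  have hq0 : 0 < q := by linarith
  rcases eq_or_ne (∫⁻ t, ‖h t‖ₑ ^ q) ∞ with hinf | hfin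
  · rw [hinf, ENNReal.mul_top]
    · exact le_top
    · simpa using hpi
  -- everything happens on the unit interval
  set μ : Measure ℝ := volume.restrict (Ioo (0 : ℝ) 1) with hμ
  haveI : IsProbabilityMeasure μ := ⟨by rw [hμ, Measure.restrict_apply_univ, Real.volume_Ioo]; simp⟩
  have hr : ∀ p : ℝ, 0 < p → ∫⁻ t, ‖h t‖ₑ ^ p = ∫⁻ t, ‖h t‖ₑ ^ p ∂μ := by
    intro p hp
    rw [hμ, ← lintegral_indicator measurableSet_Ioo]
    refine lintegral_congr fun t => ?_
    by_cases ht : t ∈ Ioo (0 : ℝ) 1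
    · rw [indicator_of_mem ht]
    · rw [indicator_of_notMem ht, h0 t ht, enorm_zero, ENNReal.zero_rpow_of_pos hp]
  have he : ∀ p : ℝ, 0 < p → (eLpNorm h (ENNReal.ofReal p) μ) ^ p = ∫⁻ t, ‖h t‖ₑ ^ p := by
    intro p hp
    rw [hr p hp, eLpNorm_eq_lintegral_rpow_enorm_toReal (by simpa using hp) ENNReal.ofReal_ne_top,
      ENNReal.toReal_ofReal hp.le, ← ENNReal.rpow_mul, one_div, inv_mul_cancel₀ hp.ne',
      ENNReal.rpow_one]
  set N : ℝ≥0∞ := eLpNorm h (ENNReal.ofReal q) μ with hN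
  have hle : ∀ p : ℝ, 0 < p → p ≤ q → eLpNorm h (ENNReal.ofReal p) μ ≤ N := by
    intro p hp hpq
    exact eLpNorm_le_eLpNorm_of_exponent_le (ENNReal.ofReal_le_ofReal hpq)
      hm.aestronglyMeasurable
  have hN1 : ∫⁻ t, ‖h t‖ₑ ≤ N := by
    have h1 := he 1 one_pos
    simp only [ENNReal.rpow_one] at h1
    rw [← h1]
    exact hle 1 one_pos (by linarith)
  have hN2 : ∫⁻ t, ‖h t‖ₑ ^ 2 ≤ N ^ (2 : ℝ) := by
    have h1 := he 2 two_pos
    simp only [ENNReal.rpow_two] at h1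
    rw [← h1, ENNReal.rpow_two]
    exact pow_le_pow_left' (hle 2 two_pos hq) 2
  have hNf : N ≠ ∞ := by
    intro hc
    apply hfin
    rw [← he q hq0, ← hN, hc, ENNReal.top_rpow_of_pos hq0]
  have hI1 : Integrable h := by
    refine ⟨hm.aestronglyMeasurable, ?_⟩
    exact lt_of_le_of_lt hN1 hNf.lt_top
  have hI2 : MemLp h 2 := by
    refine ⟨hm.aestronglyMeasurable, ?_⟩
    rw [eLpNorm_lt_top_iff_lintegral_rpow_enorm_lt_top (by norm_num) (by norm_num)]
    simp only [ENNReal.toReal_ofNat, ENNReal.rpow_two]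
    exact lt_of_le_of_lt hN2 (ENNReal.rpow_lt_top_of_nonneg (by norm_num) hNf)
  have hpl := planch h hI1 hI2
  calc ∫⁻ z : ℝ, ‖∫ t, Complex.exp (-((z * t : ℝ) : ℂ) * Complex.I) * h t‖ₑ ^ q
      ≤ ∫⁻ z : ℝ, N ^ (q - 2) *
          ‖∫ t, Complex.exp (-((z * t : ℝ) : ℂ) * Complex.I) * h t‖ₑ ^ 2 := by
        refine lintegral_mono fun z => ?_
        set a := ‖∫ t, Complex.exp (-((z * t : ℝ) : ℂ) * Complex.I) * h t‖ₑ with ha
        have hle : a ≤ N := (fourier_le_int h z).trans hN1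
        have e : a ^ q = a ^ (q - 2) * a ^ 2 := by
          rw [← ENNReal.rpow_two, ← ENNReal.rpow_add_of_nonneg _ _ (by linarith) (by norm_num)]
          congr 1
          ring
        rw [e]
        exact mul_le_mul' (ENNReal.rpow_le_rpow hle (by linarith)) le_rfl
    _ = N ^ (q - 2) * (ENNReal.ofReal (2 * Real.pi) * ∫⁻ t, ‖h t‖ₑ ^ 2) := by
        rw [lintegral_const_mul' _ _ (ENNReal.rpow_ne_top_of_nonneg (by linarith) hNf), hpl]
    _ ≤ N ^ (q - 2) * (ENNReal.ofReal (2 * Real.pi) * N ^ (2 : ℝ)) := by gcongr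
    _ = ENNReal.ofReal (2 * Real.pi) * (N ^ (q - 2) * N ^ (2 : ℝ)) := by ring
    _ = _ := by
        rw [← ENNReal.rpow_add_of_nonneg _ _ (by linarith) (by norm_num), ← he q hq0, ← hN]
        congr 2
        ring

end Pool.Agent.H243.RP
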