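import Mathlib
import Pool.Agent.H243.RP.Q13
set_option autoImplicit false

/-! The bound for functions of one angular momentum on an annulus. -/

open MeasureTheory Set
open scoped ENNReal RealInnerProductSpace

namespace Pool.Agent.H243.RP

open Pool.Agent.W5h55.SH hiding e0 e0_norm
open Pool.Agent.H789R2.FR (E sg T sg_finite sg_ae polar)
open Pool.Agent.H243.RA (jj kk jj_BD jj_cont jj_ga)

variable {d : ℕ}

/-- the mass on a ray -/
noncomputable def ray (q : ℝ) (f : E d → ℂ) (w : E d) : ℝ≥0∞ :=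
  ∫⁻ r in Ioi (0 : ℝ), ENNReal.ofReal (r ^ (d - 1)) * ‖f (r • w)‖ₑ ^ q

theorem lint_sq_subst (F : ℝ → ℝ≥0∞) : ∫⁻ t in Ioo (0 : ℝ) 1, F (qs t) =
    ∫⁻ r in Ioo (0 : ℝ) 1, ENNReal.ofReal (2 * r) * F r := by
  have himg : (fun r : ℝ => r ^ 2) '' (Ioo (0 : ℝ) 1) = Ioo (0 : ℝ) 1 := by
    ext t
    constructor
    · rintro ⟨r, hr, rfl⟩
      exact ⟨by have := hr.1; positivity, by simp only; nlinarith [hr.1, hr.2]⟩
    · intro ht
      refine ⟨Real.sqrt t, ⟨Real.sqrt_pos.2 ht.1, ?_⟩, Real.sq_sqrt ht.1.le⟩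
      rw [Real.sqrt_lt' one_pos]
      linarith [ht.2]
  have hinj : InjOn (fun r : ℝ => r ^ 2) (Ioo (0 : ℝ) 1) := by
    intro a ha b hb hab
    simp only at hab
    have h1 : (a - b) * (a + b) = 0 := by ring_nf; linarith
    rcases mul_eq_zero.1 h1 with h | h
    · linarith
    · linarith [ha.1, hb.1]
  have hder : ∀ r ∈ Ioo (0 : ℝ) 1, HasDerivWithinAt (fun r : ℝ => r ^ 2) (2 * r)
      (Ioo (0 : ℝ) 1) r := by
    intro r _
    have := (hasDerivAt_pow 2 r).hasDerivWithinAt (s := Ioo (0 : ℝ) 1)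
    simpa using this
  have h1 := lintegral_image_eq_lintegral_abs_deriv_mul measurableSet_Ioo hder hinj
    (fun t => F (qs t))
  rw [himg] at h1
  rw [h1]
  refine setLIntegral_congr_fun measurableSet_Ioo fun r hr => ?_
  have e : qs (r ^ 2) = r := Real.sqrt_sq hr.1.le
  beta_reduce
  rw [e, abs_of_pos (by have := hr.1; positivity)]

theorem ray_sub (hd : 2 ≤ d) {q : ℝ} (hq : 0 < q) {f : E d → ℂ}
    (h0 : ∀ ξ, ¬ (1 / 2 < ‖ξ‖ ∧ ‖ξ‖ < 1) → f ξ = 0) (w : E d) (hw : ‖w‖ = 1) :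
    ∫⁻ t in Ioo (0 : ℝ) 1, ‖f (qs t • w)‖ₑ ^ q ≤ ENNReal.ofReal (2 ^ d) * ray q f w := by
  rw [lint_sq_subst (fun r => ‖f (r • w)‖ₑ ^ q)]
  unfold ray
  rw [← lintegral_const_mul' _ _ ENNReal.ofReal_ne_top, ← lintegral_indicator measurableSet_Ioo,
    ← lintegral_indicator measurableSet_Ioi]
  refine lintegral_mono fun r => ?_
  by_cases hr : r ∈ Ioo (0 : ℝ) 1
  · rw [indicator_of_mem hr, indicator_of_mem (show r ∈ Ioi (0 : ℝ) from hr.1), ← mul_assoc,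
      ← ENNReal.ofReal_mul (by positivity)]
    have hn : ‖r • w‖ = r := by rw [norm_smul, hw, mul_one, Real.norm_of_nonneg hr.1.le]
    by_cases h2 : 1 / 2 < r
    · refine mul_le_mul' (ENNReal.ofReal_le_ofReal ?_) le_rfl
      have h3 : (1 / 2 : ℝ) ^ (d - 1) ≤ r ^ (d - 1) := pow_le_pow_left₀ (by norm_num) h2.le _
      have h4 : (2 : ℝ) ^ d * (1 / 2 : ℝ) ^ (d - 1) = 2 := by
        obtain ⟨m, rfl⟩ : ∃ m, d = m + 1 := ⟨d - 1, by omega⟩
        rw [Nat.add_sub_cancel, pow_succ, mul_assoc, mul_comm (2 : ℝ) ((1 / 2) ^ m), ← mul_assoc,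
          ← mul_pow]
        norm_num
      have h5 : (2 : ℝ) ^ d * (1 / 2 : ℝ) ^ (d - 1) ≤ 2 ^ d * r ^ (d - 1) := by gcongr
      have h6 := hr.2
      linarith
    · have : f (r • w) = 0 := h0 _ (by rw [hn]; tauto)
      rw [this, enorm_zero, ENNReal.zero_rpow_of_pos hq, mul_zero]
      exact bot_le
  · rw [indicator_of_notMem hr]
    exact bot_le

theorem qs_le_one {t : ℝ} (ht : t ∈ Ioo (0 : ℝ) 1) : qs t ≤ 1 := by
  unfold qs
  rw [Real.sqrt_le_left (by norm_num)]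
  linarith [ht.2]

theorem half_lt_qs {t : ℝ} (h0 : 0 < t) : 1 / 2 < qs t ↔ 1 / 4 < t := by
  unfold qs
  rw [Real.lt_sqrt (by norm_num)]
  norm_num

theorem dens_cut {f : E d → ℂ} (h0 : ∀ ξ, ¬ (1 / 2 < ‖ξ‖ ∧ ‖ξ‖ < 1) → f ξ = 0)
    (w : E d) (hw : ‖w‖ = 1) : dens f w = cut (dens f w) := by
  funext t
  unfold cut
  by_cases ht : t ∈ Ioo (1 / 4 : ℝ) 1
  · rw [indicator_of_mem ht]
  · rw [indicator_of_notMem ht]
    unfold dens
    rw [h0 _, mul_zero]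
    intro ⟨h1, h2⟩
    have hn : ‖qs t • w‖ = qs t := by
      rw [norm_smul, hw, mul_one, Real.norm_of_nonneg (show 0 ≤ qs t from Real.sqrt_nonneg _)]
    rw [hn] at h1 h2
    apply ht
    have ht0 : 0 < t := by
      by_contra hc
      unfold qs at h1
      rw [Real.sqrt_eq_zero_of_nonpos (not_lt.1 hc)] at h1
      norm_num at h1
    refine ⟨(half_lt_qs ht0).1 h1, ?_⟩
    unfold qs at h2
    rw [Real.sqrt_lt' one_pos] at h2
    linarith

theorem dens_le (hd : 2 ≤ d) (f : E d → ℂ) (w : E d) {t : ℝ} (ht : t ∈ Ioo (0 : ℝ) 1) :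
    ‖dens f w t‖ ≤ ‖f (qs t • w)‖ := by
  unfold dens
  have h2 : (2 : ℝ) ≤ d := by exact_mod_cast hd
  have hq := qs_pos ht.1
  rw [norm_mul, Complex.norm_real, Real.norm_of_nonneg (by positivity)]
  have h1 : qs t ^ (((d : ℝ) - 2) / 2) ≤ 1 :=
    Real.rpow_le_one hq.le (qs_le_one ht) (by linarith)
  calc _ ≤ 1 * ‖f (qs t • w)‖ := by
        apply mul_le_mul_of_nonneg_right _ (norm_nonneg _)
        linarith
    _ = _ := one_mul _

theorem dens_mass (hd : 2 ≤ d) {q : ℝ} (hq : 0 < q) {f : E d → ℂ}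
    (h0 : ∀ ξ, ¬ (1 / 2 < ‖ξ‖ ∧ ‖ξ‖ < 1) → f ξ = 0) (w : E d) (hw : ‖w‖ = 1) :
    ∫⁻ t, ‖dens f w t‖ₑ ^ q ≤ ENNReal.ofReal (2 ^ d) * ray q f w := by
  refine le_trans ?_ (ray_sub hd hq h0 w hw)
  rw [← lintegral_indicator measurableSet_Ioo]
  refine lintegral_mono fun t => ?_
  by_cases ht : t ∈ Ioo (0 : ℝ) 1
  · rw [indicator_of_mem ht]
    apply ENNReal.rpow_le_rpow _ hq.le
    rw [← ofReal_norm, ← ofReal_norm]
    exact ENNReal.ofReal_le_ofReal (dens_le hd f w ht)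
  · rw [indicator_of_notMem ht, dens_cut h0 w hw]
    unfold cut
    rw [indicator_of_notMem (fun h => ht ⟨by linarith [h.1], h.2⟩), enorm_zero,
      ENNReal.zero_rpow_of_pos hq]

theorem rpow_shell {Λ ρ : ℝ} (hΛ : 0 < Λ) (h1 : Λ ≤ ρ) (h2 : ρ ≤ 2 * Λ) (a : ℝ) :
    ρ ^ a ≤ 2 ^ |a| * Λ ^ a := by
  rcases le_total 0 a with ha | ha
  · rw [abs_of_nonneg ha, ← Real.mul_rpow (by norm_num) hΛ.le]
    exact Real.rpow_le_rpow (by linarith) h2 ha
  · have h3 : ρ ^ a ≤ Λ ^ a := Real.rpow_le_rpow_of_nonpos hΛ h1 ha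
    have h4 : (1 : ℝ) ≤ 2 ^ |a| := Real.one_le_rpow (by norm_num) (abs_nonneg _)
    have h5 : 0 ≤ Λ ^ a := by positivity
    nlinarith

theorem ray_shell (hd : 2 ≤ d) (q : ℝ) (hq : 2 * ((d : ℝ) + 1) / d < q) (hq4 : q < 4) :
    ∃ K η : ℝ, 0 < K ∧ 0 < η ∧ ∀ (l : ℕ) (f : E d → ℂ), Measurable f → Integrable f → Ang l f →
    (∀ ξ, ¬ (1 / 2 < ‖ξ‖ ∧ ‖ξ‖ < 1) → f ξ = 0) → ∀ Λ : ℝ, 1 ≤ Λ → ∀ w : E d, ‖w‖ = 1 →
    ∫⁻ ρ in Ioc Λ (2 * Λ), ENNReal.ofReal (ρ ^ (d - 1)) * ∫⁻ z : ℝ, ‖X f (ρ • w) z‖ₑ ^ q ≤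
      ENNReal.ofReal (K * Λ ^ (-η)) * ray q f w := by
  have hd2 : (2 : ℝ) ≤ d := by exact_mod_cast hd
  have hd0 : (0 : ℝ) < d := by linarith
  have hcrit : 2 * ((d : ℝ) + 1) < q * d := by rwa [div_lt_iff₀ hd0] at hq
  have hq2 : 2 < q := by
    by_contra hc
    push Not at hc
    nlinarith
  have hq0 : 0 < q := by linarith
  set η : ℝ := (q * d / 2 - d - 1) / 2 with hη
  have hη0 : 0 < η := by rw [hη]; linarith
  set ε : ℝ := min (1 / 2) (2 * η / (q - 2)) with hε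
  have hε0 : 0 < ε := lt_min (by norm_num) (div_pos (by linarith) (by linarith))
  have hε1 : ε < 1 := lt_of_le_of_lt (min_le_left _ _) (by norm_num)
  have hε2 : ε * (q - 2) ≤ 2 * η := by
    have h := min_le_right (1 / 2 : ℝ) (2 * η / (q - 2))
    calc ε * (q - 2) ≤ 2 * η / (q - 2) * (q - 2) := mul_le_mul_of_nonneg_right h (by linarith)
      _ = 2 * η := div_mul_cancel₀ _ (by linarith)
  obtain ⟨C, hC, hBD⟩ := jj_BD d hd
  obtain ⟨K, hK, hsh⟩ := shell_q q ε hq2 hq4 hε0 hε1 C hC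
  set a : ℝ := (d : ℝ) - 1 - q * (d - 2) / 2 with ha
  refine ⟨2 ^ |a| * K * 2 ^ d, η, by positivity, hη0, ?_⟩
  intro l f hfm hfi hA h0 Λ hΛ w hw
  have hΛ0 : 0 < Λ := by linarith
  have hjm := (jj_cont d l hd).measurable
  have hkm : Measurable (kk d l) := by
    have h1 := (phi_cont (2 * l + d) (by omega)).measurable
    have h2 := (phi_cont (2 * l + d + 2) (by omega)).measurable
    unfold kk
    fun_prop
  have hgm : Measurable (dens f w) := (dens_meas hfm).comp measurable_prodMk_left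
  have hmain := hsh (Pool.Agent.H243.RA.nu d l) (jj d l) (kk d l) (hBD l) hjm hkm
    (jj_cont d l hd) Λ hΛ (dens f w) hgm
  rw [← dens_cut h0 w hw] at hmain
  have h1 : ∀ ξ, 1 ≤ ‖ξ‖ → f ξ = 0 := fun ξ hξ => h0 ξ fun h => by linarith [h.2]
  have key : ∀ ρ ∈ Ioc Λ (2 * Λ), ENNReal.ofReal (ρ ^ (d - 1)) *
      ∫⁻ z : ℝ, ‖X f (ρ • w) z‖ₑ ^ q ≤ ENNReal.ofReal (2 ^ |a| * Λ ^ a) *
      ∫⁻ z : ℝ, ‖TT (jj d l) (dens f w) ρ z‖ₑ ^ q := by
    intro ρ hρ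
    have hρ0 : 0 < ρ := hΛ0.trans hρ.1
    have e1 : ∀ z, ‖X f (ρ • w) z‖ₑ ^ q = ENNReal.ofReal (ρ ^ (-(q * (d - 2) / 2))) *
        ‖TT (jj d l) (dens f w) ρ z‖ₑ ^ q := by
      intro z
      rw [X_TT hd hfi hA h1 hρ0 w hw z, enorm_mul, enorm_mul, enorm_pow]
      have h2 : ‖-Complex.I‖ₑ = 1 := by
        rw [← ofReal_norm, norm_neg, Complex.norm_I, ENNReal.ofReal_one]
      have h3 : ‖((ρ ^ (-(((d : ℝ) - 2) / 2)) : ℝ) : ℂ)‖ₑ =
          ENNReal.ofReal (ρ ^ (-(((d : ℝ) - 2) / 2))) := by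
        rw [← ofReal_norm, Complex.norm_real, Real.norm_of_nonneg (Real.rpow_nonneg hρ0.le _)]
      rw [h2, one_pow, one_mul, h3, ENNReal.mul_rpow_of_nonneg _ _ hq0.le,
        ENNReal.ofReal_rpow_of_pos (by positivity), ← Real.rpow_mul hρ0.le]
      congr 3
      ring
    simp_rw [e1]
    rw [lintegral_const_mul' _ _ ENNReal.ofReal_ne_top, ← mul_assoc,
      ← ENNReal.ofReal_mul (by positivity)]
    refine mul_le_mul' (ENNReal.ofReal_le_ofReal ?_) le_rfl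
    have h4 : ρ ^ (d - 1) * ρ ^ (-(q * (d - 2) / 2)) = ρ ^ a := by
      rw [← Real.rpow_natCast ρ (d - 1), ← Real.rpow_add hρ0, Nat.cast_sub (by omega)]
      congr 1
      rw [ha]
      push_cast
      ring
    rw [h4]
    exact rpow_shell hΛ0 hρ.1.le hρ.2 a
  calc ∫⁻ ρ in Ioc Λ (2 * Λ), ENNReal.ofReal (ρ ^ (d - 1)) * ∫⁻ z : ℝ, ‖X f (ρ • w) z‖ₑ ^ q
      ≤ ∫⁻ ρ in Ioc Λ (2 * Λ), ENNReal.ofReal (2 ^ |a| * Λ ^ a) *
          ∫⁻ z : ℝ, ‖TT (jj d l) (dens f w) ρ z‖ₑ ^ q := setLIntegral_mono' measurableSet_Ioc key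
    _ = ENNReal.ofReal (2 ^ |a| * Λ ^ a) * ∫⁻ ρ in Ioc Λ (2 * Λ),
          ∫⁻ z : ℝ, ‖TT (jj d l) (dens f w) ρ z‖ₑ ^ q :=
        lintegral_const_mul' _ _ ENNReal.ofReal_ne_top
    _ ≤ ENNReal.ofReal (2 ^ |a| * Λ ^ a) * (ENNReal.ofReal (K * Λ ^ (-((q - 2) * (1 - ε / 2)))) *
          (ENNReal.ofReal (2 ^ d) * ray q f w)) := by
        refine mul_le_mul' le_rfl (hmain.trans (mul_le_mul' le_rfl (dens_mass hd hq0 h0 w hw)))
    _ = ENNReal.ofReal (2 ^ |a| * Λ ^ a * (K * Λ ^ (-((q - 2) * (1 - ε / 2)))) * 2 ^ d) *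
          ray q f w := by
        rw [ENNReal.ofReal_mul (q := 2 ^ d) (by positivity),
          ENNReal.ofReal_mul (q := K * Λ ^ (-((q - 2) * (1 - ε / 2)))) (by positivity)]
        simp only [mul_assoc]
    _ ≤ _ := by
        refine mul_le_mul' (ENNReal.ofReal_le_ofReal ?_) le_rfl
        have h5 : Λ ^ a * Λ ^ (-((q - 2) * (1 - ε / 2))) ≤ Λ ^ (-η) := by
          rw [← Real.rpow_add hΛ0]
          apply Real.rpow_le_rpow_of_exponent_le hΛ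
          rw [ha]
          have h6 : η = (q * d / 2 - d - 1) / 2 := hη
          nlinarith
        calc 2 ^ |a| * Λ ^ a * (K * Λ ^ (-((q - 2) * (1 - ε / 2)))) * 2 ^ d
            = 2 ^ |a| * K * 2 ^ d * (Λ ^ a * Λ ^ (-((q - 2) * (1 - ε / 2)))) := by ring
          _ ≤ 2 ^ |a| * K * 2 ^ d * Λ ^ (-η) := by gcongr

theorem ray_inner (hd : 2 ≤ d) (q : ℝ) (hq : 2 ≤ q) :
    ∃ K : ℝ, 0 < K ∧ ∀ (l : ℕ) (f : E d → ℂ), Measurable f → Integrable f → Ang l f →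
    (∀ ξ, ¬ (1 / 2 < ‖ξ‖ ∧ ‖ξ‖ < 1) → f ξ = 0) → ∀ w : E d, ‖w‖ = 1 →
    ∫⁻ ρ in Ioc (0 : ℝ) 1, ENNReal.ofReal (ρ ^ (d - 1)) * ∫⁻ z : ℝ, ‖X f (ρ • w) z‖ₑ ^ q ≤
      ENNReal.ofReal K * ray q f w := by
  have hpi := Real.pi_pos
  have hq0 : 0 < q := by linarith
  have := sg_finite d
  set A : ℝ := (sg d).real univ with hAd
  have hA0 : 0 ≤ A := by positivity
  refine ⟨2 * Real.pi * (A + 1) ^ q * 2 ^ d, by positivity, ?_⟩
  intro l f hfm hfi hA h0 w hw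
  have h1 : ∀ ξ, 1 ≤ ‖ξ‖ → f ξ = 0 := fun ξ hξ => h0 ξ fun h => by linarith [h.2]
  have key : ∀ ρ ∈ Ioc (0 : ℝ) 1, ENNReal.ofReal (ρ ^ (d - 1)) *
      ∫⁻ z : ℝ, ‖X f (ρ • w) z‖ₑ ^ q ≤
      ENNReal.ofReal (2 * Real.pi * (A + 1) ^ q * 2 ^ d) * ray q f w := by
    intro ρ hρ
    set h : ℝ → ℂ := (Ioo (0 : ℝ) 1).indicator fun t =>
      ((qs t ^ (d - 2) / 2 * ga d l (ρ * qs t) : ℝ) : ℂ) * f (qs t • w) with hh
    have hhm : Measurable h := by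
      apply Measurable.indicator _ measurableSet_Ioo
      apply Measurable.mul
      · apply Complex.measurable_ofReal.comp
        apply Measurable.mul ((qs_meas.pow_const _).div_const _)
        exact (ga_cont (by omega) l).measurable.comp (qs_meas.const_mul ρ)
      · exact hfm.comp (qs_meas.smul_const w)
    have e1 : ∀ z, ‖X f (ρ • w) z‖ₑ =
        ‖∫ t, Complex.exp (-((z * t : ℝ) : ℂ) * Complex.I) * h t‖ₑ := by
      intro z
      rw [X_ga hd hfi hA h1 hρ.1.le w hw z, enorm_mul, enorm_pow]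
      have h2 : ‖-Complex.I‖ₑ = 1 := by
        rw [← ofReal_norm, norm_neg, Complex.norm_I, ENNReal.ofReal_one]
      rw [h2, one_pow, one_mul, ← integral_indicator measurableSet_Ioo]
      congr 2
      funext t
      rw [hh]
      by_cases ht : t ∈ Ioo (0 : ℝ) 1
      · rw [indicator_of_mem ht, indicator_of_mem ht]
      · rw [indicator_of_notMem ht, indicator_of_notMem ht, mul_zero]
    simp_rw [e1]
    have h3 := hy_q q hq h hhm (fun t ht => indicator_of_notMem ht _)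
    have h4 : ∫⁻ t, ‖h t‖ₑ ^ q ≤ ENNReal.ofReal ((A + 1) ^ q) *
        ∫⁻ t in Ioo (0 : ℝ) 1, ‖f (qs t • w)‖ₑ ^ q := by
      rw [← lintegral_const_mul' _ _ ENNReal.ofReal_ne_top, ← lintegral_indicator measurableSet_Ioo]
      refine lintegral_mono fun t => ?_
      by_cases ht : t ∈ Ioo (0 : ℝ) 1
      · rw [hh, indicator_of_mem ht, indicator_of_mem ht, enorm_mul,
          ENNReal.mul_rpow_of_nonneg _ _ hq0.le, ← ENNReal.ofReal_rpow_of_pos (by positivity)]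
        refine mul_le_mul' (ENNReal.rpow_le_rpow ?_ hq0.le) le_rfl
        rw [← ofReal_norm, Complex.norm_real]
        apply ENNReal.ofReal_le_ofReal
        have hqp := qs_pos ht.1
        rw [norm_mul, Real.norm_of_nonneg (by positivity), Real.norm_eq_abs]
        have h5 := ga_le hd l (ρ * qs t) (by have := hρ.1; positivity)
        have h6 : qs t ^ (d - 2) ≤ 1 := pow_le_one₀ hqp.le (qs_le_one ht)
        calc qs t ^ (d - 2) / 2 * |ga d l (ρ * qs t)| ≤ 1 * A := by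
              apply mul_le_mul (by linarith) h5 (abs_nonneg _) zero_le_one
          _ ≤ A + 1 := by linarith
      · rw [hh, indicator_of_notMem ht, indicator_of_notMem ht, enorm_zero,
          ENNReal.zero_rpow_of_pos hq0]
    have h7 : ENNReal.ofReal (ρ ^ (d - 1)) ≤ 1 := by
      rw [← ENNReal.ofReal_one]
      exact ENNReal.ofReal_le_ofReal (pow_le_one₀ hρ.1.le hρ.2)
    calc ENNReal.ofReal (ρ ^ (d - 1)) * ∫⁻ z : ℝ,
          ‖∫ t, Complex.exp (-((z * t : ℝ) : ℂ) * Complex.I) * h t‖ₑ ^ q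
        ≤ 1 * (ENNReal.ofReal (2 * Real.pi) * (ENNReal.ofReal ((A + 1) ^ q) *
            (ENNReal.ofReal (2 ^ d) * ray q f w))) := by
          refine mul_le_mul' h7 (h3.trans (mul_le_mul' le_rfl (h4.trans (mul_le_mul' le_rfl ?_))))
          exact ray_sub hd hq0 h0 w hw
      _ = _ := by
          rw [one_mul, ENNReal.ofReal_mul (q := 2 ^ d) (by positivity),
            ENNReal.ofReal_mul (q := (A + 1) ^ q) (by positivity)]
          simp only [mul_assoc]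
  calc ∫⁻ ρ in Ioc (0 : ℝ) 1, ENNReal.ofReal (ρ ^ (d - 1)) * ∫⁻ z : ℝ, ‖X f (ρ • w) z‖ₑ ^ q
      ≤ ∫⁻ _ρ in Ioc (0 : ℝ) 1, ENNReal.ofReal (2 * Real.pi * (A + 1) ^ q * 2 ^ d) * ray q f w :=
        setLIntegral_mono' measurableSet_Ioc key
    _ = _ := by
        rw [setLIntegral_const, Real.volume_Ioc]
        simp

end Pool.Agent.H243.RP
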