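import Mathlib
import Pool.Agent.H243.RP.Q14
set_option autoImplicit false

/-! The bound on an annulus of radius one. -/

open MeasureTheory Set
open scoped ENNReal RealInnerProductSpace

namespace Pool.Agent.H243.RP

open Pool.Agent.W5h55.SH hiding e0 e0_norm
open Pool.Agent.H789R2.FR (E sg T sg_finite sg_ae polar)

variable {d : ℕ}

theorem X_meas {f : E d → ℂ} (hf : Measurable f) : Measurable fun p : E d × ℝ => X f p.1 p.2 := by
  unfold X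
  apply StronglyMeasurable.measurable
  apply StronglyMeasurable.integral_prod_right (f := fun (p : E d × ℝ) (ξ : E d) =>
    Complex.exp (-((⟪p.1, ξ⟫ + ‖ξ‖ ^ 2 * p.2 : ℝ) : ℂ) * Complex.I) * f ξ)
  apply Measurable.stronglyMeasurable
  apply Measurable.mul _ (hf.comp measurable_snd)
  apply Continuous.measurable
  fun_prop

theorem XI_meas {f : E d → ℂ} (hf : Measurable f) (q : ℝ) :
    Measurable fun x : E d => ∫⁻ z : ℝ, ‖X f x z‖ₑ ^ q :=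
  Measurable.lintegral_prod_right' ((X_meas hf).enorm.pow_const q)

theorem Ioi_split (F : ℝ → ℝ≥0∞) : ∫⁻ ρ in Ioi (0 : ℝ), F ρ ≤ (∫⁻ ρ in Ioc (0 : ℝ) 1, F ρ) +
    ∑' k : ℕ, ∫⁻ ρ in Ioc ((2 : ℝ) ^ k) (2 * 2 ^ k), F ρ := by
  have hsub : Ioi (0 : ℝ) ⊆ Ioc (0 : ℝ) 1 ∪ ⋃ k : ℕ, Ioc ((2 : ℝ) ^ k) (2 * 2 ^ k) := by
    intro ρ hρ
    have hρ0 : 0 < ρ := hρ
    rcases le_or_gt ρ 1 with h1 | h1
    · exact Or.inl ⟨hρ0, h1⟩
    · right
      obtain ⟨n, hn1, hn2⟩ := exists_mem_Ioc_zpow hρ0 (by norm_num : (1 : ℝ) < 2)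
      have hn : 0 ≤ n := by
        by_contra hc
        have h3 : (2 : ℝ) ^ (n + 1) ≤ (2 : ℝ) ^ (0 : ℤ) :=
          zpow_le_zpow_right₀ (by norm_num) (by omega)
        rw [zpow_zero] at h3
        linarith
      obtain ⟨k, rfl⟩ := Int.eq_ofNat_of_zero_le hn
      refine mem_iUnion.2 ⟨k, by simpa using hn1, ?_⟩
      have h4 : (2 : ℝ) ^ ((k : ℤ) + 1) = 2 * 2 ^ k := by
        rw [zpow_add₀ (by norm_num), zpow_one, zpow_natCast]
        ring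
      rw [← h4]
      exact hn2
  calc ∫⁻ ρ in Ioi (0 : ℝ), F ρ
      ≤ ∫⁻ ρ in Ioc (0 : ℝ) 1 ∪ ⋃ k : ℕ, Ioc ((2 : ℝ) ^ k) (2 * 2 ^ k), F ρ :=
        lintegral_mono_set hsub
    _ ≤ (∫⁻ ρ in Ioc (0 : ℝ) 1, F ρ) + ∫⁻ ρ in ⋃ k : ℕ, Ioc ((2 : ℝ) ^ k) (2 * 2 ^ k), F ρ :=
        lintegral_union_le _ _ _
    _ ≤ _ := by
        gcongr
        exact lintegral_iUnion_le _ _

theorem geom_ofReal {K η : ℝ} (hK : 0 < K) (hη : 0 < η) :
    ∃ K' : ℝ, 0 < K' ∧ ∑' k : ℕ, ENNReal.ofReal (K * ((2 : ℝ) ^ k) ^ (-η)) = ENNReal.ofReal K' := by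
  have h1 : ∀ k : ℕ, K * ((2 : ℝ) ^ k) ^ (-η) = K * ((2 : ℝ) ^ (-η)) ^ k := by
    intro k
    rw [← Real.rpow_natCast, ← Real.rpow_natCast, ← Real.rpow_mul (by norm_num),
      ← Real.rpow_mul (by norm_num), mul_comm (k : ℝ)]
  have hr : (2 : ℝ) ^ (-η) < 1 := by
    apply Real.rpow_lt_one_of_one_lt_of_neg (by norm_num) (by linarith)
  have hr0 : 0 < (2 : ℝ) ^ (-η) := by positivity
  have hs : Summable fun k : ℕ => K * ((2 : ℝ) ^ (-η)) ^ k :=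
    (summable_geometric_of_lt_one hr0.le hr).mul_left K
  refine ⟨∑' k : ℕ, K * ((2 : ℝ) ^ (-η)) ^ k, ?_, ?_⟩
  · refine hs.tsum_pos (fun k => by positivity) 0 (by simpa using hK)
  · simp_rw [h1]
    rw [ENNReal.ofReal_tsum_of_nonneg (fun k => by positivity) hs]

theorem annulus_int (hd : 2 ≤ d) (q : ℝ) (hq : 2 * ((d : ℝ) + 1) / d < q) (hq4 : q < 4) :
    ∃ K : ℝ, 0 < K ∧ ∀ (l : ℕ) (f : E d → ℂ), Measurable f → Integrable f → Ang l f →
    (∀ ξ, ¬ (1 / 2 < ‖ξ‖ ∧ ‖ξ‖ < 1) → f ξ = 0) →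
    ∫⁻ x : E d, ∫⁻ z : ℝ, ‖X f x z‖ₑ ^ q ≤ ENNReal.ofReal K * ∫⁻ ξ, ‖f ξ‖ₑ ^ q := by
  have hd2 : (2 : ℝ) ≤ d := by exact_mod_cast hd
  have hd0 : (0 : ℝ) < d := by linarith
  have hcrit : 2 * ((d : ℝ) + 1) < q * d := by rwa [div_lt_iff₀ hd0] at hq
  have hq2 : 2 < q := by
    by_contra hc
    push Not at hc
    nlinarith
  have hq0 : 0 < q := by linarith
  obtain ⟨K, η, hK, hη, h1⟩ := ray_shell hd q hq hq4
  obtain ⟨K1, hK1, h2⟩ := ray_inner hd q hq2.le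
  obtain ⟨K2, hK2, h3⟩ := geom_ofReal hK hη
  refine ⟨K1 + K2, by positivity, fun l f hfm hfi hA h0 => ?_⟩
  have key : ∀ w : E d, ‖w‖ = 1 → ∫⁻ ρ in Ioi (0 : ℝ), ENNReal.ofReal (ρ ^ (d - 1)) *
      ∫⁻ z : ℝ, ‖X f (ρ • w) z‖ₑ ^ q ≤ ENNReal.ofReal (K1 + K2) * ray q f w := by
    intro w hw
    refine (Ioi_split _).trans ?_
    calc _ ≤ ENNReal.ofReal K1 * ray q f w +
          ∑' k : ℕ, ENNReal.ofReal (K * ((2 : ℝ) ^ k) ^ (-η)) * ray q f w := by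
          refine add_le_add (h2 l f hfm hfi hA h0 w hw) (ENNReal.tsum_le_tsum fun k => ?_)
          exact h1 l f hfm hfi hA h0 (2 ^ k) (one_le_pow₀ (by norm_num)) w hw
      _ = _ := by
          rw [ENNReal.tsum_mul_right, h3, ← add_mul, ENNReal.ofReal_add hK1.le hK2.le]
  rw [polar (by omega) _ (XI_meas hfm q), polar (by omega) _ (hfm.enorm.pow_const q)]
  calc ∫⁻ w, (∫⁻ r in Ioi (0 : ℝ), ENNReal.ofReal (r ^ (d - 1)) *
        ∫⁻ z : ℝ, ‖X f (r • w) z‖ₑ ^ q) ∂(sg d)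
      ≤ ∫⁻ w, ENNReal.ofReal (K1 + K2) * ray q f w ∂(sg d) := by
        apply lintegral_mono_ae
        filter_upwards [sg_ae d] with w hw
        exact key w hw
    _ = _ := by
        rw [lintegral_const_mul' _ _ ENNReal.ofReal_ne_top]
        rfl

/-- functions in `L^q` with bounded support are integrable -/
theorem int_of_Lq {q : ℝ} (hq : 1 ≤ q) {f : E d → ℂ} (hf : Measurable f) {R : ℝ}
    (h0 : ∀ ξ, R < ‖ξ‖ → f ξ = 0) (hfin : ∫⁻ ξ, ‖f ξ‖ₑ ^ q ≠ ∞) : Integrable f := by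
  have hq0 : 0 < q := by linarith
  set μ : Measure (E d) := volume.restrict (Metric.closedBall 0 R) with hμ
  haveI : IsFiniteMeasure μ := ⟨by
    rw [hμ, Measure.restrict_apply_univ]
    exact measure_closedBall_lt_top⟩
  have h1 : MemLp f (ENNReal.ofReal q) μ := by
    refine ⟨hf.aestronglyMeasurable, ?_⟩
    rw [eLpNorm_lt_top_iff_lintegral_rpow_enorm_lt_top (by simpa using hq0) ENNReal.ofReal_ne_top,
      ENNReal.toReal_ofReal hq0.le]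
    exact lt_of_le_of_lt (lintegral_mono' Measure.restrict_le_self le_rfl) hfin.lt_top
  have h2 : Integrable f μ := h1.integrable (by
    rw [← ENNReal.ofReal_one]
    exact ENNReal.ofReal_le_ofReal hq)
  have h3 : IntegrableOn f (Metric.closedBall 0 R) := h2
  rwa [integrableOn_iff_integrable_of_support_subset] at h3
  intro ξ hξ
  rw [mem_closedBall_zero_iff]
  by_contra hc
  exact hξ (h0 ξ (not_le.1 hc))

theorem annulus (hd : 2 ≤ d) (q : ℝ) (hq : 2 * ((d : ℝ) + 1) / d < q) (hq4 : q < 4) :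
    ∃ K : ℝ, 0 < K ∧ ∀ (l : ℕ) (f : E d → ℂ), Measurable f → Ang l f →
    (∀ ξ, ¬ (1 / 2 < ‖ξ‖ ∧ ‖ξ‖ < 1) → f ξ = 0) →
    ∫⁻ x : E d, ∫⁻ z : ℝ, ‖X f x z‖ₑ ^ q ≤ ENNReal.ofReal K * ∫⁻ ξ, ‖f ξ‖ₑ ^ q := by
  obtain ⟨K, hK, h⟩ := annulus_int hd q hq hq4
  refine ⟨K, hK, fun l f hfm hA h0 => ?_⟩
  rcases eq_or_ne (∫⁻ ξ, ‖f ξ‖ₑ ^ q) ∞ with hinf | hfin
  · rw [hinf, ENNReal.mul_top (by simpa using hK)]
    exact le_top
  · refine h l f hfm (int_of_Lq (R := 1) ?_ hfm ?_ hfin) hA h0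
    · have hd2 : (2 : ℝ) ≤ d := by exact_mod_cast hd
      have hd0 : (0 : ℝ) < d := by linarith
      rw [div_lt_iff₀ hd0] at hq
      by_contra hc
      push Not at hc
      nlinarith
    · intro ξ hξ
      exact h0 ξ fun h => by linarith [h.2]

theorem X_scale (f : E d → ℂ) {a : ℝ} (ha : 0 < a) (x : E d) (z : ℝ) :
    X f x z = ((a ^ d : ℝ) : ℂ) * X (fun ξ => f (a • ξ)) (a • x) (a ^ 2 * z) := by
  have h := Measure.integral_comp_smul (volume : Measure (E d)) (fun ξ : E d =>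
    Complex.exp (-((⟪x, ξ⟫ + ‖ξ‖ ^ 2 * z : ℝ) : ℂ) * Complex.I) * f ξ) a
  have hfr : Module.finrank ℝ (E d) = d := by simp
  rw [hfr, abs_of_pos (by positivity), Complex.real_smul] at h
  have e : X (fun ξ => f (a • ξ)) (a • x) (a ^ 2 * z) = ∫ ξ : E d,
      Complex.exp (-((⟪x, a • ξ⟫ + ‖a • ξ‖ ^ 2 * z : ℝ) : ℂ) * Complex.I) * f (a • ξ) := by
    unfold X
    congr 1
    funext ξ
    congr 2
    rw [real_inner_smul_left, real_inner_smul_right, norm_smul, Real.norm_of_nonneg ha.le]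
    push_cast
    ring
  rw [e, h]
  unfold X
  rw [← mul_assoc, ← Complex.ofReal_mul, mul_inv_cancel₀ (by positivity), Complex.ofReal_one,
    one_mul]

theorem Ang_scale {l : ℕ} {f : E d → ℂ} (hA : Ang l f) {a : ℝ} (ha : 0 < a) :
    Ang l fun ξ => f (a • ξ) := by
  intro r hr
  obtain ⟨P, h1, h2, h3⟩ := hA (a * r) (by positivity)
  refine ⟨MvPolynomial.C ((a ^ l : ℝ) : ℂ) * P, ?_, ?_, fun x hx => ?_⟩
  · have := (MvPolynomial.isHomogeneous_C (Fin d) (((a ^ l : ℝ) : ℂ))).mul h1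
    rwa [zero_add] at this
  · unfold Harm at h2 ⊢
    simp only [MvPolynomial.pderiv_C_mul]
    rw [← Finset.mul_sum, h2, mul_zero]
  · beta_reduce
    rw [h3 _ (by rw [norm_smul, hx, Real.norm_of_nonneg ha.le]), ev_mul, ev_C, ev_smul l P h1]

theorem lint_X_scale {f : E d → ℂ} (hf : Measurable f) {a q : ℝ} (ha : 0 < a) (hq : 0 < q) :
    ∫⁻ x : E d, ∫⁻ z : ℝ, ‖X f x z‖ₑ ^ q = ENNReal.ofReal (a ^ (d * q - d - 2)) *
      ∫⁻ x : E d, ∫⁻ z : ℝ, ‖X (fun ξ => f (a • ξ)) x z‖ₑ ^ q := by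
  set g : E d → ℂ := fun ξ => f (a • ξ) with hg
  have hgm : Measurable g := hf.comp (measurable_const_smul a)
  have e1 : ∀ x : E d, ∫⁻ z : ℝ, ‖X f x z‖ₑ ^ q = ENNReal.ofReal (a ^ (d * q - 2)) *
      ∫⁻ z : ℝ, ‖X g (a • x) z‖ₑ ^ q := by
    intro x
    have h1 : Measurable fun z : ℝ => ‖X g (a • x) z‖ₑ ^ q :=
      (((X_meas hgm).comp measurable_prodMk_left).enorm).pow_const q
    have h2 := lint_mul (fun z : ℝ => ‖X g (a • x) z‖ₑ ^ q) h1 (r := a ^ 2) (by positivity)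
    have h3 : ∀ z, ‖X f x z‖ₑ ^ q = ENNReal.ofReal (a ^ (d * q)) *
        ‖X g (a • x) (a ^ 2 * z)‖ₑ ^ q := by
      intro z
      rw [X_scale f ha x z, enorm_mul, ENNReal.mul_rpow_of_nonneg _ _ hq.le, ← ofReal_norm,
        Complex.norm_real, Real.norm_of_nonneg (by positivity),
        ENNReal.ofReal_rpow_of_pos (by positivity), ← Real.rpow_natCast, ← Real.rpow_mul ha.le]
    simp_rw [h3]
    rw [lintegral_const_mul' _ _ ENNReal.ofReal_ne_top, h2, ← mul_assoc,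
      ← ENNReal.ofReal_mul (by positivity)]
    congr 2
    rw [abs_of_pos (by positivity), Real.rpow_sub ha, div_eq_mul_inv]
    congr 2
    norm_num
  simp_rw [e1]
  have h4 := lint_smul (volume : Measure (E d)) (fun x => ∫⁻ z : ℝ, ‖X g x z‖ₑ ^ q)
    (XI_meas hgm q) ha.ne'
  rw [lintegral_const_mul' _ _ ENNReal.ofReal_ne_top, h4, ← mul_assoc,
    ← ENNReal.ofReal_mul (by positivity)]
  have hfr : Module.finrank ℝ (E d) = d := by simp
  rw [hfr, abs_of_pos (by positivity)]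
  congr 2
  rw [← Real.rpow_natCast a d, ← Real.rpow_neg ha.le, ← Real.rpow_add ha]
  congr 1
  ring

theorem lint_f_scale {f : E d → ℂ} (hf : Measurable f) {a q : ℝ} (ha : 0 < a) :
    ∫⁻ ξ : E d, ‖f (a • ξ)‖ₑ ^ q = ENNReal.ofReal (a ^ (-(d : ℝ))) * ∫⁻ ξ : E d, ‖f ξ‖ₑ ^ q := by
  have h4 := lint_smul (volume : Measure (E d)) (fun ξ => ‖f ξ‖ₑ ^ q)
    (hf.enorm.pow_const q) ha.ne'
  have hfr : Module.finrank ℝ (E d) = d := by simp
  rw [h4, hfr, abs_of_pos (by positivity)]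
  congr 2
  rw [Real.rpow_neg ha.le, Real.rpow_natCast]

theorem annulus_a (hd : 2 ≤ d) (q : ℝ) (hq : 2 * ((d : ℝ) + 1) / d < q) (hq4 : q < 4) :
    ∃ K : ℝ, 0 < K ∧ ∀ (l : ℕ) (f : E d → ℂ), Measurable f → Ang l f → ∀ a : ℝ, 0 < a →
    (∀ ξ, ¬ (a / 2 < ‖ξ‖ ∧ ‖ξ‖ < a) → f ξ = 0) →
    ∫⁻ x : E d, ∫⁻ z : ℝ, ‖X f x z‖ₑ ^ q ≤
      ENNReal.ofReal (K * a ^ (d * q - 2 * d - 2)) * ∫⁻ ξ, ‖f ξ‖ₑ ^ q := by
  obtain ⟨K, hK, h⟩ := annulus hd q hq hq4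
  refine ⟨K, hK, fun l f hfm hA a ha h0 => ?_⟩
  have hd2 : (2 : ℝ) ≤ d := by exact_mod_cast hd
  have hq0 : 0 < q := lt_trans (by positivity) hq
  have h1 := h l (fun ξ => f (a • ξ)) (hfm.comp (measurable_const_smul a)) (Ang_scale hA ha) (by
    intro ξ hξ
    apply h0
    rw [norm_smul, Real.norm_of_nonneg ha.le]
    intro ⟨h2, h3⟩
    apply hξ
    constructor
    · by_contra hc
      push Not at hc
      nlinarith
    · by_contra hc
      push Not at hc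
      nlinarith)
  rw [lint_X_scale hfm ha hq0]
  refine (mul_le_mul' le_rfl h1).trans (le_of_eq ?_)
  rw [lint_f_scale hfm ha, ← mul_assoc, ← mul_assoc, ← ENNReal.ofReal_mul (by positivity),
    ← ENNReal.ofReal_mul (by positivity)]
  congr 2
  calc a ^ (d * q - d - 2) * K * a ^ (-(d : ℝ)) = K * (a ^ (d * q - d - 2) * a ^ (-(d : ℝ))) := by
        ring
    _ = _ := by
        rw [← Real.rpow_add ha]
        congr 2
        ring

end Pool.Agent.H243.RP
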