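import Mathlib
import Pool.Agent.H243.RP.Q15
set_option autoImplicit false

/-! Summation of the annuli: functions supported in a ball. -/

open MeasureTheory Set
open scoped ENNReal RealInnerProductSpace

namespace Pool.Agent.H243.RP

open Pool.Agent.W5h55.SH hiding e0 e0_norm
open Pool.Agent.H789R2.FR (E sg T sg_finite sg_ae polar)

variable {d : ℕ}

/-- a weighted form of Hölder's inequality for series -/
theorem tsum_pow_le {q κ : ℝ} (hq : 0 < q) (hκ : 0 < κ) : ∃ K : ℝ, 0 < K ∧ ∀ a : ℕ → ℝ≥0∞,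
    (∑' k, a k) ^ q ≤ ENNReal.ofReal K * ∑' k, ENNReal.ofReal (((2 : ℝ) ^ k) ^ κ) * a k ^ q := by
  obtain ⟨S, hS, hS'⟩ := geom_ofReal (K := 1) (η := κ / q) one_pos (by positivity)
  refine ⟨S ^ q, by positivity, fun a => ?_⟩
  set B : ℝ≥0∞ := ∑' k, ENNReal.ofReal (((2 : ℝ) ^ k) ^ κ) * a k ^ q with hB
  have h1 : ∀ k, a k ≤ ENNReal.ofReal (1 * ((2 : ℝ) ^ k) ^ (-(κ / q))) * B ^ (1 / q) := by
    intro k
    have h2 : ENNReal.ofReal (((2 : ℝ) ^ k) ^ κ) * a k ^ q ≤ B := ENNReal.le_tsum k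
    have h3 := ENNReal.rpow_le_rpow h2 (z := 1 / q) (by positivity)
    rw [ENNReal.mul_rpow_of_nonneg _ _ (by positivity), ← ENNReal.rpow_mul,
      mul_one_div_cancel hq.ne', ENNReal.rpow_one, ENNReal.ofReal_rpow_of_pos (by positivity),
      ← Real.rpow_mul (by positivity)] at h3
    calc a k = ENNReal.ofReal (1 * ((2 : ℝ) ^ k) ^ (-(κ / q))) *
          (ENNReal.ofReal (((2 : ℝ) ^ k) ^ (κ * (1 / q))) * a k) := by
          rw [← mul_assoc, ← ENNReal.ofReal_mul (by positivity), one_mul,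
            ← Real.rpow_add (by positivity)]
          have : -(κ / q) + κ * (1 / q) = 0 := by ring
          rw [this, Real.rpow_zero, ENNReal.ofReal_one, one_mul]
      _ ≤ _ := mul_le_mul' le_rfl h3
  calc (∑' k, a k) ^ q ≤ (∑' k, ENNReal.ofReal (1 * ((2 : ℝ) ^ k) ^ (-(κ / q))) * B ^ (1 / q)) ^ q :=
        ENNReal.rpow_le_rpow (ENNReal.tsum_le_tsum h1) hq.le
    _ = ENNReal.ofReal (S ^ q) * B := by
        rw [ENNReal.tsum_mul_right, hS', ENNReal.mul_rpow_of_nonneg _ _ hq.le,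
          ← ENNReal.rpow_mul, one_div_mul_cancel hq.ne', ENNReal.rpow_one,
          ENNReal.ofReal_rpow_of_pos hS]

/-- the dyadic annuli -/
def ann (d : ℕ) (R : ℝ) (k : ℕ) : Set (E d) :=
  {ξ | R / 2 ^ k / 2 < ‖ξ‖ ∧ ‖ξ‖ < R / 2 ^ k}

theorem ann_meas (R : ℝ) (k : ℕ) : MeasurableSet (ann d R k) :=
  (measurableSet_lt measurable_const measurable_norm).inter
    (measurableSet_lt measurable_norm measurable_const)

theorem ann_disj {R : ℝ} (hR : 0 < R) : Pairwise (Function.onFun Disjoint (ann d R)) := by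
  have key : ∀ k l : ℕ, k < l → Disjoint (ann d R k) (ann d R l) := by
    intro k l hkl
    rw [Set.disjoint_left]
    rintro x ⟨h1, _⟩ ⟨_, h2⟩
    have h3 : R / 2 ^ l ≤ R / 2 ^ k / 2 := by
      rw [div_div, ← pow_succ]
      exact div_le_div_of_nonneg_left hR.le (by positivity)
        (pow_le_pow_right₀ (by norm_num) (by omega))
    linarith
  intro k l hkl
  rcases lt_or_gt_of_ne hkl with h | h
  · exact key k l h
  · exact (key l k h).symm

theorem ann_cover (hd : 2 ≤ d) {R : ℝ} (hR : 0 < R) :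
    ∀ᵐ ξ : E d, ξ ∈ (⋃ k, ann d R k) ∨ R < ‖ξ‖ := by
  haveI : Nonempty (Fin d) := ⟨⟨0, by omega⟩⟩
  have h0 : ∀ᵐ ξ : E d, ξ ≠ 0 := by
    rw [ae_iff]
    simp
  have h1 : ∀ᵐ ξ : E d, ∀ k : ℕ, ‖ξ‖ ≠ R / 2 ^ k := by
    rw [ae_all_iff]
    intro k
    rw [ae_iff]
    have : {a : E d | ¬‖a‖ ≠ R / 2 ^ k} = Metric.sphere 0 (R / 2 ^ k) := by
      ext a
      simp
    rw [this]
    exact Measure.addHaar_sphere _ _ _
  filter_upwards [h0, h1] with ξ h2 h3
  by_cases h4 : R < ‖ξ‖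
  · exact Or.inr h4
  left
  have hn : 0 < ‖ξ‖ := norm_pos_iff.2 h2
  have h5 : ‖ξ‖ < R := by
    have := h3 0
    rw [pow_zero, div_one] at this
    exact lt_of_le_of_ne (not_lt.1 h4) this
  -- the largest k with ‖ξ‖ < R / 2 ^ k
  have h6 : ∃ n : ℕ, R / 2 ^ n ≤ ‖ξ‖ := by
    obtain ⟨n, hn1⟩ := pow_unbounded_of_one_lt (R / ‖ξ‖) (by norm_num : (1 : ℝ) < 2)
    refine ⟨n, ?_⟩
    rw [div_le_iff₀ (by positivity)]
    rw [div_lt_iff₀ hn] at hn1
    linarith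
  classical
  set n := Nat.find h6 with hnd
  have hn1 : R / 2 ^ n ≤ ‖ξ‖ := Nat.find_spec h6
  have hn0 : n ≠ 0 := by
    intro hc
    rw [hc, pow_zero, div_one] at hn1
    linarith
  obtain ⟨m, hm⟩ := Nat.exists_eq_succ_of_ne_zero hn0
  have hm1 : ¬ R / 2 ^ m ≤ ‖ξ‖ := Nat.find_min h6 (by omega)
  refine mem_iUnion.2 ⟨m, ?_, not_le.1 hm1⟩
  have h7 := lt_of_le_of_ne hn1 (h3 n).symm
  rw [hm, Nat.succ_eq_add_one, pow_succ, ← div_div] at h7
  exact h7

theorem ball_split (hd : 2 ≤ d) {f : E d → ℂ} {R : ℝ} (hR : 0 < R)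
    (h0 : ∀ ξ, R < ‖ξ‖ → f ξ = 0) (x : E d) (z : ℝ) :
    ‖X f x z‖ₑ ≤ ∑' k, ‖X ((ann d R k).indicator f) x z‖ₑ := by
  set e : E d → ℂ := fun ξ => Complex.exp (-((⟪x, ξ⟫ + ‖ξ‖ ^ 2 * z : ℝ) : ℂ) * Complex.I) with he
  by_cases hi : Integrable (fun ξ => e ξ * f ξ)
  swap
  · have : X f x z = 0 := integral_undef hi
    rw [this, enorm_zero]
    exact bot_le
  have hm := fun k => ann_meas (d := d) R k
  have hU : MeasurableSet (⋃ k, ann d R k) := MeasurableSet.iUnion hm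
  have h1 : X f x z = ∫ ξ in ⋃ k, ann d R k, e ξ * f ξ := by
    rw [← integral_indicator hU]
    apply integral_congr_ae
    filter_upwards [ann_cover hd hR] with ξ hξ
    by_cases hx : ξ ∈ ⋃ k, ann d R k
    · rw [indicator_of_mem hx]
    · rw [indicator_of_notMem hx, h0 ξ (hξ.resolve_left hx), mul_zero]
  have h2 := hasSum_integral_iUnion hm (ann_disj hR) hi.integrableOn
  have h3 : ∀ k, ∫ ξ in ann d R k, e ξ * f ξ = X ((ann d R k).indicator f) x z := by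
    intro k
    unfold X
    rw [← integral_indicator (hm k)]
    congr 1
    funext ξ
    by_cases hx : ξ ∈ ann d R k
    · rw [indicator_of_mem hx, indicator_of_mem hx]
    · rw [indicator_of_notMem hx, indicator_of_notMem hx, mul_zero]
  rw [h1, ← h2.tsum_eq]
  refine (enorm_tsum_le_tsum_enorm).trans (le_of_eq ?_)
  simp_rw [h3]

theorem Ang_zero (l : ℕ) {f : E d → ℂ} (h : ∀ x, f x = 0) {r : ℝ} :
    ∃ P : MvPolynomial (Fin d) ℂ, P.IsHomogeneous l ∧ Harm P ∧ ∀ x : E d, ‖x‖ = r → f x = ev P x := by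
  refine ⟨0, MvPolynomial.isHomogeneous_zero _ _ _, ?_, fun x _ => ?_⟩
  · unfold Harm
    simp
  · rw [h x]
    unfold ev
    simp

theorem Ang_ann {l : ℕ} {f : E d → ℂ} (hA : Ang l f) (R : ℝ) (k : ℕ) :
    Ang l ((ann d R k).indicator f) := by
  intro r hr
  by_cases h : R / 2 ^ k / 2 < r ∧ r < R / 2 ^ k
  · obtain ⟨P, h1, h2, h3⟩ := hA r hr
    refine ⟨P, h1, h2, fun x hx => ?_⟩
    rw [indicator_of_mem (show x ∈ ann d R k from by
      show R / 2 ^ k / 2 < ‖x‖ ∧ ‖x‖ < R / 2 ^ k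
      rw [hx]
      exact h), h3 x hx]
  · obtain ⟨P, h1, h2, h3⟩ := Ang_zero (d := d) l (f := fun _ => 0) (fun _ => rfl) (r := r)
    refine ⟨P, h1, h2, fun x hx => ?_⟩
    rw [indicator_of_notMem (show x ∉ ann d R k from by
      show ¬ (R / 2 ^ k / 2 < ‖x‖ ∧ ‖x‖ < R / 2 ^ k)
      rw [hx]
      exact h)]
    exact h3 x hx

theorem ball_lt4 (hd : 2 ≤ d) (q : ℝ) (hq : 2 * ((d : ℝ) + 1) / d < q) (hq4 : q < 4) :
    ∃ K : ℝ, 0 < K ∧ ∀ (l : ℕ) (f : E d → ℂ), Measurable f → Ang l f → ∀ R : ℝ, 0 < R →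
    (∀ ξ, R < ‖ξ‖ → f ξ = 0) →
    ∫⁻ x : E d, ∫⁻ z : ℝ, ‖X f x z‖ₑ ^ q ≤
      ENNReal.ofReal (K * R ^ (d * q - 2 * d - 2)) * ∫⁻ ξ, ‖f ξ‖ₑ ^ q := by
  have hd2 : (2 : ℝ) ≤ d := by exact_mod_cast hd
  have hd0 : (0 : ℝ) < d := by linarith
  have hq0 : 0 < q := lt_trans (by positivity) hq
  set κ : ℝ := d * q - 2 * d - 2 with hκ
  have hκ0 : 0 < κ := by
    rw [div_lt_iff₀ hd0] at hq
    rw [hκ]
    linarith
  obtain ⟨K, hK, h⟩ := annulus_a hd q hq hq4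
  obtain ⟨S, hS, hS'⟩ := tsum_pow_le hq0 hκ0
  refine ⟨S * K, by positivity, fun l f hfm hA R hR h0 => ?_⟩
  set g : ℕ → E d → ℂ := fun k => (ann d R k).indicator f with hg
  have hgm : ∀ k, Measurable (g k) := fun k => hfm.indicator (ann_meas R k)
  have h1 : ∀ k, ENNReal.ofReal (((2 : ℝ) ^ k) ^ κ) * ∫⁻ x : E d, ∫⁻ z : ℝ, ‖X (g k) x z‖ₑ ^ q ≤
      ENNReal.ofReal (K * R ^ κ) * ∫⁻ ξ in ann d R k, ‖f ξ‖ₑ ^ q := by
    intro k
    have h2 := h l (g k) (hgm k) (Ang_ann hA R k) (R / 2 ^ k) (by positivity)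
      (fun ξ hξ => indicator_of_notMem (show ξ ∉ ann d R k from hξ) f)
    refine (mul_le_mul' le_rfl h2).trans (le_of_eq ?_)
    rw [← mul_assoc, ← ENNReal.ofReal_mul (by positivity)]
    congr 1
    · congr 1
      rw [← hκ, Real.div_rpow hR.le (by positivity)]
      field_simp
    · rw [← lintegral_indicator (ann_meas R k)]
      refine lintegral_congr fun ξ => ?_
      simp only [hg]
      by_cases hx : ξ ∈ ann d R k
      · rw [indicator_of_mem hx, indicator_of_mem hx]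
      · rw [indicator_of_notMem hx, indicator_of_notMem hx, enorm_zero,
          ENNReal.zero_rpow_of_pos hq0]
  have hXm : ∀ k, Measurable fun p : E d × ℝ => ‖X (g k) p.1 p.2‖ₑ ^ q :=
    fun k => (X_meas (hgm k)).enorm.pow_const q
  calc ∫⁻ x : E d, ∫⁻ z : ℝ, ‖X f x z‖ₑ ^ q
      ≤ ∫⁻ x : E d, ∫⁻ z : ℝ, ENNReal.ofReal S *
          ∑' k, ENNReal.ofReal (((2 : ℝ) ^ k) ^ κ) * ‖X (g k) x z‖ₑ ^ q := by
        refine lintegral_mono fun x => lintegral_mono fun z => ?_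
        exact (ENNReal.rpow_le_rpow (ball_split hd hR h0 x z) hq0.le).trans (hS' _)
    _ = ENNReal.ofReal S * ∑' k, ENNReal.ofReal (((2 : ℝ) ^ k) ^ κ) *
          ∫⁻ x : E d, ∫⁻ z : ℝ, ‖X (g k) x z‖ₑ ^ q := by
        have e1 : ∀ x : E d, ∫⁻ z : ℝ, ENNReal.ofReal S *
            ∑' k, ENNReal.ofReal (((2 : ℝ) ^ k) ^ κ) * ‖X (g k) x z‖ₑ ^ q = ENNReal.ofReal S *
            ∑' k, ENNReal.ofReal (((2 : ℝ) ^ k) ^ κ) * ∫⁻ z : ℝ, ‖X (g k) x z‖ₑ ^ q := by
          intro x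
          rw [lintegral_const_mul' _ _ ENNReal.ofReal_ne_top, lintegral_tsum]
          · congr 2
            funext k
            rw [lintegral_const_mul' _ _ ENNReal.ofReal_ne_top]
          · intro k
            exact (((hXm k).comp measurable_prodMk_left).const_mul _).aemeasurable
        simp_rw [e1]
        rw [lintegral_const_mul' _ _ ENNReal.ofReal_ne_top, lintegral_tsum]
        · congr 2
          funext k
          rw [lintegral_const_mul' _ _ ENNReal.ofReal_ne_top]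
        · intro k
          exact ((XI_meas (hgm k) q).const_mul _).aemeasurable
    _ ≤ ENNReal.ofReal S * ∑' k, ENNReal.ofReal (K * R ^ κ) * ∫⁻ ξ in ann d R k, ‖f ξ‖ₑ ^ q := by
        exact mul_le_mul' le_rfl (ENNReal.tsum_le_tsum h1)
    _ = ENNReal.ofReal S * (ENNReal.ofReal (K * R ^ κ) *
          ∫⁻ ξ in ⋃ k, ann d R k, ‖f ξ‖ₑ ^ q) := by
        rw [ENNReal.tsum_mul_left, lintegral_iUnion (ann_meas R) (ann_disj hR)]
    _ ≤ ENNReal.ofReal S * (ENNReal.ofReal (K * R ^ κ) * ∫⁻ ξ, ‖f ξ‖ₑ ^ q) := by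
        gcongr
        exact Measure.restrict_le_self
    _ = _ := by
        rw [← mul_assoc, ← ENNReal.ofReal_mul hS.le, mul_assoc]

end Pool.Agent.H243.RP
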