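import Mathlib
import Pool.Agent.H243.RP.Q16
set_option autoImplicit false

/-! All exponents, all centres. -/

open MeasureTheory Set
open scoped ENNReal RealInnerProductSpace

namespace Pool.Agent.H243.RP

open Pool.Agent.W5h55.SH hiding e0 e0_norm
open Pool.Agent.H789R2.FR (E sg T sg_finite sg_ae polar)

variable {d : ℕ}

theorem X_le_int (f : E d → ℂ) (x : E d) (z : ℝ) : ‖X f x z‖ₑ ≤ ∫⁻ ξ, ‖f ξ‖ₑ := by
  unfold X
  refine (enorm_integral_le_lintegral_enorm _).trans (le_of_eq ?_)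
  refine lintegral_congr fun t => ?_
  rw [enorm_mul, ← ofReal_norm, norm_phase, ENNReal.ofReal_one, one_mul]

/-- Hölder's inequality on a ball -/
theorem holder_ball {p q : ℝ} (hp : 0 < p) (hpq : p ≤ q) {f : E d → ℂ} (hf : Measurable f)
    {R : ℝ} (h0 : ∀ ξ, R < ‖ξ‖ → f ξ = 0) :
    ∫⁻ ξ, ‖f ξ‖ₑ ^ p ≤ (volume (Metric.closedBall (0 : E d) R)) ^ (1 - p / q) *
      (∫⁻ ξ, ‖f ξ‖ₑ ^ q) ^ (p / q) := by
  have hq : 0 < q := by linarith
  set B : Set (E d) := Metric.closedBall 0 R with hB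
  set μ : Measure (E d) := volume.restrict B with hμ
  have hr : ∀ p : ℝ, 0 < p → ∫⁻ ξ, ‖f ξ‖ₑ ^ p = ∫⁻ ξ, ‖f ξ‖ₑ ^ p ∂μ := by
    intro p hp
    rw [hμ, ← lintegral_indicator Metric.isClosed_closedBall.measurableSet]
    refine lintegral_congr fun ξ => ?_
    by_cases ht : ξ ∈ B
    · rw [indicator_of_mem ht]
    · rw [indicator_of_notMem ht, h0 ξ (by
        rw [hB, mem_closedBall_zero_iff, not_le] at ht
        exact ht), enorm_zero, ENNReal.zero_rpow_of_pos hp]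
  have he : ∀ p : ℝ, 0 < p → (eLpNorm f (ENNReal.ofReal p) μ) ^ p = ∫⁻ t, ‖f t‖ₑ ^ p := by
    intro p hp
    rw [hr p hp, eLpNorm_eq_lintegral_rpow_enorm_toReal (by simpa using hp) ENNReal.ofReal_ne_top,
      ENNReal.toReal_ofReal hp.le, ← ENNReal.rpow_mul, one_div, inv_mul_cancel₀ hp.ne',
      ENNReal.rpow_one]
  have h1 := eLpNorm_le_eLpNorm_mul_rpow_measure_univ (μ := μ) (ENNReal.ofReal_le_ofReal hpq)
    hf.aestronglyMeasurable
  have h2 := ENNReal.rpow_le_rpow h1 hp.le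
  rw [he p hp, ENNReal.mul_rpow_of_nonneg _ _ hp.le, ENNReal.toReal_ofReal hp.le,
    ENNReal.toReal_ofReal hq.le, ← ENNReal.rpow_mul] at h2
  have h3 : (eLpNorm f (ENNReal.ofReal q) μ) ^ p = (∫⁻ t, ‖f t‖ₑ ^ q) ^ (p / q) := by
    rw [← he q hq, ← ENNReal.rpow_mul]
    congr 1
    field_simp
  have h4 : (1 / p - 1 / q) * p = 1 - p / q := by
    field_simp
  rw [h3, h4, hμ, Measure.restrict_apply_univ, mul_comm] at h2
  exact h2

theorem vol_ball (hd : 2 ≤ d) {R : ℝ} (hR : 0 < R) :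
    volume (Metric.closedBall (0 : E d) R) =
      ENNReal.ofReal (R ^ (d : ℝ)) * volume (Metric.ball (0 : E d) 1) := by
  haveI : Nonempty (Fin d) := ⟨⟨0, by omega⟩⟩
  rw [Measure.addHaar_closedBall _ _ hR.le]
  have hfr : Module.finrank ℝ (E d) = d := by simp
  rw [hfr, Real.rpow_natCast]

theorem ball_all (hd : 2 ≤ d) (q : ℝ) (hq : 2 * ((d : ℝ) + 1) / d < q) :
    ∃ K : ℝ, 0 < K ∧ ∀ (l : ℕ) (f : E d → ℂ), Measurable f → Ang l f → ∀ R : ℝ, 0 < R →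
    (∀ ξ, R < ‖ξ‖ → f ξ = 0) →
    ∫⁻ x : E d, ∫⁻ z : ℝ, ‖X f x z‖ₑ ^ q ≤
      ENNReal.ofReal (K * R ^ (d * q - 2 * d - 2)) * ∫⁻ ξ, ‖f ξ‖ₑ ^ q := by
  rcases lt_or_ge q 4 with hq4 | hq4
  · exact ball_lt4 hd q hq hq4
  have hd2 : (2 : ℝ) ≤ d := by exact_mod_cast hd
  have hd0 : (0 : ℝ) < d := by linarith
  -- an exponent below four
  have hc4 : 2 * ((d : ℝ) + 1) / d < 7 / 2 := by
    rw [div_lt_iff₀ hd0]
    linarith
  obtain ⟨K, hK, h⟩ := ball_lt4 hd (7 / 2) hc4 (by norm_num)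
  set V : ℝ≥0∞ := volume (Metric.ball (0 : E d) 1) with hV
  have hVf : V ≠ ∞ := measure_ball_lt_top.ne
  have hV0 : V ≠ 0 := (Metric.measure_ball_pos volume (0 : E d) one_pos).ne'
  set v : ℝ := V.toReal with hv
  have hv0 : 0 < v := ENNReal.toReal_pos hV0 hVf
  have hVv : V = ENNReal.ofReal v := (ENNReal.ofReal_toReal hVf).symm
  have hq0 : 0 < q := by linarith
  refine ⟨v ^ ((1 - 1 / q) * (q - 7 / 2)) * K * v ^ (1 - 7 / 2 / q), by positivity, ?_⟩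
  intro l f hfm hA R hR h0
  set F : ℝ≥0∞ := ∫⁻ ξ, ‖f ξ‖ₑ ^ q with hF
  set W : ℝ := R ^ (d : ℝ) * v with hW
  have hW0 : 0 < W := by positivity
  have hvol : volume (Metric.closedBall (0 : E d) R) = ENNReal.ofReal W := by
    rw [vol_ball hd hR, ← hV, hVv, ← ENNReal.ofReal_mul (by positivity)]
  have hH1 : ∫⁻ ξ, ‖f ξ‖ₑ ≤ ENNReal.ofReal (W ^ (1 - 1 / q)) * F ^ (1 / q) := by
    have h1 := holder_ball one_pos (by linarith : (1 : ℝ) ≤ q) hfm h0
    simp only [ENNReal.rpow_one] at h1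
    rw [hvol, ENNReal.ofReal_rpow_of_pos hW0] at h1
    exact h1
  have hH2 : ∫⁻ ξ, ‖f ξ‖ₑ ^ (7 / 2 : ℝ) ≤ ENNReal.ofReal (W ^ (1 - 7 / 2 / q)) *
      F ^ (7 / 2 / q) := by
    have h1 := holder_ball (by norm_num : (0 : ℝ) < 7 / 2) (by linarith : (7 / 2 : ℝ) ≤ q) hfm h0
    rw [hvol, ENNReal.ofReal_rpow_of_pos hW0] at h1
    exact h1
  have hmain := h l f hfm hA R hR h0
  rcases eq_or_ne F ∞ with hinf | hfin
  · rw [hinf, ENNReal.mul_top (by simpa using by positivity)]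
    exact le_top
  set I : ℝ≥0∞ := ∫⁻ ξ, ‖f ξ‖ₑ with hI
  have hIf : I ≠ ∞ := ne_top_of_le_ne_top (ENNReal.mul_ne_top ENNReal.ofReal_ne_top
    (ENNReal.rpow_ne_top_of_nonneg (by positivity) hfin)) hH1
  calc ∫⁻ x : E d, ∫⁻ z : ℝ, ‖X f x z‖ₑ ^ q
      ≤ ∫⁻ x : E d, ∫⁻ z : ℝ, I ^ (q - 7 / 2) * ‖X f x z‖ₑ ^ (7 / 2 : ℝ) := by
        refine lintegral_mono fun x => lintegral_mono fun z => ?_
        have e : ‖X f x z‖ₑ ^ q = ‖X f x z‖ₑ ^ (q - 7 / 2) * ‖X f x z‖ₑ ^ (7 / 2 : ℝ) := by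
          rw [← ENNReal.rpow_add_of_nonneg _ _ (by linarith) (by norm_num)]
          congr 1
          ring
        rw [e]
        exact mul_le_mul' (ENNReal.rpow_le_rpow (X_le_int f x z) (by linarith)) le_rfl
    _ = I ^ (q - 7 / 2) * ∫⁻ x : E d, ∫⁻ z : ℝ, ‖X f x z‖ₑ ^ (7 / 2 : ℝ) := by
        have hIq : I ^ (q - 7 / 2) ≠ ∞ := ENNReal.rpow_ne_top_of_nonneg (by linarith) hIf
        rw [← lintegral_const_mul' _ _ hIq]
        refine lintegral_congr fun x => ?_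
        rw [lintegral_const_mul' _ _ hIq]
    _ ≤ (ENNReal.ofReal (W ^ (1 - 1 / q)) * F ^ (1 / q)) ^ (q - 7 / 2) *
          (ENNReal.ofReal (K * R ^ (d * (7 / 2 : ℝ) - 2 * d - 2)) *
            (ENNReal.ofReal (W ^ (1 - 7 / 2 / q)) * F ^ (7 / 2 / q))) := by
        refine mul_le_mul' (ENNReal.rpow_le_rpow hH1 (by linarith)) (hmain.trans ?_)
        exact mul_le_mul' le_rfl hH2
    _ = ENNReal.ofReal (W ^ ((1 - 1 / q) * (q - 7 / 2)) * (K * R ^ (d * (7 / 2 : ℝ) - 2 * d - 2)) *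
          W ^ (1 - 7 / 2 / q)) * (F ^ (1 / q * (q - 7 / 2)) * F ^ (7 / 2 / q)) := by
        rw [ENNReal.mul_rpow_of_nonneg _ _ (by linarith),
          ENNReal.ofReal_rpow_of_pos (by positivity), ← Real.rpow_mul hW0.le, ← ENNReal.rpow_mul,
          ENNReal.ofReal_mul (q := W ^ (1 - 7 / 2 / q)) (by positivity),
          ENNReal.ofReal_mul (p := W ^ ((1 - 1 / q) * (q - 7 / 2))) (by positivity)]
        ring
    _ = _ := by
        rw [← ENNReal.rpow_add_of_nonneg _ _ (by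
          apply mul_nonneg (by positivity) (by linarith)) (by positivity)]
        have e1 : 1 / q * (q - 7 / 2) + 7 / 2 / q = 1 := by
          field_simp
          ring
        rw [e1, ENNReal.rpow_one]
        congr 2
        have e2 : W ^ ((1 - 1 / q) * (q - 7 / 2)) = R ^ (d * ((1 - 1 / q) * (q - 7 / 2))) *
            v ^ ((1 - 1 / q) * (q - 7 / 2)) := by
          rw [hW, Real.mul_rpow (by positivity) hv0.le, ← Real.rpow_mul hR.le]
        have e3 : W ^ (1 - 7 / 2 / q) = R ^ (d * (1 - 7 / 2 / q)) * v ^ (1 - 7 / 2 / q) := by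
          rw [hW, Real.mul_rpow (by positivity) hv0.le, ← Real.rpow_mul hR.le]
        have e4 : R ^ (d * ((1 - 1 / q) * (q - 7 / 2))) * R ^ (d * (7 / 2 : ℝ) - 2 * d - 2) *
            R ^ (d * (1 - 7 / 2 / q)) = R ^ (d * q - 2 * d - 2) := by
          rw [← Real.rpow_add hR, ← Real.rpow_add hR]
          congr 1
          field_simp
          ring
        rw [e2, e3, ← e4]
        ring

theorem X_translate (f : E d → ℂ) (c x : E d) (z : ℝ) :
    ‖X f x z‖ₑ = ‖X (fun η => f (c + η)) (x + (2 * z) • c) z‖ₑ := by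
  have h1 : X f x z = ∫ η : E d, Complex.exp (-((⟪x, c + η⟫ + ‖c + η‖ ^ 2 * z : ℝ) : ℂ) *
      Complex.I) * f (c + η) := by
    unfold X
    rw [← integral_add_left_eq_self _ c]
  have h2 : ∀ η : E d, Complex.exp (-((⟪x, c + η⟫ + ‖c + η‖ ^ 2 * z : ℝ) : ℂ) *
      Complex.I) * f (c + η) = Complex.exp (-((⟪x, c⟫ + ‖c‖ ^ 2 * z : ℝ) : ℂ) * Complex.I) *
      (Complex.exp (-((⟪x + (2 * z) • c, η⟫ + ‖η‖ ^ 2 * z : ℝ) : ℂ) * Complex.I) * f (c + η)) := by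
    intro η
    rw [← mul_assoc, ← Complex.exp_add]
    congr 2
    rw [inner_add_right, inner_add_left, real_inner_smul_left, norm_add_sq_real]
    push_cast
    ring
  simp_rw [h2] at h1
  rw [h1, integral_const_mul, enorm_mul, ← ofReal_norm, norm_phase, ENNReal.ofReal_one, one_mul]
  rfl

theorem lint_translate {f : E d → ℂ} (hf : Measurable f) (c : E d) (q : ℝ) :
    ∫⁻ x : E d, ∫⁻ z : ℝ, ‖X f x z‖ₑ ^ q =
      ∫⁻ x : E d, ∫⁻ z : ℝ, ‖X (fun η => f (c + η)) x z‖ₑ ^ q := by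
  set g : E d → ℂ := fun η => f (c + η) with hg
  have hgm : Measurable g := hf.comp (measurable_const_add c)
  have h1 : AEMeasurable (Function.uncurry fun (x : E d) (z : ℝ) => ‖X f x z‖ₑ ^ q)
      ((volume : Measure (E d)).prod (volume : Measure ℝ)) :=
    ((X_meas hf).enorm.pow_const q).aemeasurable
  have h2 : AEMeasurable (Function.uncurry fun (x : E d) (z : ℝ) => ‖X g x z‖ₑ ^ q)
      ((volume : Measure (E d)).prod (volume : Measure ℝ)) :=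
    ((X_meas hgm).enorm.pow_const q).aemeasurable
  rw [lintegral_lintegral_swap h1, lintegral_lintegral_swap h2]
  refine lintegral_congr fun z => ?_
  have h3 : ∀ x : E d, ‖X f x z‖ₑ ^ q = ‖X g (x + (2 * z) • c) z‖ₑ ^ q := by
    intro x
    rw [X_translate f c x z]
  simp_rw [h3]
  exact lintegral_add_right_eq_self (fun x => ‖X g x z‖ₑ ^ q) ((2 * z) • c)

theorem main (hd : 2 ≤ d) (q : ℝ) (hq : 2 * ((d : ℝ) + 1) / d < q) :
    ∃ K : ℝ, 0 < K ∧ ∀ (l : ℕ) (c : E d) (f : E d → ℂ), Measurable f →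
    Ang l (fun η => f (c + η)) → ∀ R : ℝ, 0 < R → (∀ ξ, R < ‖ξ - c‖ → f ξ = 0) →
    ∫⁻ x : E d, ∫⁻ z : ℝ, ‖X f x z‖ₑ ^ q ≤
      ENNReal.ofReal (K * R ^ (d * q - 2 * d - 2)) * ∫⁻ ξ, ‖f ξ‖ₑ ^ q := by
  obtain ⟨K, hK, h⟩ := ball_all hd q hq
  refine ⟨K, hK, fun l c f hfm hA R hR h0 => ?_⟩
  have h1 := h l (fun η => f (c + η)) (hfm.comp (measurable_const_add c)) hA R hR
    (fun ξ hξ => h0 _ (by simpa using hξ))
  rw [lint_translate hfm c q]
  refine h1.trans (le_of_eq ?_)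
  congr 1
  exact lintegral_add_left_eq_self (fun ξ => ‖f ξ‖ₑ ^ q) c

end Pool.Agent.H243.RP
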