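import Mathlib
import Pool.Agent.H243.RP.Q17
import Pool.Graph.R_pool_sql_team_seeded_64922ed1.X146.RP.Y
set_option autoImplicit false

/-! The normalisation of the problem. -/

open MeasureTheory Set
open scoped ENNReal NNReal RealInnerProductSpace

namespace Pool.Agent.H243.RP

open Pool.Agent.W5h55.SH hiding e0 e0_norm
open Pool.Agent.H789R2.FR (E sg T sg_finite sg_ae polar)
open Pool.Agent.X146.RP (V V_EE)
open Pool.Agent.TH277.HT (ch ch_cont EE)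
open WithLp (toLp ofLp)

theorem V_X {k : ℕ} (F : (Fin k → ℝ) → ℂ) (x : Fin k → ℝ) (t : ℝ) :
    V F x t = X (fun ξ : E k => F (ofLp ξ)) ((-(2 * Real.pi)) • (toLp 2 x : E k))
      (-(2 * Real.pi) * t) := by
  have hmp : MeasurePreserving (MeasurableEquiv.toLp 2 (Fin k → ℝ)).symm :=
    PiLp.volume_preserving_ofLp (Fin k)
  unfold V X
  rw [← hmp.integral_comp']
  apply integral_congr_ae
  refine ae_of_all _ fun v => ?_
  have e1 : (MeasurableEquiv.toLp 2 (Fin k → ℝ)).symm v = ofLp v := rfl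
  beta_reduce
  rw [e1, smul_eq_mul]
  congr 1
  unfold ch
  congr 1
  rw [real_inner_smul_left, EuclideanSpace.norm_sq_eq, PiLp.inner_apply]
  have e3 : ∑ i, (inner ℝ ((toLp 2 x : E k).ofLp i) (v.ofLp i) : ℝ) = ∑ i, ofLp v i * x i := by
    apply Finset.sum_congr rfl
    intro i _
    simp
  have e4 : ∑ i, ‖ofLp v i‖ ^ 2 = ∑ i, ofLp v i ^ 2 := by
    apply Finset.sum_congr rfl
    intro i _
    rw [Real.norm_eq_abs, sq_abs]
  rw [e3, e4]
  push_cast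
  ring

theorem lint_V {k : ℕ} (F : (Fin k → ℝ) → ℂ) (hF : Measurable F) (q : ℝ) :
    ∫⁻ y : (Fin k → ℝ) × ℝ, ‖V F y.1 y.2‖ₑ ^ q = ENNReal.ofReal (((2 * Real.pi) ^ (k + 1))⁻¹) *
      ∫⁻ x : E k, ∫⁻ z : ℝ, ‖X (fun ξ : E k => F (ofLp ξ)) x z‖ₑ ^ q := by
  have hpi := Real.pi_pos
  have hmp : MeasurePreserving (MeasurableEquiv.toLp 2 (Fin k → ℝ)).symm :=
    PiLp.volume_preserving_ofLp (Fin k)
  set f : E k → ℂ := fun ξ => F (ofLp ξ) with hf
  have hfm : Measurable f := hF.comp (MeasurableEquiv.toLp 2 (Fin k → ℝ)).symm.measurable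
  set G : E k → ℝ≥0∞ := fun x => ∫⁻ z : ℝ, ‖X f x z‖ₑ ^ q with hG
  have hGm : Measurable G := XI_meas hfm q
  have hVm : Measurable fun y : (Fin k → ℝ) × ℝ => ‖V F y.1 y.2‖ₑ ^ q := by
    have h2 : Measurable fun y : (Fin k → ℝ) × ℝ => (toLp 2 y.1 : E k) :=
      (MeasurableEquiv.toLp 2 (Fin k → ℝ)).measurable.comp measurable_fst
    have h3 : Measurable fun y : (Fin k → ℝ) × ℝ => -(2 * Real.pi) * y.2 :=
      measurable_snd.const_mul _
    have h4 : Measurable fun y : (Fin k → ℝ) × ℝ => (-(2 * Real.pi)) • (toLp 2 y.1 : E k) :=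
      h2.const_smul (-(2 * Real.pi))
    have h5 : Measurable fun y : (Fin k → ℝ) × ℝ =>
        (((-(2 * Real.pi)) • (toLp 2 y.1 : E k), -(2 * Real.pi) * y.2) : E k × ℝ) :=
      h4.prodMk h3
    have h6 : (fun y : (Fin k → ℝ) × ℝ => V F y.1 y.2) = (fun p : E k × ℝ => X f p.1 p.2) ∘
        fun y : (Fin k → ℝ) × ℝ =>
          (((-(2 * Real.pi)) • (toLp 2 y.1 : E k), -(2 * Real.pi) * y.2) : E k × ℝ) := by
      funext y
      rw [Function.comp_apply, V_X]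
    have h1 : Measurable fun y : (Fin k → ℝ) × ℝ => V F y.1 y.2 := by
      rw [h6]
      exact (X_meas hfm).comp h5
    exact h1.enorm.pow_const q
  have hprod : ∫⁻ y : (Fin k → ℝ) × ℝ, ‖V F y.1 y.2‖ₑ ^ q =
      ∫⁻ x : Fin k → ℝ, ∫⁻ t : ℝ, ‖V F x t‖ₑ ^ q := by
    rw [Measure.volume_eq_prod, lintegral_prod _ hVm.aemeasurable]
  have h2pi : -(2 * Real.pi) ≠ 0 := by
    have : 2 * Real.pi ≠ 0 := by positivity
    simpa using this
  have e1 : ∀ x : Fin k → ℝ, ∫⁻ t : ℝ, ‖V F x t‖ₑ ^ q =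
      ENNReal.ofReal ((2 * Real.pi)⁻¹) * G ((-(2 * Real.pi)) • (toLp 2 x : E k)) := by
    intro x
    simp_rw [V_X]
    have h3 := lint_mul (fun z : ℝ => ‖X f ((-(2 * Real.pi)) • (toLp 2 x : E k)) z‖ₑ ^ q)
      (((X_meas hfm).comp measurable_prodMk_left).enorm.pow_const q) h2pi
    rw [h3]
    congr 2
    rw [inv_neg, abs_neg, abs_of_pos (by positivity)]
  rw [hprod]
  simp_rw [e1]
  rw [lintegral_const_mul' _ _ ENNReal.ofReal_ne_top]
  have e2 : ∫⁻ x : Fin k → ℝ, G ((-(2 * Real.pi)) • (toLp 2 x : E k)) =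
      ∫⁻ v : E k, G ((-(2 * Real.pi)) • v) := by
    rw [← hmp.lintegral_comp_emb (MeasurableEquiv.measurableEmbedding _)]
    rfl
  rw [e2, lint_smul (volume : Measure (E k)) G hGm h2pi, ← mul_assoc,
    ← ENNReal.ofReal_mul (by positivity)]
  have hfr : Module.finrank ℝ (E k) = k := by simp
  rw [hfr]
  congr 2
  rw [abs_inv, abs_pow, abs_neg, abs_of_pos (by positivity), pow_succ,
    mul_inv ((2 * Real.pi) ^ k), mul_comm]

/-- on every sphere about `c` the function is a harmonic of degree `l` -/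
def Mom {k : ℕ} (l : ℕ) (c : Fin k → ℝ) (F : (Fin k → ℝ) → ℂ) : Prop :=
  ∀ r : ℝ, 0 < r → ∃ P : MvPolynomial (Fin k) ℂ, P.IsHomogeneous l ∧
    ∑ i, MvPolynomial.pderiv i (MvPolynomial.pderiv i P) = 0 ∧
    ∀ ξ : Fin k → ℝ, ∑ i, (ξ i - c i) ^ 2 = r ^ 2 →
      F ξ = MvPolynomial.eval (fun i => ((ξ i - c i : ℝ) : ℂ)) P

theorem Mom_Ang {k l : ℕ} {c : Fin k → ℝ} {F : (Fin k → ℝ) → ℂ} (h : Mom l c F) :
    Ang l (fun η : E k => F (ofLp ((toLp 2 c : E k) + η))) := by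
  intro r hr
  obtain ⟨P, h1, h2, h3⟩ := h r hr
  refine ⟨P, h1, h2, fun x hx => ?_⟩
  beta_reduce
  rw [h3]
  · unfold ev
    congr 1
    congr 1
    funext i
    simp
  · have h4 : ‖x‖ ^ 2 = r ^ 2 := by rw [hx]
    rw [EuclideanSpace.norm_sq_eq] at h4
    rw [← h4]
    apply Finset.sum_congr rfl
    intro i _
    rw [Real.norm_eq_abs, sq_abs]
    simp

theorem main_V {k : ℕ} (hk : 2 ≤ k) (q : ℝ) (hq : 2 * ((k : ℝ) + 1) / k < q) :
    ∃ K : ℝ≥0, ∀ (l : ℕ) (c : Fin k → ℝ) (R : ℝ) (F : (Fin k → ℝ) → ℂ), 0 < R →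
    Measurable F → (∀ ξ, R ^ 2 < ∑ i, (ξ i - c i) ^ 2 → F ξ = 0) → Mom l c F →
    ∫⁻ y : (Fin k → ℝ) × ℝ, ‖V F y.1 y.2‖ₑ ^ q ≤
      K * ENNReal.ofReal (R ^ (k * q - 2 * k - 2)) * ∫⁻ ξ, ‖F ξ‖ₑ ^ q := by
  have hpi := Real.pi_pos
  obtain ⟨K, hK, h⟩ := main hk q hq
  refine ⟨(((2 * Real.pi) ^ (k + 1))⁻¹ * K).toNNReal, fun l c R F hR hF h0 hM => ?_⟩
  have hmp : MeasurePreserving (MeasurableEquiv.toLp 2 (Fin k → ℝ)).symm :=
    PiLp.volume_preserving_ofLp (Fin k)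
  have hfm : Measurable fun ξ : E k => F (ofLp ξ) :=
    hF.comp (MeasurableEquiv.toLp 2 (Fin k → ℝ)).symm.measurable
  have h1 := h l (toLp 2 c : E k) (fun ξ : E k => F (ofLp ξ)) hfm (Mom_Ang hM) R hR (by
    intro ξ hξ
    apply h0
    have h2 : R ^ 2 < ‖ξ - toLp 2 c‖ ^ 2 := by gcongr
    rw [EuclideanSpace.norm_sq_eq] at h2
    refine h2.trans_eq ?_
    apply Finset.sum_congr rfl
    intro i _
    rw [Real.norm_eq_abs, sq_abs]
    simp)
  have h3 : ∫⁻ ξ : E k, ‖F (ofLp ξ)‖ₑ ^ q = ∫⁻ ξ, ‖F ξ‖ₑ ^ q := by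
    rw [← hmp.lintegral_comp_emb (MeasurableEquiv.measurableEmbedding _)]
    rfl
  rw [lint_V F hF q]
  refine (mul_le_mul' le_rfl h1).trans (le_of_eq ?_)
  rw [h3, ← mul_assoc, ← ENNReal.ofReal_mul (by positivity), ENNReal.ofNNReal_toNNReal,
    ← ENNReal.ofReal_mul (by positivity)]
  congr 2
  ring

end Pool.Agent.H243.RP
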