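import Mathlib
import Pool.Agent.H243.RP.Q18
set_option autoImplicit false

/-! Products over blocks. -/

open MeasureTheory Set
open scoped ENNReal NNReal RealInnerProductSpace

namespace Pool.Agent.H243.RP

open Pool.Agent.X146.RP (V V_EE Blk diag strengths ten product)
open Pool.Agent.TH277.HT (ch ch_cont EE)

/-- the factors -/
def Fac {H : Type} [NormedAddCommGroup H] [InnerProductSpace ℂ H] {k : ℕ}
    (F : (Fin k → ℝ) → H) : Prop :=
  StronglyMeasurable F ∧ MemLp F 2 volume ∧ (∀ η, η ∉ Icc (-1 : Fin k → ℝ) 1 → F η = 0) ∧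
    (k = 1 → ∀ η, ‖F η‖ ≤ 1) ∧
    (2 ≤ k → ∃ (l : ℕ) (c : Fin k → ℝ) (G : (Fin k → ℝ) → ℂ) (v : H), c ∈ Icc (-1 : Fin k → ℝ) 1 ∧
      Mom l c G ∧ ‖v‖ = 1 ∧ ∀ η, F η = G η • v)

/-- the norms of the factors -/
noncomputable def size {H : Type} [NormedAddCommGroup H] (n : ℕ) (q : ℝ) {k : ℕ}
    (F : (Fin k → ℝ) → H) : ℝ≥0∞ :=
  if k = 1 then 1 else (∫⁻ η, ‖F η‖ₑ ^ 2) ^ (1 - (k : ℝ) / n) *
    (∫⁻ η, ‖F η‖ₑ ^ (2 + (q - 2) * n / k)) ^ ((k : ℝ) / n)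

theorem blk_one (p : ℝ) (hp : 4 < p) :
    ∃ K : ℝ≥0, ∀ (H : Type) [NormedAddCommGroup H] [InnerProductSpace ℂ H] [CompleteSpace H]
      (k : ℕ) (F : (Fin k → ℝ) → H), k = 1 → Fac F →
      ∫⁻ y : (Fin k → ℝ) × ℝ, ‖V F y.1 y.2‖ₑ ^ p ≤ K := by
  obtain ⟨K, hK⟩ := diag 1 one_pos p (by norm_num; linarith)
  refine ⟨K, ?_⟩
  intro H _ _ _ k F hk hF
  subst hk
  exact hK H F ⟨hF.1, hF.2.2.2.1 rfl, hF.2.2.1, fun h => by omega⟩

theorem blk_two (k : ℕ) (hk : 2 ≤ k) (p : ℝ) (hp : 2 + 2 / (k : ℝ) < p) :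
    ∃ K : ℝ≥0, ∀ (H : Type) [NormedAddCommGroup H] [InnerProductSpace ℂ H] [CompleteSpace H]
      (F : (Fin k → ℝ) → H), Fac F →
      ∫⁻ y : (Fin k → ℝ) × ℝ, ‖V F y.1 y.2‖ₑ ^ p ≤ K * ∫⁻ η, ‖F η‖ₑ ^ p := by
  have hk0 : (0 : ℝ) < k := by exact_mod_cast (by omega : 0 < k)
  have hp0 : 0 < p := lt_trans (by positivity) hp
  have h3 : 2 * ((k : ℝ) + 1) / k < p := by
    have : 2 * ((k : ℝ) + 1) / k = 2 + 2 / (k : ℝ) := by field_simp
    rw [this]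
    exact hp
  obtain ⟨K, hK⟩ := main_V hk p h3
  refine ⟨(K * ENNReal.ofReal ((2 * (k : ℝ)) ^ (k * p - 2 * k - 2))).toNNReal, ?_⟩
  have hfin : (K * ENNReal.ofReal ((2 * (k : ℝ)) ^ (k * p - 2 * k - 2)) : ℝ≥0∞) ≠ ∞ :=
    ENNReal.mul_ne_top ENNReal.coe_ne_top ENNReal.ofReal_ne_top
  rw [ENNReal.coe_toNNReal hfin]
  intro H _ _ _ F hF
  obtain ⟨l, c, G, v, hc, hM, hv, hFG⟩ := hF.2.2.2.2 hk
  have hGF : ∀ η, G η = inner ℂ v (F η) := by
    intro η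
    rw [hFG, inner_smul_right, inner_self_eq_norm_sq_to_K, hv]
    simp
  have hGm : Measurable G := by
    have : G = fun η => inner ℂ v (F η) := funext hGF
    rw [this]
    exact (stronglyMeasurable_const.inner hF.1).measurable
  have hG0 : ∀ η, η ∉ Icc (-1 : Fin k → ℝ) 1 → G η = 0 := by
    intro η hη
    rw [hGF, hF.2.2.1 η hη, inner_zero_right]
  have hn : ∀ η, ‖G η‖ₑ = ‖F η‖ₑ := by
    intro η
    rw [hFG, enorm_smul, ← ofReal_norm v, hv, ENNReal.ofReal_one, mul_one]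
  have h4 : ∀ y : (Fin k → ℝ) × ℝ, ‖V F y.1 y.2‖ₑ = ‖V G y.1 y.2‖ₑ := by
    intro y
    have h5 : V F y.1 y.2 = V G y.1 y.2 • v := by
      have hF' : F = fun η => G η • v := funext hFG
      rw [hF']
      unfold V
      simp only [← smul_assoc]
      exact integral_smul_const _ _
    rw [h5, enorm_smul, ← ofReal_norm v, hv, ENNReal.ofReal_one, mul_one]
  have h5 := hK l c (2 * k) G (by positivity) hGm (by
    intro ξ hξ
    apply hG0
    intro hc2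
    have h6 : ∑ i, (ξ i - c i) ^ 2 ≤ ∑ _i : Fin k, (4 : ℝ) := by
      apply Finset.sum_le_sum
      intro i _
      have a1 := hc.1 i
      have a2 := hc.2 i
      have a3 := hc2.1 i
      have a4 := hc2.2 i
      simp only [Pi.neg_apply, Pi.one_apply] at a1 a2 a3 a4
      nlinarith
    rw [Finset.sum_const, Finset.card_univ, Fintype.card_fin, nsmul_eq_mul] at h6
    have h7 : (1 : ℝ) ≤ k := by exact_mod_cast (by omega : 1 ≤ k)
    nlinarith) hM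
  simp_rw [h4, ← hn]
  exact h5

theorem prod_rpow' {ι : Type*} (s : Finset ι) (A : ℝ≥0∞) (h0 : A ≠ 0) (h1 : A ≠ ∞) (x : ι → ℝ) :
    ∏ j ∈ s, A ^ x j = A ^ ∑ j ∈ s, x j := by
  classical
  induction s using Finset.induction with
  | empty => simp
  | insert i s hi ih => rw [Finset.prod_insert hi, Finset.sum_insert hi, ih, ENNReal.rpow_add _ _ h0 h1]

theorem sizes {n r : ℕ} {k : Fin r → ℕ} (e : (Σ j, Fin (k j)) ≃ Fin n) : ∑ j, k j = n := by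
  have h := Fintype.card_congr e
  simpa using h

theorem blocks (n : ℕ) (hn : 2 ≤ n) (q : ℝ) (hq : 2 * ((n : ℝ) + 1) / n < q) :
    ∃ C : ℝ≥0, ∀ (r : ℕ) (k : Fin r → ℕ) (e : (Σ j, Fin (k j)) ≃ Fin n), (∀ j, 0 < k j) →
      ∀ (H : Type) [NormedAddCommGroup H] [InnerProductSpace ℂ H] [CompleteSpace H]
      (M : ContinuousMultilinearMap ℂ (fun _ : Fin r => H) ℂ) (F : ∀ j, (Fin (k j) → ℝ) → H),
      ‖M‖ ≤ 1 → (∀ j, Fac (F j)) →
      ∫⁻ y, ‖EE (ten e M F) y‖ₑ ^ q ≤ C * ∏ j, size n q (F j) := by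
  have hn2 : (2 : ℝ) ≤ n := by exact_mod_cast hn
  have hn0 : (0 : ℝ) < n := by linarith
  have hq1 : 2 < n * (q - 2) := by
    rw [div_lt_iff₀ hn0] at hq
    linarith
  have hq2 : 2 < q := by
    by_contra hc
    push Not at hc
    have : (n : ℝ) * (q - 2) ≤ 0 := mul_nonpos_of_nonneg_of_nonpos hn0.le (by linarith)
    linarith
  obtain ⟨K1, hK1⟩ := blk_one (2 + (q - 2) * n) (by nlinarith)
  have hex : ∀ k : ℕ, ∃ K : ℝ≥0, 2 ≤ k → ∀ (H : Type) [NormedAddCommGroup H]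
      [InnerProductSpace ℂ H] [CompleteSpace H] (F : (Fin k → ℝ) → H), Fac F →
      ∫⁻ y : (Fin k → ℝ) × ℝ, ‖V F y.1 y.2‖ₑ ^ (2 + (q - 2) * n / k) ≤
        K * ∫⁻ η, ‖F η‖ₑ ^ (2 + (q - 2) * n / k) := by
    intro k
    by_cases hk : 2 ≤ k
    · have hk0 : (0 : ℝ) < k := by exact_mod_cast (by omega : 0 < k)
      obtain ⟨K, hK⟩ := blk_two k hk (2 + (q - 2) * n / k) (by
        have : 2 / (k : ℝ) < (q - 2) * n / k := div_lt_div_of_pos_right (by linarith) hk0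
        linarith)
      exact ⟨K, fun _ => hK⟩
    · exact ⟨0, fun h => absurd h hk⟩
  choose K hK using hex
  -- a common constant
  set A : ℝ≥0 := 1 + (K1 + ∑ m ∈ Finset.range (n + 1), K m) with hA
  have hKA : ∀ m, m ≤ n → K m ≤ A := by
    intro m hm
    rw [hA]
    exact ((Finset.single_le_sum (f := K) (fun i _ => zero_le)
      (Finset.mem_range.2 (by omega))).trans le_add_self).trans le_add_self
  have hK1A : K1 ≤ A := le_self_add.trans le_add_self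
  have hA1 : (1 : ℝ≥0∞) ≤ A := by
    rw [hA]
    exact_mod_cast le_self_add
  refine ⟨2 ^ n * A, ?_⟩
  intro r k e hk H _ _ _ M F hM hF
  have hsum := sizes e
  have hkn : ∀ j, k j ≤ n := by
    intro j
    rw [← hsum]
    exact Finset.single_le_sum (f := k) (fun i _ => Nat.zero_le _) (Finset.mem_univ j)
  have hsumR : ∑ j, ((k j : ℕ) : ℝ) = n := by exact_mod_cast hsum
  have hk0 : ∀ j, (0 : ℝ) < k j := fun j => by exact_mod_cast hk j
  have hα : ∀ j, (q - 2) / ((2 + (q - 2) * n / k j) - 2) = (k j : ℝ) / n := by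
    intro j
    have h1 : (2 + (q - 2) * n / k j) - 2 = (q - 2) * n / k j := by ring
    have h2 : q - 2 ≠ 0 := by linarith
    have h3 := (hk0 j).ne'
    rw [h1]
    field_simp
  have h1 := product e M F hM (fun j => ⟨(hF j).1, (hF j).2.1, (hF j).2.2.1⟩) q
    (fun j => 2 + (q - 2) * n / k j) hq2.le (fun j => by
      have : 0 < (q - 2) * n / k j := div_pos (by nlinarith) (hk0 j)
      linarith) (by
      simp only [hα]
      rw [← Finset.sum_div, hsumR, div_self hn0.ne'])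
  simp only [hα] at h1
  refine h1.trans ?_
  have e2 : ∏ j, (A : ℝ≥0∞) ^ ((k j : ℝ) / n) = A := by
    rw [prod_rpow' _ _ (zero_lt_one.trans_le hA1).ne' ENNReal.coe_ne_top, ← Finset.sum_div, hsumR,
      div_self hn0.ne', ENNReal.rpow_one]
  have e3 : ∏ j, (2 ^ k j : ℝ≥0∞) = 2 ^ n := by rw [Finset.prod_pow_eq_pow_sum, hsum]
  have e4 : ((2 ^ n * A : ℝ≥0) : ℝ≥0∞) * ∏ j, size n q (F j) =
      ∏ j, (2 ^ k j * (A : ℝ≥0∞) ^ ((k j : ℝ) / n) * size n q (F j)) := by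
    rw [Finset.prod_mul_distrib, Finset.prod_mul_distrib, e2, e3]
    push_cast
    rfl
  rw [e4]
  apply Finset.prod_le_prod'
  intro j _
  have hkn' : (k j : ℝ) ≤ n := by exact_mod_cast hkn j
  have hα0 : 0 ≤ (k j : ℝ) / n := by positivity
  have hα1 : (k j : ℝ) / n ≤ 1 := by rwa [div_le_one hn0]
  by_cases h1k : k j = 1
  · -- one coordinate
    have hs : size n q (F j) = 1 := by
      unfold size
      rw [if_pos h1k]
    rw [hs, mul_one]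
    have h5 : ∫⁻ y : (Fin (k j) → ℝ) × ℝ, ‖V (F j) y.1 y.2‖ₑ ^ (2 + (q - 2) * n / k j) ≤ A := by
      have h6 := hK1 H (k j) (F j) h1k (hF j)
      have h7 : 2 + (q - 2) * n / (k j : ℝ) = 2 + (q - 2) * n := by
        rw [h1k, Nat.cast_one, div_one]
      rw [h7]
      exact h6.trans (by exact_mod_cast hK1A)
    have h8 : ∫⁻ η, ‖F j η‖ₑ ^ 2 ≤ 2 ^ k j :=
      Pool.Agent.X146.RP.l2_le ((hF j).2.2.2.1 h1k) (hF j).2.2.1
    apply mul_le_mul'
    · calc (∫⁻ η, ‖F j η‖ₑ ^ 2) ^ (1 - (k j : ℝ) / n) ≤ (2 ^ k j : ℝ≥0∞) ^ (1 - (k j : ℝ) / n) :=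
            ENNReal.rpow_le_rpow h8 (by linarith)
        _ ≤ (2 ^ k j : ℝ≥0∞) ^ (1 : ℝ) := by
            apply ENNReal.rpow_le_rpow_of_exponent_le
            · exact one_le_pow₀ (by norm_num)
            · linarith
        _ = _ := ENNReal.rpow_one _
    · exact ENNReal.rpow_le_rpow h5 hα0
  · -- several coordinates
    have h2k : 2 ≤ k j := by
      have := hk j
      omega
    have hs : size n q (F j) = (∫⁻ η, ‖F j η‖ₑ ^ 2) ^ (1 - (k j : ℝ) / n) *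
        (∫⁻ η, ‖F j η‖ₑ ^ (2 + (q - 2) * n / k j)) ^ ((k j : ℝ) / n) := by
      unfold size
      rw [if_neg h1k]
    rw [hs]
    have h5 : ∫⁻ y : (Fin (k j) → ℝ) × ℝ, ‖V (F j) y.1 y.2‖ₑ ^ (2 + (q - 2) * n / k j) ≤
        A * ∫⁻ η, ‖F j η‖ₑ ^ (2 + (q - 2) * n / k j) :=
      (hK (k j) h2k H (F j) (hF j)).trans (mul_le_mul' (by exact_mod_cast hKA (k j) (hkn j)) le_rfl)
    have h6 := ENNReal.rpow_le_rpow h5 hα0
    rw [ENNReal.mul_rpow_of_nonneg _ _ hα0] at h6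
    calc _ ≤ (∫⁻ η, ‖F j η‖ₑ ^ 2) ^ (1 - (k j : ℝ) / n) * ((A : ℝ≥0∞) ^ ((k j : ℝ) / n) *
          (∫⁻ η, ‖F j η‖ₑ ^ (2 + (q - 2) * n / k j)) ^ ((k j : ℝ) / n)) := mul_le_mul' le_rfl h6
      _ = 1 * (A : ℝ≥0∞) ^ ((k j : ℝ) / n) * ((∫⁻ η, ‖F j η‖ₑ ^ 2) ^ (1 - (k j : ℝ) / n) *
          (∫⁻ η, ‖F j η‖ₑ ^ (2 + (q - 2) * n / k j)) ^ ((k j : ℝ) / n)) := by ring
      _ ≤ _ := by
          gcongr
          exact one_le_pow₀ (by norm_num)

end Pool.Agent.H243.RP
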